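import Pool.Agent.Q67.TK.Casimir

/-!
# Tensors of degree four and closed systems of tensors
-/

set_option autoImplicit false
set_option linter.unusedSectionVars false

open Matrix Finset Module

namespace Pool.Agent.Q67.TK

variable {B : Type} [Fintype B] [DecidableEq B] {K : Type*} [Field K] [Algebra K ℂ]
  {𝓡 : ∀ n, Submodule K ((Fin n → B) → K)}

section nondeg

variable {C C' : Matrix B B ℂ} {q κ : Matrix B B K}

open scoped ComplexOrder in
/-- The trace form is nondegenerate on the annihilator. -/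
lemma nondegG (hK : ∀ r : K, star (algebraMap K ℂ r) = algebraMap K ℂ r)
    (hC : C' * C = 1) (hfix : ∀ n, ∀ F ∈ 𝓡 n, pM n C *ᵥ up F = up F)
    (hqκ : q * κ = 1) (hκ : t2 κ ∈ 𝓡 2) (hpos : (Cᵀ * upM q).PosDef)
    {A : Matrix B B K} (hA : A ∈ Ann 𝓡) (hA0 : A ≠ 0) :
    ∃ A' ∈ Ann 𝓡, (A * A').trace ≠ 0 := by
  have hC' : C * C' = 1 := mul_eq_one_comm.1 hC
  set X : Matrix B B ℂ := C * upM A * C' with hX
  have hXC : C * upM A = X * C := by
    rw [hX, Matrix.mul_assoc, hC, Matrix.mul_one]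
  have hkill : ∀ n, ∀ F ∈ 𝓡 n, dM n X *ᵥ up F = 0 := by
    intro n F hF
    conv_lhs => rw [← hfix n F hF]
    rw [Matrix.mulVec_mulVec, ← dM_conj hXC, ← Matrix.mulVec_mulVec, ← upM_dM, ← up_mulVec,
      hA n F hF, up_zero, Matrix.mulVec_zero]
  -- `X` is skew
  have hup2 : up (t2 κ) = t2 (upM κ) := rfl
  have hskew : X * upM κ + upM κ * Xᵀ = 0 := by
    have h := hkill 2 _ hκ
    rw [hup2, dM_t2] at h
    exact t2_injective h
  have hqκ' : upM q * upM κ = 1 := by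
    rw [← upM_mul, hqκ]
    ext i j
    rw [upM_apply, Matrix.one_apply, Matrix.one_apply]
    split_ifs <;> simp
  have hκq' : upM κ * upM q = 1 := mul_eq_one_comm.1 hqκ'
  have hskew' : upM q * X + Xᵀ * upM q = 0 := by
    have h : upM q * (X * upM κ + upM κ * Xᵀ) * upM q = 0 := by
      rw [hskew, Matrix.mul_zero, Matrix.zero_mul]
    rw [Matrix.mul_add, Matrix.add_mul, ← Matrix.mul_assoc, Matrix.mul_assoc (upM q * X), hκq',
      Matrix.mul_one, ← Matrix.mul_assoc (upM q) (upM κ), hqκ', Matrix.one_mul] at h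
    exact h
  set M : Matrix B B ℂ := Cᵀ * upM q with hM
  have hMX : (upM A)ᴴ * M = -(M * X) := by
    have h1 : Xᵀ * upM q = -(upM q * X) := by
      rw [eq_neg_iff_add_eq_zero, add_comm]; exact hskew'
    calc (upM A)ᴴ * M = (upM A)ᵀ * Cᵀ * upM q := by
          rw [star_real_apply hK, hM, Matrix.mul_assoc]
      _ = (X * C)ᵀ * upM q := by rw [← Matrix.transpose_mul, hXC]
      _ = Cᵀ * (Xᵀ * upM q) := by rw [Matrix.transpose_mul, Matrix.mul_assoc]
      _ = -(M * X) := by rw [h1, hM, Matrix.mul_neg, Matrix.mul_assoc]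
  obtain ⟨g, hg⟩ := exists_sqrt hpos
  have hMu : IsUnit M.det := (Matrix.isUnit_iff_isUnit_det _).1 hpos.isUnit
  have hgu : IsUnit g.det := by
    have h : M.det = star g.det * g.det := by
      rw [hg, Matrix.det_mul, Matrix.det_conjTranspose]
    rw [h] at hMu
    exact isUnit_of_mul_isUnit_right hMu
  have hgg : g * g⁻¹ = 1 := Matrix.mul_nonsing_inv _ hgu
  have hgg' : g⁻¹ * g = 1 := Matrix.nonsing_inv_mul _ hgu
  -- the trace
  have htr : (upM A * X).trace ≠ 0 := by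
    set N : Matrix B B ℂ := g * upM A * g⁻¹ with hN
    have h3 : gᴴ * g = M := hg.symm
    have h4 : (g⁻¹ * (g⁻¹)ᴴ) * M = 1 := by
      rw [← h3, Matrix.mul_assoc, ← Matrix.mul_assoc (g⁻¹)ᴴ, ← Matrix.conjTranspose_mul, hgg,
        Matrix.conjTranspose_one, Matrix.one_mul, hgg']
    have h1 : (N * Nᴴ).trace = -(upM A * X).trace := by
      calc (N * Nᴴ).trace = (g * (upM A * (g⁻¹ * (g⁻¹)ᴴ) * (upM A)ᴴ * gᴴ)).trace := by
            congr 1
            rw [hN, Matrix.conjTranspose_mul, Matrix.conjTranspose_mul]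
            simp only [Matrix.mul_assoc]
        _ = (upM A * ((g⁻¹ * (g⁻¹)ᴴ) * ((upM A)ᴴ * M))).trace := by
            rw [Matrix.trace_mul_comm, ← h3]
            simp only [Matrix.mul_assoc]
        _ = -(upM A * X).trace := by
            rw [hMX, Matrix.mul_neg, ← Matrix.mul_assoc _ M X, h4, Matrix.one_mul,
              Matrix.mul_neg, Matrix.trace_neg]
    intro h0
    rw [h0, neg_zero] at h1
    have h5 : N = 0 := Matrix.trace_mul_conjTranspose_self_eq_zero_iff.1 h1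
    apply hA0
    have h6 : upM A = 0 := by
      calc upM A = g⁻¹ * N * g := by
            rw [hN]
            simp only [Matrix.mul_assoc, hgg', Matrix.mul_one]
            rw [← Matrix.mul_assoc, hgg', Matrix.one_mul]
        _ = 0 := by rw [h5, Matrix.mul_zero, Matrix.zero_mul]
    ext i j
    have h7 := congrFun (congrFun h6 i) j
    rw [upM_apply] at h7
    exact (algebraMap K ℂ).injective (by rw [h7]; simp)
  obtain ⟨l, hl⟩ := exists_functional (K := K) htr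
  refine ⟨dnM l X, dnM_mem_Ann hkill l, ?_⟩
  have : (A * dnM l X).trace = l (upM A * X).trace := by
    simp only [Matrix.trace, Matrix.diag_apply, Matrix.mul_apply, map_sum, dnM_apply, upM_apply,
      l_mul']
  rw [this]
  exact hl

end nondeg

open scoped ComplexOrder in
/-- **Tensors of degree four determine the Lie algebra up to its central part.** -/
theorem larsenG {C C' : Matrix B B ℂ} {q κ : Matrix B B K}
    (hK : ∀ r : K, star (algebraMap K ℂ r) = algebraMap K ℂ r)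
    (hC : C' * C = 1) (hfix : ∀ n, ∀ F ∈ 𝓡 n, pM n C *ᵥ up F = up F)
    (hqκ : q * κ = 1) (hpos : (Cᵀ * upM q).PosDef)
    (hcl : ∀ n, ∀ {F : (Fin n → B) → K}, (∀ A ∈ Ann 𝓡, dM n A *ᵥ F = 0) → F ∈ 𝓡 n)
    {𝒜 : ∀ n, Submodule K ((Fin n → B) → K)} (hle : ∀ n, 𝒜 n ≤ 𝓡 n) (hκ : t2 κ ∈ 𝒜 2)
    (h4 : ∀ A ∈ Ann 𝒜, ∀ F ∈ 𝓡 (2 + 2), dM (2 + 2) A *ᵥ F = 0)
    (hZ : ∀ Y : Matrix B B K, Y ∈ Ann 𝒜 → t2 (Y * κ) ∈ 𝓡 2 →
      (∀ Y' : Matrix B B K, t2 (Y' * κ) ∈ 𝓡 2 → Y * Y' = Y' * Y) →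
      Y ∈ Ann 𝓡) : Ann 𝒜 ≤ Ann 𝓡 := by
  have hκq : κ * q = 1 := mul_eq_one_comm.1 hqκ
  have hκz : t2 κ ∈ 𝓡 2 := hle 2 hκ
  have h2 : ∀ A ∈ Ann 𝒜, ∀ F ∈ 𝓡 2, dM 2 A *ᵥ F = 0 := by
    intro A hA F hF
    by_cases h0 : t2 κ = (0 : (Fin 2 → B) → K)
    · have hκ0 : κ = 0 := t2_injective (h0.trans t2_zero.symm)
      have h10 : (1 : Matrix B B K) = 0 := by rw [← hqκ, hκ0, Matrix.mul_zero]
      have h11 : ∀ b : B, False := fun b => by
        have := congrFun (congrFun h10 b) b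
        rw [Matrix.one_apply_eq] at this
        exact one_ne_zero this
      funext I
      exact (h11 (I 0)).elim
    · have hz4 : tp F (t2 κ) ∈ 𝓡 (2 + 2) := by
        refine hcl _ fun X hX => ?_
        rw [dM_tp, hX 2 _ hF, hX 2 _ hκz]
        funext I
        simp [tp]
      have h5 := h4 A hA _ hz4
      rw [dM_tp, hA 2 _ hκ] at h5
      have h6 : tp F (0 : (Fin 2 → B) → K) = 0 := by funext I; simp [tp]
      rw [h6, add_zero] at h5
      exact tp_eq_zero h5 h0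
  obtain ⟨N, e, e', he, he', hdual, hexp, hexp', hind⟩ := exists_dual
    (V := Ann 𝓡) fun A hA hA0 => nondegG hK hC hfix hqκ hκz hpos hA hA0
  have hmono : Ann 𝓡 ≤ Ann 𝒜 := fun A hA n F hF => hA n F (hle n hF)
  have hcas : cas e e' κ ∈ 𝓡 (2 + 2) :=
    hcl _ fun A hA => cas_mem hκz he he' hexp hexp' hA
  intro A hA
  have hAskew : A * κ + κ * Aᵀ = 0 := skew_of_Ann hκ hA
  have hAm : ∀ Y ∈ Ann 𝓡, A * Y - Y * A ∈ Ann 𝓡 :=
    bracket_mem hκq he hexp hind hAskew (h4 A hA _ hcas)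
  set A1 : Matrix B B K := ∑ i, (A * e' i).trace • e i with hA1
  have hA1m : A1 ∈ Ann 𝓡 :=
    Submodule.sum_mem _ fun i _ => Submodule.smul_mem _ _ (he i)
  set A2 := A - A1 with hA2
  have horth : ∀ Y ∈ Ann 𝓡, (A2 * Y).trace = 0 := by
    have h5 : ∀ j, (A2 * e' j).trace = 0 := by
      intro j
      rw [hA2, Matrix.sub_mul, Matrix.trace_sub, hA1, Finset.sum_mul, Matrix.trace_sum]
      simp only [Matrix.smul_mul, Matrix.trace_smul, hdual, smul_eq_mul]
      simp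
    intro Y hY
    rw [hexp' Y hY, Finset.mul_sum, Matrix.trace_sum]
    refine Finset.sum_eq_zero fun j _ => ?_
    rw [Matrix.mul_smul, Matrix.trace_smul, h5, smul_zero]
  have hA2m : ∀ Y ∈ Ann 𝓡, A2 * Y - Y * A2 ∈ Ann 𝓡 := by
    intro Y hY
    have : A2 * Y - Y * A2 = (A * Y - Y * A) - (A1 * Y - Y * A1) := by
      rw [hA2, Matrix.sub_mul, Matrix.mul_sub]
      abel
    rw [this]
    exact Submodule.sub_mem _ (hAm Y hY) (Ann_bracket hA1m hY)
  have hcomm : ∀ Y ∈ Ann 𝓡, A2 * Y - Y * A2 = 0 := by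
    intro Y hY
    by_contra hne
    obtain ⟨Z, hZm, hZt⟩ := nondegG hK hC hfix hqκ hκz hpos (hA2m Y hY) hne
    apply hZt
    rw [Matrix.sub_mul, Matrix.trace_sub]
    have t1 : (Y * A2 * Z).trace = (A2 * (Z * Y)).trace := by
      rw [Matrix.mul_assoc, Matrix.trace_mul_comm, Matrix.mul_assoc]
    rw [t1, Matrix.mul_assoc, ← Matrix.trace_sub, ← Matrix.mul_sub]
    exact horth _ (Ann_bracket hY hZm)
  have hA2K : t2 (A2 * κ) ∈ 𝓡 2 := by
    refine hcl _ fun Y hY => ?_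
    rw [dM_t2_skew (skew_of_Ann hκz hY)]
    have : Y * A2 - A2 * Y = 0 := by
      rw [← neg_sub, hcomm Y hY, neg_zero]
    rw [this, Matrix.zero_mul, t2_zero]
  have hA2A : A2 ∈ Ann 𝒜 := Submodule.sub_mem _ hA (hmono hA1m)
  have hcent : ∀ Y' : Matrix B B K, t2 (Y' * κ) ∈ 𝓡 2 → A2 * Y' = Y' * A2 := by
    intro Y' hY'
    have h5 := h2 A2 hA2A _ hY'
    rw [dM_t2_skew (skew_of_Ann hκ hA2A)] at h5
    have h6 : (A2 * Y' - Y' * A2) * κ = 0 := t2_injective h5
    have h7 := congrArg (· * q) h6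
    simp only [Matrix.mul_assoc _ κ q, hκq, Matrix.mul_one, Matrix.zero_mul] at h7
    exact sub_eq_zero.1 h7
  have h8 := hZ A2 hA2A hA2K hcent
  have h9 : A = A2 + A1 := by rw [hA2, sub_add_cancel]
  rw [h9]
  exact Submodule.add_mem _ h8 hA1m

end Pool.Agent.Q67.TK
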