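import Pool.Agent.Q67.TK.Bound2

/-!
# Ideals of the Lie algebra which kills a polarised system of tensors
-/

set_option autoImplicit false
set_option linter.unusedSectionVars false

open Matrix Finset Module

namespace Pool.Agent.Q67.TK

variable {B : Type} [Fintype B] [DecidableEq B] {K : Type*} [Field K] [Algebra K ℂ]

/-- the complex conjugate matrix -/
def cj (X : Matrix B B ℂ) : Matrix B B ℂ := X.map star

lemma cj_mul (X Y : Matrix B B ℂ) : cj (X * Y) = cj X * cj Y := by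
  ext i j
  simp only [cj, Matrix.map_apply, Matrix.mul_apply, star_sum, star_mul']

lemma cj_cj (X : Matrix B B ℂ) : cj (cj X) = X := by
  ext i j
  simp [cj]

lemma cj_transpose (X : Matrix B B ℂ) : (cj X)ᵀ = Xᴴ := by
  ext i j
  simp [cj, Matrix.conjTranspose_apply]

lemma dM_cj (n : ℕ) (X : Matrix B B ℂ) : ∀ I J, dM n (cj X) I J = star (dM n X I J) := by
  intro I J
  simp only [dM, cj, Matrix.map_apply, star_sum, star_mul', star_prod]
  refine Finset.sum_congr rfl fun k _ => ?_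
  congr 1
  refine Finset.prod_congr rfl fun l _ => ?_
  rw [Matrix.one_apply]
  split_ifs <;> simp

/-- Matrices which kill all tensors of the system. -/
def Kills (𝒜 : ∀ n, Submodule K ((Fin n → B) → K)) (X : Matrix B B ℂ) : Prop :=
  ∀ n, ∀ F ∈ 𝒜 n, dM n X *ᵥ up F = 0

section star

variable {C C' : Matrix B B ℂ} {q κ : Matrix B B K} {𝒜 : ∀ n, Submodule K ((Fin n → B) → K)}

lemma Kills.cj (hK : ∀ r : K, star (algebraMap K ℂ r) = algebraMap K ℂ r) {X : Matrix B B ℂ}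
    (hX : Kills 𝒜 X) : Kills 𝒜 (cj X) := by
  intro n F hF
  funext I
  have h1 := congrArg star (congrFun (hX n F hF) I)
  rw [Pi.zero_apply, star_zero] at h1
  rw [Pi.zero_apply, ← h1]
  simp only [Matrix.mulVec, dotProduct, star_sum, star_mul', dM_cj]
  refine Finset.sum_congr rfl fun J _ => ?_
  rw [show star (up F J) = up F J from hK (F J)]

lemma Kills.conj {D D' : Matrix B B ℂ} (hD : D' * D = 1)
    (hfix : ∀ n, ∀ F ∈ 𝒜 n, pM n D *ᵥ up F = up F) {X : Matrix B B ℂ} (hX : Kills 𝒜 X) :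
    Kills 𝒜 (D * X * D') := by
  intro n F hF
  have hXC : D * X = (D * X * D') * D := by
    rw [Matrix.mul_assoc (D * X), hD, Matrix.mul_one]
  conv_lhs => rw [← hfix n F hF]
  rw [Matrix.mulVec_mulVec, ← dM_conj hXC, ← Matrix.mulVec_mulVec, hX n F hF, Matrix.mulVec_zero]

/-- the adjoint, up to the sign -/
def tau (C C' X : Matrix B B ℂ) : Matrix B B ℂ := C * cj X * C'

lemma tau_mul (hC : C' * C = 1) (X Y : Matrix B B ℂ) :
    tau C C' (X * Y) = tau C C' X * tau C C' Y := by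
  rw [tau, tau, tau, cj_mul]
  calc C * (cj X * cj Y) * C' = C * cj X * (1 * (cj Y * C')) := by
        rw [Matrix.one_mul]; simp only [Matrix.mul_assoc]
    _ = C * cj X * (C' * C * (cj Y * C')) := by rw [hC]
    _ = _ := by simp only [Matrix.mul_assoc]

lemma Kills.tau (hK : ∀ r : K, star (algebraMap K ℂ r) = algebraMap K ℂ r) (hC : C' * C = 1)
    (hfix : ∀ n, ∀ F ∈ 𝒜 n, pM n C *ᵥ up F = up F) {X : Matrix B B ℂ} (hX : Kills 𝒜 X) :
    Kills 𝒜 (tau C C' X) :=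
  (hX.cj hK).conj hC hfix

/-- Every matrix in the Lie algebra is an adjoint. -/
lemma exists_tau (hK : ∀ r : K, star (algebraMap K ℂ r) = algebraMap K ℂ r) (hC : C' * C = 1)
    (hfix : ∀ n, ∀ F ∈ 𝒜 n, pM n C *ᵥ up F = up F) {Z : Matrix B B ℂ} (hZ : Kills 𝒜 Z) :
    ∃ Z', Kills 𝒜 Z' ∧ Pool.Agent.Q67.TK.tau C C' Z' = Z := by
  have hC' : C * C' = 1 := mul_eq_one_comm.1 hC
  have hfix' : ∀ n, ∀ F ∈ 𝒜 n, pM n C' *ᵥ up F = up F := by
    intro n F hF
    conv_lhs => rw [← hfix n F hF]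
    rw [Matrix.mulVec_mulVec, ← pM_mul, hC, pM_one, Matrix.one_mulVec]
  refine ⟨Pool.Agent.Q67.TK.cj (C' * Z * C), (hZ.conj hC' hfix').cj hK, ?_⟩
  rw [Pool.Agent.Q67.TK.tau, cj_cj]
  calc C * (C' * Z * C) * C' = (C * C') * Z * (C * C') := by simp only [Matrix.mul_assoc]
    _ = Z := by rw [hC', Matrix.one_mul, Matrix.mul_one]

open scoped ComplexOrder in
lemma trace_tau_ne (hC : C' * C = 1) (hK : ∀ r : K, star (algebraMap K ℂ r) = algebraMap K ℂ r)
    (hfix : ∀ n, ∀ F ∈ 𝒜 n, pM n C *ᵥ up F = up F) (hqκ : q * κ = 1) (hκ : t2 κ ∈ 𝒜 2)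
    (hpos : (Cᵀ * upM q).PosDef) {X : Matrix B B ℂ} (hX : Kills 𝒜 X) (hX0 : X ≠ 0) :
    (X * tau C C' X).trace ≠ 0 := by
  set Y : Matrix B B ℂ := tau C C' X with hY
  have hXC : C * cj X = Y * C := by
    rw [hY, tau, Matrix.mul_assoc, hC, Matrix.mul_one]
  have hkill := hX.tau hK hC hfix
  have hup2 : up (t2 κ) = t2 (upM κ) := rfl
  have hskew : Y * upM κ + upM κ * Yᵀ = 0 := by
    have h := hkill 2 _ hκ
    rw [hup2, dM_t2] at h
    exact t2_injective h
  have hqκ' : upM q * upM κ = 1 := by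
    rw [← upM_mul, hqκ]
    ext i j
    rw [upM_apply, Matrix.one_apply, Matrix.one_apply]
    split_ifs <;> simp
  have hκq' : upM κ * upM q = 1 := mul_eq_one_comm.1 hqκ'
  have hskew' : upM q * Y + Yᵀ * upM q = 0 := by
    have h : upM q * (Y * upM κ + upM κ * Yᵀ) * upM q = 0 := by
      rw [hskew, Matrix.mul_zero, Matrix.zero_mul]
    rw [Matrix.mul_add, Matrix.add_mul, ← Matrix.mul_assoc, Matrix.mul_assoc (upM q * Y), hκq',
      Matrix.mul_one, ← Matrix.mul_assoc (upM q) (upM κ), hqκ', Matrix.one_mul] at h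
    exact h
  set M : Matrix B B ℂ := Cᵀ * upM q with hM
  have hMX : Xᴴ * M = -(M * Y) := by
    have h1 : Yᵀ * upM q = -(upM q * Y) := by
      rw [eq_neg_iff_add_eq_zero, add_comm]; exact hskew'
    calc Xᴴ * M = (cj X)ᵀ * Cᵀ * upM q := by
          rw [cj_transpose, hM, Matrix.mul_assoc]
      _ = (Y * C)ᵀ * upM q := by rw [← Matrix.transpose_mul, hXC]
      _ = Cᵀ * (Yᵀ * upM q) := by rw [Matrix.transpose_mul, Matrix.mul_assoc]
      _ = -(M * Y) := by rw [h1, hM, Matrix.mul_neg, Matrix.mul_assoc]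
  obtain ⟨g, hg⟩ := exists_sqrt hpos
  have hMu : IsUnit M.det := (Matrix.isUnit_iff_isUnit_det _).1 hpos.isUnit
  have hgu : IsUnit g.det := by
    have h : M.det = star g.det * g.det := by
      rw [hg, Matrix.det_mul, Matrix.det_conjTranspose]
    rw [h] at hMu
    exact isUnit_of_mul_isUnit_right hMu
  have hgg : g * g⁻¹ = 1 := Matrix.mul_nonsing_inv _ hgu
  have hgg' : g⁻¹ * g = 1 := Matrix.nonsing_inv_mul _ hgu
  set N : Matrix B B ℂ := g * X * g⁻¹ with hN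
  have h3 : gᴴ * g = M := hg.symm
  have h4 : (g⁻¹ * (g⁻¹)ᴴ) * M = 1 := by
    rw [← h3, Matrix.mul_assoc, ← Matrix.mul_assoc (g⁻¹)ᴴ, ← Matrix.conjTranspose_mul, hgg,
      Matrix.conjTranspose_one, Matrix.one_mul, hgg']
  have h1 : (N * Nᴴ).trace = -(X * Y).trace := by
    calc (N * Nᴴ).trace = (g * (X * (g⁻¹ * (g⁻¹)ᴴ) * Xᴴ * gᴴ)).trace := by
          congr 1
          rw [hN, Matrix.conjTranspose_mul, Matrix.conjTranspose_mul]
          simp only [Matrix.mul_assoc]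
      _ = (X * ((g⁻¹ * (g⁻¹)ᴴ) * (Xᴴ * M))).trace := by
          rw [Matrix.trace_mul_comm, ← h3]
          simp only [Matrix.mul_assoc]
      _ = -(X * Y).trace := by
          rw [hMX, Matrix.mul_neg, ← Matrix.mul_assoc _ M Y, h4, Matrix.one_mul,
            Matrix.mul_neg, Matrix.trace_neg]
  intro h0
  rw [h0, neg_zero] at h1
  have h5 : N = 0 := Matrix.trace_mul_conjTranspose_self_eq_zero_iff.1 h1
  apply hX0
  calc X = g⁻¹ * N * g := by
        rw [hN]
        simp only [Matrix.mul_assoc, hgg', Matrix.mul_one]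
        rw [← Matrix.mul_assoc, hgg', Matrix.one_mul]
    _ = 0 := by rw [h5, Matrix.mul_zero, Matrix.zero_mul]

end star

/-! ### Extension of the coefficients -/

section ext

variable {L : Type*} [Field L] [Algebra K L] [Algebra L ℂ] [IsScalarTower K L ℂ]

/-- a function with values in `K` as a function with values in `L` -/
def mp (L : Type*) [Field L] [Algebra K L] {S : Type*} (F : S → K) : S → L :=
  fun I => algebraMap K L (F I)

lemma up_mp {S : Type*} (F : S → K) : up (mp L F) = up F :=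
  funext fun I => (IsScalarTower.algebraMap_apply K L ℂ (F I)).symm

/-- the extension of a space of functions -/
def mpS (L : Type*) [Field L] [Algebra K L] {S : Type*} (V : Submodule K (S → K)) :
    Submodule L (S → L) := Submodule.span L (mp L '' (V : Set (S → K)))

lemma mp_mem {S : Type*} {V : Submodule K (S → K)} {F : S → K} (h : F ∈ V) : mp L F ∈ mpS L V :=
  Submodule.subset_span ⟨F, h, rfl⟩

variable {𝒜 : ∀ n, Submodule K ((Fin n → B) → K)}

lemma kills_iff {X : Matrix B B ℂ} :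
    Kills 𝒜 X ↔ ∀ n, ∀ F ∈ mpS L (𝒜 n), dM n X *ᵥ up F = 0 := by
  constructor
  · intro h n F hF
    refine Submodule.span_induction (p := fun F _ => dM n X *ᵥ up F = 0) ?_ ?_ ?_ ?_ hF
    · rintro _ ⟨F, hF, rfl⟩
      rw [up_mp]
      exact h n F hF
    · rw [up_zero, Matrix.mulVec_zero]
    · intro x y _ _ hx hy; rw [up_add, Matrix.mulVec_add, hx, hy, add_zero]
    · intro a x _ hx; rw [up_smul, Matrix.mulVec_smul, hx, smul_zero]
  · intro h n F hF
    rw [← up_mp (L := L)]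
    exact h n _ (mp_mem hF)

lemma kills_up {A : Matrix B B L} (hA : A ∈ Ann fun n => mpS L (𝒜 n)) : Kills 𝒜 (upM A) := by
  rw [kills_iff (L := L)]
  intro n F hF
  rw [← upM_dM, ← up_mulVec, hA n F hF, up_zero]

lemma Kills.dn {X : Matrix B B ℂ} (hX : Kills 𝒜 X) (l : ℂ →ₗ[L] L) :
    dnM l X ∈ Ann fun n => mpS L (𝒜 n) :=
  dnM_mem_Ann (kills_iff.1 hX) l

lemma dnM_up_mul (l : ℂ →ₗ[L] L) (Y : Matrix B B L) (Z : Matrix B B ℂ) :
    dnM l (upM Y * Z) = Y * dnM l Z := by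
  ext i j
  simp only [dnM_apply, Matrix.mul_apply, map_sum, upM_apply, l_mul']

lemma dnM_mul_up (l : ℂ →ₗ[L] L) (Y : Matrix B B L) (Z : Matrix B B ℂ) :
    dnM l (Z * upM Y) = dnM l Z * Y := by
  ext i j
  simp only [dnM_apply, Matrix.mul_apply, map_sum, upM_apply, l_mul]

lemma dnM_sub (l : ℂ →ₗ[L] L) (Y Z : Matrix B B ℂ) : dnM l (Y - Z) = dnM l Y - dnM l Z := by
  ext i j
  simp only [dnM_apply, Matrix.sub_apply, map_sub]

lemma eq_of_dnM {Y Z : Matrix B B ℂ} (h : ∀ l : ℂ →ₗ[L] L, dnM l Y = dnM l Z) : Y = Z := by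
  ext i j
  by_contra hne
  obtain ⟨l, hl⟩ := exists_functional (K := L) (sub_ne_zero.2 hne)
  apply hl
  rw [map_sub]
  exact sub_eq_zero.2 (congrFun (congrFun (h l) i) j)

lemma trace_dnM (l : ℂ →ₗ[L] L) (A : Matrix B B L) (Y : Matrix B B ℂ) :
    (A * dnM l Y).trace = l (upM A * Y).trace := by
  rw [← dnM_up_mul]
  simp only [Matrix.trace, Matrix.diag_apply, dnM_apply, map_sum]

variable {C C' : Matrix B B ℂ} {q κ : Matrix B B K}

open scoped ComplexOrder in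
/-- **Ideals with small centralisers.** -/
theorem ideal_eq (hK : ∀ r : K, star (algebraMap K ℂ r) = algebraMap K ℂ r)
    (hC : C' * C = 1) (hfix : ∀ n, ∀ F ∈ 𝒜 n, pM n C *ᵥ up F = up F)
    (hqκ : q * κ = 1) (hκ : t2 κ ∈ 𝒜 2) (hpos : (Cᵀ * upM q).PosDef)
    {𝔤 𝔥 : Submodule L (Matrix B B L)} (h𝔤 : 𝔤 = Ann fun n => mpS L (𝒜 n)) (hle : 𝔥 ≤ 𝔤)
    (hi : ∀ A ∈ 𝔤, ∀ X ∈ 𝔥, A * X - X * A ∈ 𝔥)
    (hii : ∀ A ∈ 𝔤, (∀ X ∈ 𝔥, A * X = X * A) → A ∈ 𝔥)
    (hiii : ∀ A ∈ 𝔤, (∀ X ∈ 𝔥, A * X = X * A) → ∀ X ∈ 𝔤, A * X = X * A) : 𝔤 ≤ 𝔥 := by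
  have hnd : ∀ A ∈ 𝔤, A ≠ 0 → ∃ A' ∈ 𝔤, (A * A').trace ≠ 0 := by
    intro A hA hA0
    rw [h𝔤] at hA
    have hX := kills_up hA
    have hX0 : upM A ≠ 0 := by
      intro h
      apply hA0
      ext i j
      have h7 := congrFun (congrFun h i) j
      rw [upM_apply] at h7
      exact (algebraMap L ℂ).injective (by rw [h7]; simp)
    have htr := trace_tau_ne hC hK hfix hqκ hκ hpos hX hX0
    obtain ⟨l, hl⟩ := exists_functional (K := L) htr
    refine ⟨dnM l (tau C C' (upM A)), ?_, ?_⟩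
    · rw [h𝔤]
      exact (hX.tau hK hC hfix).dn l
    · rw [trace_dnM]
      exact hl
  obtain ⟨N, e, e', he, he', hdual, hexp, hexp', hind⟩ := exists_dual (V := 𝔤) hnd
  intro A0 hA0
  by_contra hA0'
  obtain ⟨φ, hφ, hφV⟩ := Submodule.exists_le_ker_of_notMem hA0'
  set Y : Matrix B B L := ∑ i, φ (e i) • e' i with hY
  have hYm : Y ∈ 𝔤 := Submodule.sum_mem _ fun i _ => Submodule.smul_mem _ _ (he' i)
  have hYtr : ∀ X ∈ 𝔤, (X * Y).trace = φ X := by
    intro X hX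
    conv_rhs => rw [hexp X hX]
    rw [hY, Finset.mul_sum, Matrix.trace_sum, map_sum]
    refine Finset.sum_congr rfl fun i _ => ?_
    rw [Matrix.mul_smul, Matrix.trace_smul, map_smul, smul_eq_mul, smul_eq_mul, mul_comm]
  have hY0 : Y ≠ 0 := by
    intro h
    have h1 := hYtr A0 hA0
    rw [h, Matrix.mul_zero, Matrix.trace_zero] at h1
    exact hφ h1.symm
  have hYh : ∀ X ∈ 𝔥, (X * Y).trace = 0 := fun X hX => (hYtr X (hle hX)).trans (hφV hX)
  have hbr : ∀ {X Z : Matrix B B L}, X ∈ 𝔤 → Z ∈ 𝔤 → X * Z - Z * X ∈ 𝔤 := by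
    intro X Z hX hZ
    rw [h𝔤] at hX hZ ⊢
    exact Ann_bracket hX hZ
  have hcomm : ∀ X ∈ 𝔥, Y * X = X * Y := by
    intro X hX
    by_contra hne
    obtain ⟨A', hA', htr⟩ := hnd _ (hbr hYm (hle hX)) (sub_ne_zero.2 hne)
    apply htr
    have h1 := hYh _ (hi A' hA' X hX)
    rw [Matrix.sub_mul, Matrix.trace_sub] at h1 ⊢
    have t1 : (Y * X * A').trace = (X * A' * Y).trace := by
      rw [Matrix.mul_assoc, Matrix.trace_mul_comm]
    have t2 : (X * Y * A').trace = (A' * X * Y).trace := by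
      rw [Matrix.mul_assoc, Matrix.trace_mul_comm, Matrix.mul_assoc, Matrix.trace_mul_comm Y,
        Matrix.trace_mul_comm]
    rw [t1, t2, ← neg_sub, h1, neg_zero]
  have hYcent := hiii Y hYm hcomm
  have hYc : ∀ Z, Kills 𝒜 Z → upM Y * Z = Z * upM Y := by
    intro Z hZ
    refine eq_of_dnM (L := L) fun l => ?_
    rw [dnM_up_mul, dnM_mul_up]
    refine hYcent _ ?_
    rw [h𝔤]
    exact hZ.dn l
  have hYk : Kills 𝒜 (upM Y) := by
    rw [h𝔤] at hYm
    exact kills_up hYm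
  set Z0 := tau C C' (upM Y) with hZ0
  have hZ0k : Kills 𝒜 Z0 := hYk.tau hK hC hfix
  have hZ0c : ∀ Z, Kills 𝒜 Z → Z0 * Z = Z * Z0 := by
    intro Z hZ
    obtain ⟨Z', hZ', rfl⟩ := exists_tau hK hC hfix hZ
    rw [hZ0, ← tau_mul hC, ← tau_mul hC, hYc Z' hZ']
  have hX0 : upM Y ≠ 0 := by
    intro h
    apply hY0
    ext i j
    have h7 := congrFun (congrFun h i) j
    rw [upM_apply] at h7
    exact (algebraMap L ℂ).injective (by rw [h7]; simp)
  have htr := trace_tau_ne hC hK hfix hqκ hκ hpos hYk hX0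
  obtain ⟨l, hl⟩ := exists_functional (K := L) htr
  have hA'g : dnM l Z0 ∈ 𝔤 := by
    rw [h𝔤]
    exact hZ0k.dn l
  have hA'h : dnM l Z0 ∈ 𝔥 := by
    refine hii _ hA'g fun X hX => ?_
    have hX' : Kills 𝒜 (upM X) := by
      have := hle hX
      rw [h𝔤] at this
      exact kills_up this
    rw [← dnM_mul_up, ← dnM_up_mul, hZ0c _ hX']
  have h1 := hYh _ hA'h
  rw [Matrix.trace_mul_comm, trace_dnM] at h1
  exact hl h1

end ext

end Pool.Agent.Q67.TK
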