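import Pool.Agent.Q67.TK.Tannaka

/-!
# Finite index
-/

set_option autoImplicit false
set_option linter.unusedSectionVars false

open Matrix Finset MeasureTheory Module Topology NormedSpace

namespace Pool.Agent.Q67.TK

variable {B : Type} [Fintype B] [DecidableEq B]

/-- orthogonal projection -/
lemma exists_proj {S : Type*} [Fintype S] [DecidableEq S] (V : Submodule ℂ (S → ℂ)) (x : S → ℂ) :
    ∃ y ∈ V, ∀ F ∈ V, ip F (x - y) = 0 := by
  set e : EuclideanSpace ℂ S ≃ₗ[ℂ] (S → ℂ) := WithLp.linearEquiv 2 ℂ (S → ℂ) with he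
  set V' : Submodule ℂ (EuclideanSpace ℂ S) := V.comap e.toLinearMap with hV'
  have hin : ∀ a b : EuclideanSpace ℂ S, inner ℂ a b = ip (e a) (e b) := by
    intro a b
    rw [EuclideanSpace.inner_eq_star_dotProduct, ip_eq, dotProduct_comm]
    rfl
  refine ⟨e (V'.starProjection (e.symm x)), ?_, ?_⟩
  · exact V'.starProjection_apply_mem (e.symm x)
  · intro F hF
    have h1 : e.symm F ∈ V' := by
      rw [hV', Submodule.mem_comap]
      simpa using hF
    have h2 : inner ℂ (e.symm F) (e.symm x - V'.starProjection (e.symm x)) = (0 : ℂ) := by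
      have h3 := V'.sub_starProjection_mem_orthogonal (e.symm x)
      exact (Submodule.mem_orthogonal _ _).1 h3 _ h1
    rw [hin, map_sub, LinearEquiv.apply_symm_apply, LinearEquiv.apply_symm_apply] at h2
    exact h2

lemma exp_neg_mulM (X : Matrix B B ℂ) : exp (-X) * exp X = 1 := by
  open scoped Matrix.Norms.Operator in
  exact exp_neg_mul X

namespace TSys

variable {𝒜 : TSys B}

/-- **Tannaka-Krein duality.** -/
theorem mem_C_iff {n : ℕ} {x : (Fin n → B) → ℂ} :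
    x ∈ 𝒜.C n ↔ ∀ u ∈ 𝒜.grp, rho n u *ᵥ x = x := by
  constructor
  · intro hx u hu
    exact hu n x hx
  · intro h
    obtain ⟨y, hy, hperp⟩ := exists_proj (𝒜.C n) x
    have h1 : x - y = 0 := by
      refine mem_of_fix (𝒜 := 𝒜) (Measure.haarMeasure ⊤) hperp fun u hu => ?_
      rw [Matrix.mulVec_sub, h u hu, hu n y hy]
    rw [sub_eq_zero.1 h1]
    exact hy

variable (𝒜)

/-- The Lie algebra of the group. -/
def lie : Submodule ℝ (Matrix B B ℂ) where
  carrier := {X | Xᴴ = -X ∧ ∀ n, ∀ F ∈ 𝒜.C n, dM n X *ᵥ F = 0}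
  add_mem' := by
    rintro X Y ⟨h1, h2⟩ ⟨h3, h4⟩
    refine ⟨by rw [Matrix.conjTranspose_add, h1, h3, neg_add], fun n F hF => ?_⟩
    rw [dM_add, Matrix.add_mulVec, h2 n F hF, h4 n F hF, add_zero]
  zero_mem' := ⟨by simp, fun n F _ => by rw [dM_zero, Matrix.zero_mulVec]⟩
  smul_mem' := by
    rintro c X ⟨h1, h2⟩
    refine ⟨by rw [Matrix.conjTranspose_smul, h1, smul_neg, star_trivial], fun n F hF => ?_⟩
    have : c • X = (c : ℂ) • X := by
      ext i j; simp
    rw [this, dM_smul, Matrix.smul_mulVec, h2 n F hF, smul_zero]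

/-- The tensors killed by the Lie algebra. -/
def L (n : ℕ) : Submodule ℂ ((Fin n → B) → ℂ) where
  carrier := {F | ∀ X ∈ 𝒜.lie, dM n X *ᵥ F = 0}
  add_mem' := by
    intro F G hF hG X hX
    rw [Matrix.mulVec_add, hF X hX, hG X hX, add_zero]
  zero_mem' := fun X _ => Matrix.mulVec_zero _
  smul_mem' := by
    intro c F hF X hX
    rw [Matrix.mulVec_smul, hF X hX, smul_zero]

lemma mem_L {n : ℕ} {F : (Fin n → B) → ℂ} : F ∈ 𝒜.L n ↔ ∀ X ∈ 𝒜.lie, dM n X *ᵥ F = 0 := Iff.rfl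

lemma grp_closed : IsClosed (𝒜.grp : Set (unitary (Matrix B B ℂ))) := by
  have h : (𝒜.grp : Set (unitary (Matrix B B ℂ))) =
      ⋂ (n : ℕ), ⋂ (F : 𝒜.C n), ⋂ (I : Fin n → B),
        {u | (rho n u *ᵥ (F : (Fin n → B) → ℂ)) I = (F : (Fin n → B) → ℂ) I} := by
    ext u
    simp only [Set.mem_iInter, Set.mem_ofPred_eq]
    constructor
    · intro hu n F I
      exact congrFun (hu n F F.2) I
    · intro hu n F hF
      funext I
      exact hu n ⟨F, hF⟩ I
  rw [h]
  exact isClosed_iInter fun n => isClosed_iInter fun F => isClosed_iInter fun I =>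
    isClosed_eq (vec_cont _ I) continuous_const

/-- the group as a set of matrices -/
def HH : Set (Matrix B B ℂ) :=
  {u | u ∈ unitary (Matrix B B ℂ) ∧ ∀ n, ∀ F ∈ 𝒜.C n, pM n u *ᵥ F = F}

lemma HH_one : (1 : Matrix B B ℂ) ∈ 𝒜.HH :=
  ⟨one_mem _, fun n F _ => by rw [pM_one, Matrix.one_mulVec]⟩

lemma HH_mul : ∀ a ∈ 𝒜.HH, ∀ b ∈ 𝒜.HH, a * b ∈ 𝒜.HH := by
  rintro a ⟨ha1, ha2⟩ b ⟨hb1, hb2⟩
  refine ⟨mul_mem ha1 hb1, fun n F hF => ?_⟩
  rw [pM_mul, ← Matrix.mulVec_mulVec, hb2 n F hF, ha2 n F hF]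

lemma HH_neg : ∀ x : Matrix B B ℂ, exp x ∈ 𝒜.HH → exp (-x) ∈ 𝒜.HH := by
  rintro x ⟨h1, h2⟩
  have h3 : exp (-x) = star (exp x) := by
    have h4 := (Unitary.mem_iff.1 h1).2
    calc exp (-x) = exp (-x) * (exp x * star (exp x)) := by rw [h4, mul_one]
      _ = star (exp x) := by rw [← mul_assoc, exp_neg_mulM, one_mul]
  refine ⟨by rw [h3]; exact Unitary.star_mem h1, fun n F hF => ?_⟩
  conv_lhs => rw [← h2 n F hF]
  rw [Matrix.mulVec_mulVec, ← pM_mul, exp_neg_mulM, pM_one, Matrix.one_mulVec]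

lemma HH_closed : IsClosed 𝒜.HH := by
  have h : 𝒜.HH = (unitary (Matrix B B ℂ) : Set (Matrix B B ℂ)) ∩
      ⋂ (n : ℕ), ⋂ (F : 𝒜.C n), ⋂ (I : Fin n → B),
      {u | (pM n u *ᵥ (F : (Fin n → B) → ℂ)) I = (F : (Fin n → B) → ℂ) I} := by
    ext u
    simp only [HH, Set.mem_inter_iff, Set.mem_iInter, Set.mem_ofPred_eq, SetLike.mem_coe]
    refine and_congr Iff.rfl ?_
    constructor
    · intro hu n F I
      exact congrFun (hu n F F.2) I
    · intro hu n F hF
      funext I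
      exact hu n ⟨F, hF⟩ I
  rw [h]
  refine IsClosed.inter isClosed_unitary ?_
  refine isClosed_iInter fun n => isClosed_iInter fun F => isClosed_iInter fun I => ?_
  refine isClosed_eq ?_ continuous_const
  simp only [Matrix.mulVec, dotProduct]
  exact continuous_finsetSum _ fun J _ => ((continuous_apply J).comp
    ((continuous_apply I).comp (pM_cont n))).mul continuous_const

lemma HH_exp : ∀ x ∈ 𝒜.lie, exp x ∈ 𝒜.HH := by
  rintro x ⟨h1, h2⟩
  have h3 := exp_unitary h1 1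
  rw [one_smul] at h3
  refine ⟨h3, fun n F hF => ?_⟩
  have h4 := fix_exp_iff.2 (h2 n F hF) 1
  rwa [one_smul] at h4

lemma HH_tangent : ∀ x : Matrix B B ℂ, (∀ t : ℝ, exp (t • x) ∈ 𝒜.HH) → x ∈ 𝒜.lie := by
  intro x hx
  refine ⟨?_, fun n F hF => fix_exp_iff.1 fun t => (hx t).2 n F hF⟩
  ext i j
  have h1 : ∀ t : ℝ, exp (t • xᴴ) = exp (t • (-x)) := by
    intro t
    have h2 := (Unitary.mem_iff.1 (hx t).1).2
    have h3 : exp (t • xᴴ) = star (exp (t • x)) := by
      rw [Matrix.star_eq_conjTranspose, ← Matrix.exp_conjTranspose, Matrix.conjTranspose_smul,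
        star_trivial]
    rw [h3, smul_neg]
    calc star (exp (t • x)) = exp (-(t • x)) * exp (t • x) * star (exp (t • x)) := by
          rw [exp_neg_mulM, one_mul]
      _ = exp (-(t • x)) := by rw [mul_assoc, h2, mul_one]
  have h4 := hasDerivAt_entry xᴴ i j
  have h5 := hasDerivAt_entry (-x) i j
  have h6 : (fun t : ℝ => exp (t • xᴴ) i j) = fun t : ℝ => exp (t • (-x)) i j :=
    funext fun t => by rw [h1]
  have h7 : HasDerivAt (fun t : ℝ => exp (t • (-x)) i j) (xᴴ i j) 0 := by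
    rw [← h6]; exact h4
  exact h7.unique h5

/-- Near the identity the elements of the group are exponentials of elements of the Lie algebra. -/
lemma near_one : ∀ᶠ u in 𝓝 (1 : Matrix B B ℂ), u ∈ 𝒜.HH → ∃ X ∈ 𝒜.lie, exp X = u := by
  open scoped Matrix.Norms.Operator in
  exact closed_subgroup (H := 𝒜.HH) 𝒜.HH_one 𝒜.HH_mul 𝒜.HH_neg 𝒜.HH_closed 𝒜.lie 𝒜.HH_exp
    𝒜.HH_tangent

/-- The elements of the group which fix all tensors killed by the Lie algebra. -/
def conn : Subgroup 𝒜.grp where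
  carrier := {u | ∀ n, ∀ F ∈ 𝒜.L n, rho n (u : unitary (Matrix B B ℂ)) *ᵥ F = F}
  mul_mem' := by
    intro u v hu hv n F hF
    rw [Subgroup.coe_mul, map_mul, ← Matrix.mulVec_mulVec, hv n F hF, hu n F hF]
  one_mem' := by
    intro n F _
    rw [Subgroup.coe_one, map_one, Matrix.one_mulVec]
  inv_mem' := by
    intro u hu n F hF
    conv_lhs => rw [← hu n F hF]
    rw [Matrix.mulVec_mulVec, ← map_mul, ← Subgroup.coe_mul, inv_mul_cancel, Subgroup.coe_one,
      map_one, Matrix.one_mulVec]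

lemma conn_open : IsOpen (𝒜.conn : Set 𝒜.grp) := by
  refine Subgroup.isOpen_of_mem_nhds (g := 1) _ ?_
  have h1 := 𝒜.near_one
  have h2 : Filter.Tendsto (fun u : 𝒜.grp => ((u : unitary (Matrix B B ℂ)) : Matrix B B ℂ))
      (𝓝 1) (𝓝 1) := by
    have h3 : Continuous fun u : 𝒜.grp => ((u : unitary (Matrix B B ℂ)) : Matrix B B ℂ) :=
      continuous_subtype_val.comp continuous_subtype_val
    exact h3.tendsto' 1 1 rfl
  filter_upwards [h2.eventually h1] with u hu
  obtain ⟨X, hX, hXu⟩ := hu ⟨(u : unitary (Matrix B B ℂ)).2, fun n F hF => u.2 n F hF⟩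
  intro n F hF
  rw [rho_apply, ← hXu]
  have h4 := fix_exp_iff.2 (hF X hX) 1
  rwa [one_smul] at h4

/-- the representation of the group on the tensors -/
def rg (n : ℕ) : 𝒜.grp →* Matrix (Fin n → B) (Fin n → B) ℂ := (rho n).comp 𝒜.grp.subtype

lemma rg_cont (n : ℕ) : Continuous (𝒜.rg n) := (rho_cont n).comp continuous_subtype_val

lemma compact_grp : CompactSpace 𝒜.grp :=
  isCompact_iff_compactSpace.1 𝒜.grp_closed.isCompact

lemma fix_top (n : ℕ) : fix ((⊤ : Subgroup 𝒜.grp) : Set 𝒜.grp) (𝒜.rg n) = 𝒜.C n := by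
  ext x
  rw [mem_C_iff]
  constructor
  · intro h u hu
    exact h ⟨u, hu⟩ (Subgroup.mem_top _)
  · intro h u _
    exact h u u.2

lemma L_le_fix (n : ℕ) : 𝒜.L n ≤ fix (𝒜.conn : Set 𝒜.grp) (𝒜.rg n) := by
  intro x hx u hu
  exact hu n x hx

/-- **Finite index**: the tensors of the system are a positive proportion of the tensors killed by
the Lie algebra. -/
theorem index_bound (hreal : ∀ u ∈ 𝒜.grp, star (u : Matrix B B ℂ).trace = (u : Matrix B B ℂ).trace) :
    ∃ c : ℝ, 0 < c ∧ ∀ m, c * finrank ℂ (𝒜.L (2 * m)) ≤ finrank ℂ (𝒜.C (2 * m)) := by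
  have := 𝒜.compact_grp
  set μ : Measure 𝒜.grp := Measure.haarMeasure ⊤ with hμ
  have hμ1 : μ Set.univ = 1 := by
    rw [hμ]
    exact Measure.haarMeasure_self (K₀ := (⊤ : TopologicalSpace.PositiveCompacts 𝒜.grp))
  have hfin : IsFiniteMeasure μ := ⟨by rw [hμ1]; exact ENNReal.one_lt_top⟩
  have hopen := 𝒜.conn_open
  have hpos : 0 < μ.real 𝒜.conn := by
    refine ENNReal.toReal_pos (hopen.measure_pos μ ⟨1, Subgroup.one_mem _⟩).ne' (measure_ne_top _ _)
  refine ⟨μ.real 𝒜.conn, hpos, fun m => ?_⟩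
  have htop := trace_avg μ (𝒜.rg_cont (2 * m)) ⊤ MeasurableSet.univ (by
    change 0 < μ.real Set.univ
    rw [Measure.real, hμ1]
    norm_num)
  have hconn := trace_avg μ (𝒜.rg_cont (2 * m)) 𝒜.conn hopen.measurableSet hpos
  -- the real function
  set f : 𝒜.grp → ℝ := fun u => ((u : unitary (Matrix B B ℂ)) : Matrix B B ℂ).trace.re ^ (2 * m)
    with hf
  have hf0 : ∀ u, 0 ≤ f u := by
    intro u
    rw [hf]
    simp only
    rw [pow_mul]
    positivity
  have hft : ∀ u : 𝒜.grp, (𝒜.rg (2 * m) u).trace = (f u : ℂ) := by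
    intro u
    have h1 : (𝒜.rg (2 * m) u).trace = ((u : unitary (Matrix B B ℂ)) : Matrix B B ℂ).trace ^ (2 * m) :=
      pM_trace _ _
    have h2 : ((u : unitary (Matrix B B ℂ)) : Matrix B B ℂ).trace =
        ((((u : unitary (Matrix B B ℂ)) : Matrix B B ℂ).trace.re : ℝ) : ℂ) :=
      (Complex.conj_eq_iff_real.1 (hreal u u.2)).elim fun r hr => by rw [hr, Complex.ofReal_re]
    rw [h1, hf, h2]
    push_cast
    rfl
  have hfc : Continuous f := by
    have h3 : Continuous fun u : 𝒜.grp => ((u : unitary (Matrix B B ℂ)) : Matrix B B ℂ) :=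
      continuous_subtype_val.comp continuous_subtype_val
    exact (Complex.continuous_re.comp (h3.matrix_trace)).pow _
  have hfint : Integrable f μ :=
    hfc.integrable_of_hasCompactSupport (HasCompactSupport.of_compactSpace f)
  have e1 : ∫ u, f u ∂μ = finrank ℂ (𝒜.C (2 * m)) := by
    have h1 : ∫ u in ((⊤ : Subgroup 𝒜.grp) : Set 𝒜.grp), (𝒜.rg (2 * m) u).trace ∂μ =
        ((∫ u, f u ∂μ : ℝ) : ℂ) := by
      rw [Subgroup.coe_top, Measure.restrict_univ]
      simp only [hft]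
      exact integral_ofReal
    rw [h1, fix_top] at htop
    have h2 : μ.real ((⊤ : Subgroup 𝒜.grp) : Set 𝒜.grp) = 1 := by
      rw [Subgroup.coe_top, Measure.real, hμ1]
      norm_num
    rw [h2, Complex.ofReal_one, one_mul] at htop
    exact_mod_cast htop
  have e2 : ∫ u in (𝒜.conn : Set 𝒜.grp), f u ∂μ = μ.real 𝒜.conn *
      finrank ℂ (fix (𝒜.conn : Set 𝒜.grp) (𝒜.rg (2 * m))) := by
    have h1 : ∫ u in (𝒜.conn : Set 𝒜.grp), (𝒜.rg (2 * m) u).trace ∂μ =
        ((∫ u in (𝒜.conn : Set 𝒜.grp), f u ∂μ : ℝ) : ℂ) := by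
      simp only [hft]
      exact integral_ofReal
    rw [h1] at hconn
    exact_mod_cast hconn
  have h3 : ∫ u in (𝒜.conn : Set 𝒜.grp), f u ∂μ ≤ ∫ u, f u ∂μ :=
    setIntegral_le_integral hfint (Filter.Eventually.of_forall hf0)
  rw [e1, e2] at h3
  refine le_trans ?_ h3
  refine mul_le_mul_of_nonneg_left ?_ hpos.le
  exact_mod_cast Submodule.finrank_mono (𝒜.L_le_fix (2 * m))

end TSys

end Pool.Agent.Q67.TK
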