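import Pool.Agent.Q67.TK.Casimir

/-!
# Rational systems of tensors
-/

set_option autoImplicit false
set_option linter.unusedSectionVars false

open Matrix Finset Module

namespace Pool.Agent.Q67.TK

variable {B : Type} [Fintype B] [DecidableEq B] {K : Type*} [Field K]

/-- The contraction of the first positions of two tensors with a bilinear form. -/
def qct (q : Matrix B B K) {m n : ℕ} (F : (Fin m → B) → K) (G : (Fin (m + n) → B) → K) :
    (Fin n → B) → K :=
  fun J => ∑ I : Fin m → B, (F ᵥ* pM m q) I * G (Fin.append I J)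

/-- Systems of tensors with coefficients in a field, closed under permutations, tensor products and
contractions with a bilinear form. -/
structure RSys (B : Type) [Fintype B] [DecidableEq B] (K : Type*) [Field K]
    (q : Matrix B B K) where
  C : ∀ n, Submodule K ((Fin n → B) → K)
  one : (fun _ => 1) ∈ C 0
  perm : ∀ {n : ℕ} (σ : Equiv.Perm (Fin n)) {F : (Fin n → B) → K}, F ∈ C n →
    (fun I => F (I ∘ σ)) ∈ C n
  tens : ∀ {m n : ℕ} {F : (Fin m → B) → K} {G : (Fin n → B) → K}, F ∈ C m → G ∈ C n →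
    tp F G ∈ C (m + n)
  contr : ∀ {m n : ℕ} {F : (Fin m → B) → K} {G : (Fin (m + n) → B) → K}, F ∈ C m →
    G ∈ C (m + n) → qct q F G ∈ C n

variable [Algebra K ℂ]

/-! ### The complex span -/

lemma linInd_up {ι S : Type*} {v : ι → S → K} (hv : LinearIndependent K v) :
    LinearIndependent ℂ fun i => up (v i) := by
  rw [linearIndependent_iff'] at hv ⊢
  intro s c hc i hi
  by_contra hne
  obtain ⟨l, hl⟩ := exists_functional (K := K) hne
  apply hl
  refine hv s (fun i => l (c i)) ?_ i hi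
  funext I
  have h1 := congrArg l (congrFun hc I)
  rw [Finset.sum_apply, map_sum] at h1
  rw [Finset.sum_apply, Pi.zero_apply]
  rw [Pi.zero_apply, map_zero] at h1
  rw [← h1]
  refine Finset.sum_congr rfl fun j _ => ?_
  rw [Pi.smul_apply, Pi.smul_apply, smul_eq_mul, smul_eq_mul]
  exact (l_mul l _ _).symm

/-- the complex span of a space of functions -/
def upS {S : Type*} (V : Submodule K (S → K)) : Submodule ℂ (S → ℂ) :=
  Submodule.span ℂ (up '' (V : Set (S → K)))

lemma up_mem {S : Type*} {V : Submodule K (S → K)} {F : S → K} (h : F ∈ V) : up F ∈ upS V :=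
  Submodule.subset_span ⟨F, h, rfl⟩

lemma up_add {S : Type*} (F G : S → K) : up (F + G) = up F + up G := funext fun _ => map_add _ _ _

lemma up_smul {S : Type*} (c : K) (F : S → K) : up (c • F) = (algebraMap K ℂ c) • up F :=
  funext fun _ => map_mul _ _ _

lemma up_sum {S ι : Type*} (s : Finset ι) (F : ι → S → K) :
    up (∑ i ∈ s, F i) = ∑ i ∈ s, up (F i) := by
  classical
  induction s using Finset.induction_on with
  | empty => simp [up_zero]
  | insert a s ha ih => rw [Finset.sum_insert ha, Finset.sum_insert ha, up_add, ih]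

lemma finrank_upS {S : Type*} [Fintype S] (V : Submodule K (S → K)) :
    finrank ℂ (upS V) = finrank K V := by
  classical
  set b := Module.finBasis K V with hb
  have h1 : LinearIndependent K fun i => ((b i : V) : S → K) :=
    b.linearIndependent.map' V.subtype (by simp)
  have h2 : upS V = Submodule.span ℂ (Set.range fun i => up ((b i : V) : S → K)) := by
    apply le_antisymm
    · refine Submodule.span_le.2 ?_
      rintro _ ⟨F, hF, rfl⟩
      have h3 : F = ∑ i, b.repr ⟨F, hF⟩ i • ((b i : V) : S → K) := by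
        have h4 := congrArg Subtype.val (b.sum_repr ⟨F, hF⟩)
        rw [AddSubmonoidClass.coe_finsetSum] at h4
        exact h4.symm
      rw [h3, up_sum]
      refine Submodule.sum_mem _ fun i _ => ?_
      rw [up_smul]
      exact Submodule.smul_mem _ _ (Submodule.subset_span ⟨i, rfl⟩)
    · refine Submodule.span_le.2 ?_
      rintro _ ⟨i, rfl⟩
      exact up_mem (b i).2
  rw [h2, finrank_span_eq_card (linInd_up h1), Fintype.card_fin]

/-! ### The transported system -/

lemma pM_mulVec_injective {g g' : Matrix B B ℂ} (h : g' * g = 1) (n : ℕ) :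
    Function.Injective fun F : (Fin n → B) → ℂ => pM n g *ᵥ F := by
  intro F G hFG
  have := congrArg (fun x => pM n g' *ᵥ x) hFG
  simpa [Matrix.mulVec_mulVec, ← pM_mul, h, pM_one] using this

/-- the image of a space under the tensor power of a matrix -/
def gS (g : Matrix B B ℂ) {n : ℕ} (V : Submodule ℂ ((Fin n → B) → ℂ)) :
    Submodule ℂ ((Fin n → B) → ℂ) := V.map (Matrix.mulVecLin (pM n g))

lemma finrank_gS {g g' : Matrix B B ℂ} (h : g' * g = 1) {n : ℕ}
    (V : Submodule ℂ ((Fin n → B) → ℂ)) : finrank ℂ (gS g V) = finrank ℂ V :=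
  LinearEquiv.finrank_eq (Submodule.equivMapOfInjective (Matrix.mulVecLin (pM n g))
    (pM_mulVec_injective h n) V).symm

lemma ct_add_left {m n : ℕ} (F F' : (Fin m → B) → ℂ) (G : (Fin (m + n) → B) → ℂ) :
    ct (F + F') G = ct F G + ct F' G := by
  funext J
  simp only [ct, Pi.add_apply, star_add, add_mul, Finset.sum_add_distrib]

lemma ct_smul_left {m n : ℕ} (c : ℂ) (F : (Fin m → B) → ℂ) (G : (Fin (m + n) → B) → ℂ) :
    ct (c • F) G = star c • ct F G := by
  funext J
  simp only [ct, Pi.smul_apply, smul_eq_mul, star_mul', Finset.mul_sum, mul_assoc]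

lemma ct_add_right {m n : ℕ} (F : (Fin m → B) → ℂ) (G G' : (Fin (m + n) → B) → ℂ) :
    ct F (G + G') = ct F G + ct F G' := by
  funext J
  simp only [ct, Pi.add_apply, mul_add, Finset.sum_add_distrib]

lemma ct_smul_right {m n : ℕ} (c : ℂ) (F : (Fin m → B) → ℂ) (G : (Fin (m + n) → B) → ℂ) :
    ct F (c • G) = c • ct F G := by
  funext J
  simp only [ct, Pi.smul_apply, smul_eq_mul, Finset.mul_sum]
  exact Finset.sum_congr rfl fun I _ => by ring

lemma ct_zero_left {m n : ℕ} (G : (Fin (m + n) → B) → ℂ) : ct (0 : (Fin m → B) → ℂ) G = 0 := by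
  funext J
  simp [ct]

lemma ct_zero_right {m n : ℕ} (F : (Fin m → B) → ℂ) :
    ct F (0 : (Fin (m + n) → B) → ℂ) = 0 := by
  funext J
  simp [ct]

/-- the contraction of the first positions of a tensor with a vector -/
def vct {m n : ℕ} (a : (Fin m → B) → ℂ) (G : (Fin (m + n) → B) → ℂ) : (Fin n → B) → ℂ :=
  fun J => ∑ I, a I * G (Fin.append I J)

lemma pM_append (m n : ℕ) (g : Matrix B B ℂ) (I I' : Fin m → B) (J J' : Fin n → B) :
    pM (m + n) g (Fin.append I J) (Fin.append I' J') = pM m g I I' * pM n g J J' := by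
  simp only [pM_apply, Fin.prod_univ_add, Fin.append_left, Fin.append_right]

lemma vct_pM {m n : ℕ} (a : (Fin m → B) → ℂ) (G : (Fin (m + n) → B) → ℂ) (g : Matrix B B ℂ) :
    vct a (pM (m + n) g *ᵥ G) = pM n g *ᵥ vct (a ᵥ* pM m g) G := by
  funext J
  simp only [vct, Matrix.mulVec, dotProduct, Matrix.vecMul]
  simp only [sum_append, pM_append, Finset.mul_sum, Finset.sum_mul]
  have h1 : ∀ I : Fin m → B, ∑ I' : Fin m → B, ∑ J' : Fin n → B,
      a I * (pM m g I I' * pM n g J J' * G (Fin.append I' J')) =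
      ∑ J' : Fin n → B, ∑ I' : Fin m → B,
        a I * (pM m g I I' * pM n g J J' * G (Fin.append I' J')) := fun I => Finset.sum_comm
  simp only [h1]
  rw [Finset.sum_comm]
  refine Finset.sum_congr rfl fun J' _ => ?_
  rw [Finset.sum_comm]
  refine Finset.sum_congr rfl fun I' _ => Finset.sum_congr rfl fun I _ => ?_
  ring

lemma ct_eq_vct {m n : ℕ} (F : (Fin m → B) → ℂ) (G : (Fin (m + n) → B) → ℂ) :
    ct F G = vct (star F) G := rfl

lemma star_up {S : Type*} (hK : ∀ r : K, star (algebraMap K ℂ r) = algebraMap K ℂ r)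
    (F : S → K) : star (up F) = up F := funext fun I => hK (F I)

section

variable {C g : Matrix B B ℂ} {q : Matrix B B K}

lemma ct_gS (hK : ∀ r : K, star (algebraMap K ℂ r) = algebraMap K ℂ r)
    (hg : Cᵀ * upM q = gᴴ * g) {m n : ℕ} {F : (Fin m → B) → K} {G : (Fin (m + n) → B) → K}
    (hF : pM m C *ᵥ up F = up F) :
    ct (pM m g *ᵥ up F) (pM (m + n) g *ᵥ up G) = pM n g *ᵥ up (qct q F G) := by
  have h1 : star (pM m g *ᵥ up F) ᵥ* pM m g = up (F ᵥ* pM m q) := by
    rw [Matrix.star_mulVec, star_up hK, Matrix.vecMul_vecMul, pM_conjTranspose, ← pM_mul, ← hg,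
      pM_mul, ← Matrix.vecMul_vecMul, ← pM_transpose, Matrix.vecMul_transpose, hF]
    funext I
    simp only [up, Matrix.vecMul, dotProduct, map_sum, map_mul, ← upM_pM, upM_apply]
  rw [ct_eq_vct, vct_pM, h1]
  congr 1
  funext J
  simp only [vct, qct, up, map_sum, map_mul]

/-- The complex system attached to a rational system. -/
def toT (𝒜 : RSys B K q) (hK : ∀ r : K, star (algebraMap K ℂ r) = algebraMap K ℂ r)
    (hg : Cᵀ * upM q = gᴴ * g) (hfix : ∀ n, ∀ F ∈ 𝒜.C n, pM n C *ᵥ up F = up F) : TSys B where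
  C n := gS g (upS (𝒜.C n))
  one := by
    refine ⟨up (fun _ => 1), up_mem 𝒜.one, ?_⟩
    funext I
    simp only [Matrix.mulVecLin_apply, Matrix.mulVec, dotProduct, pM_apply, up, map_one]
    simp
  perm := by
    rintro n σ _ ⟨F, hF, rfl⟩
    refine ⟨fun I => F (I ∘ σ), ?_, ?_⟩
    · refine Submodule.span_induction (p := fun F _ => (fun I => F (I ∘ σ)) ∈ upS (𝒜.C n))
        ?_ ?_ ?_ ?_ hF
      · rintro _ ⟨F, hF, rfl⟩
        exact up_mem (𝒜.perm σ hF)
      · exact Submodule.zero_mem _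
      · intro x y _ _ hx hy
        exact Submodule.add_mem _ hx hy
      · intro a x _ hx
        exact Submodule.smul_mem _ a hx
    · rw [Matrix.mulVecLin_apply, Matrix.mulVecLin_apply, pM_perm]
  tens := by
    rintro m n _ _ ⟨F, hF, rfl⟩ ⟨G, hG, rfl⟩
    rw [Matrix.mulVecLin_apply, Matrix.mulVecLin_apply, ← pM_tp]
    refine ⟨tp F G, ?_, rfl⟩
    refine Submodule.span_induction (p := fun F _ => tp F G ∈ upS (𝒜.C (m + n))) ?_ ?_ ?_ ?_ hF
    · rintro _ ⟨F, hF, rfl⟩
      refine Submodule.span_induction (p := fun G _ => tp (up F) G ∈ upS (𝒜.C (m + n)))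
        ?_ ?_ ?_ ?_ hG
      · rintro _ ⟨G, hG, rfl⟩
        have : tp (up F) (up G) = up (tp F G) := by
          funext I
          simp only [tp, up, map_mul]
        rw [this]
        exact up_mem (𝒜.tens hF hG)
      · have : tp (up F) (0 : (Fin n → B) → ℂ) = 0 := by
          funext I; simp [tp]
        rw [this]; exact Submodule.zero_mem _
      · intro x y _ _ hx hy
        have : tp (up F) (x + y) = tp (up F) x + tp (up F) y := by
          funext I; simp only [tp, Pi.add_apply, mul_add]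
        rw [this]; exact Submodule.add_mem _ hx hy
      · intro a x _ hx
        have : tp (up F) (a • x) = a • tp (up F) x := by
          funext I; simp only [tp, Pi.smul_apply, smul_eq_mul]; ring
        rw [this]; exact Submodule.smul_mem _ a hx
    · have : tp (0 : (Fin m → B) → ℂ) G = 0 := by
        funext I; simp [tp]
      rw [this]; exact Submodule.zero_mem _
    · intro x y _ _ hx hy
      have : tp (x + y) G = tp x G + tp y G := by
        funext I; simp only [tp, Pi.add_apply, add_mul]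
      rw [this]; exact Submodule.add_mem _ hx hy
    · intro a x _ hx
      have : tp (a • x) G = a • tp x G := by
        funext I; simp only [tp, Pi.smul_apply, smul_eq_mul]; ring
      rw [this]; exact Submodule.smul_mem _ a hx
  contr := by
    rintro m n _ _ ⟨F, hF, rfl⟩ ⟨G, hG, rfl⟩
    rw [Matrix.mulVecLin_apply, Matrix.mulVecLin_apply]
    refine Submodule.span_induction (p := fun F _ => ct (pM m g *ᵥ F) (pM (m + n) g *ᵥ G) ∈
      gS g (upS (𝒜.C n))) ?_ ?_ ?_ ?_ hF
    · rintro _ ⟨F, hF, rfl⟩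
      refine Submodule.span_induction (p := fun G _ => ct (pM m g *ᵥ up F) (pM (m + n) g *ᵥ G) ∈
        gS g (upS (𝒜.C n))) ?_ ?_ ?_ ?_ hG
      · rintro _ ⟨G, hG, rfl⟩
        rw [ct_gS hK hg (hfix m F hF)]
        exact ⟨_, up_mem (𝒜.contr hF hG), rfl⟩
      · rw [Matrix.mulVec_zero, ct_zero_right]; exact Submodule.zero_mem _
      · intro x y _ _ hx hy
        rw [Matrix.mulVec_add, ct_add_right]; exact Submodule.add_mem _ hx hy
      · intro a x _ hx
        rw [Matrix.mulVec_smul, ct_smul_right]; exact Submodule.smul_mem _ _ hx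
    · rw [Matrix.mulVec_zero, ct_zero_left]; exact Submodule.zero_mem _
    · intro x y _ _ hx hy
      rw [Matrix.mulVec_add, ct_add_left]; exact Submodule.add_mem _ hx hy
    · intro a x _ hx
      rw [Matrix.mulVec_smul, ct_smul_left]; exact Submodule.smul_mem _ _ hx

end

open scoped ComplexOrder in
/-- **The infinitesimal criterion for finite index.** -/
theorem RSys.bound {C : Matrix B B ℂ} {q κ : Matrix B B K}
    (hK : ∀ r : K, star (algebraMap K ℂ r) = algebraMap K ℂ r)
    (hqκ : q * κ = 1) (hpos : (Cᵀ * upM q).PosDef)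
    (𝒜 : RSys B K q) (hfix : ∀ n, ∀ F ∈ 𝒜.C n, pM n C *ᵥ up F = up F)
    (hκ : t2 κ ∈ 𝒜.C 2) (𝓗 : ∀ n, Submodule K ((Fin n → B) → K)) (hann : Ann 𝒜.C ≤ Ann 𝓗) :
    ∃ c : ℝ, 0 < c ∧ ∀ m, c * finrank K (𝓗 (2 * m)) ≤ finrank K (𝒜.C (2 * m)) := by
  obtain ⟨g, hg⟩ := exists_sqrt hpos
  have hMu : IsUnit (Cᵀ * upM q).det := (Matrix.isUnit_iff_isUnit_det _).1 hpos.isUnit
  have hgu : IsUnit g.det := by
    have h : (Cᵀ * upM q).det = star g.det * g.det := by
      rw [hg, Matrix.det_mul, Matrix.det_conjTranspose]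
    rw [h] at hMu
    exact isUnit_of_mul_isUnit_right hMu
  have hgg : g * g⁻¹ = 1 := Matrix.mul_nonsing_inv _ hgu
  have hgg' : g⁻¹ * g = 1 := Matrix.nonsing_inv_mul _ hgu
  set 𝒯 := toT 𝒜 hK hg hfix with h𝒯
  have hCT : ∀ n, 𝒯.C n = gS g (upS (𝒜.C n)) := fun n => rfl
  have hmem : ∀ n, ∀ F ∈ 𝒜.C n, pM n g *ᵥ up F ∈ 𝒯.C n := fun n F hF => ⟨_, up_mem hF, rfl⟩
  have hreal : ∀ u ∈ 𝒯.grp, star (u : Matrix B B ℂ).trace = (u : Matrix B B ℂ).trace := by
    intro u hu
    have h1 := hu 2 _ (hmem 2 _ hκ)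
    have hup2 : up (t2 κ) = t2 (upM κ) := rfl
    rw [hup2, pM_t2, rho_apply, pM_t2] at h1
    have h2 := t2_injective h1
    set κ' : Matrix B B ℂ := g * upM κ * gᵀ with hκ'
    have hqκ' : upM q * upM κ = 1 := by
      rw [← upM_mul, hqκ]
      ext i j
      rw [upM_apply, Matrix.one_apply, Matrix.one_apply]
      split_ifs <;> simp
    have hκq' : upM κ * upM q = 1 := mul_eq_one_comm.1 hqκ'
    set κi : Matrix B B ℂ := (g⁻¹)ᵀ * upM q * g⁻¹ with hκi
    have h3 : κi * κ' = 1 := by
      rw [hκi, hκ']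
      have e1 : g⁻¹ * (g * upM κ * gᵀ) = upM κ * gᵀ := by
        rw [← Matrix.mul_assoc, ← Matrix.mul_assoc, hgg', Matrix.one_mul]
      rw [Matrix.mul_assoc, e1, Matrix.mul_assoc, ← Matrix.mul_assoc (upM q), hqκ',
        Matrix.one_mul, ← Matrix.transpose_mul, hgg, Matrix.transpose_one]
    have hu' : (u : Matrix B B ℂ)ᴴ * (u : Matrix B B ℂ) = 1 := by
      have := (Unitary.mem_iff.1 u.2).1
      rwa [Matrix.star_eq_conjTranspose] at this
    have h4 : κ' * (u : Matrix B B ℂ)ᵀ = (u : Matrix B B ℂ)ᴴ * κ' := by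
      have := congrArg ((u : Matrix B B ℂ)ᴴ * ·) h2
      simp only [← Matrix.mul_assoc, hu', Matrix.one_mul] at this
      exact this
    have h5 : (u : Matrix B B ℂ)ᵀ = κi * ((u : Matrix B B ℂ)ᴴ * κ') := by
      rw [← h4, ← Matrix.mul_assoc, h3, Matrix.one_mul]
    have h6 : (u : Matrix B B ℂ).trace = ((u : Matrix B B ℂ)ᴴ).trace := by
      rw [← Matrix.trace_transpose, h5, Matrix.trace_mul_comm, Matrix.mul_assoc,
        mul_eq_one_comm.1 h3, Matrix.mul_one]
    rw [Matrix.trace_conjTranspose] at h6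
    exact h6.symm
  obtain ⟨c, hc, hb⟩ := 𝒯.index_bound hreal
  refine ⟨c, hc, fun m => ?_⟩
  have h1 : finrank ℂ (𝒯.C (2 * m)) = finrank K (𝒜.C (2 * m)) := by
    rw [hCT, finrank_gS hgg', finrank_upS]
  have h2 : finrank K (𝓗 (2 * m)) ≤ finrank ℂ (𝒯.L (2 * m)) := by
    rw [← finrank_upS, ← finrank_gS hgg']
    refine Submodule.finrank_mono ?_
    rintro _ ⟨F, hF, rfl⟩
    rw [Matrix.mulVecLin_apply]
    refine Submodule.span_induction (p := fun F _ => pM (2 * m) g *ᵥ F ∈ 𝒯.L (2 * m))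
      ?_ ?_ ?_ ?_ hF
    · rintro _ ⟨F, hF, rfl⟩
      intro X hX
      set X' : Matrix B B ℂ := g⁻¹ * X * g with hX'
      have hXX : g * X' = X * g := by
        rw [hX', ← Matrix.mul_assoc, ← Matrix.mul_assoc, hgg, Matrix.one_mul]
      have hkill : ∀ n, ∀ G ∈ 𝒜.C n, dM n X' *ᵥ up G = 0 := by
        intro n G hG
        have h3 := hX.2 n _ (hmem n G hG)
        rw [Matrix.mulVec_mulVec, ← dM_conj hXX, ← Matrix.mulVec_mulVec] at h3
        have h4 : pM n g *ᵥ (dM n X' *ᵥ up G) = pM n g *ᵥ 0 := by rw [h3, Matrix.mulVec_zero]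
        exact pM_mulVec_injective hgg' n h4
      rw [Matrix.mulVec_mulVec, ← dM_conj hXX, ← Matrix.mulVec_mulVec,
        kill_of_Ann (fun l => hann (dnM_mem_Ann hkill l)) hF, Matrix.mulVec_zero]
    · rw [Matrix.mulVec_zero]; exact Submodule.zero_mem _
    · intro x y _ _ hx hy
      rw [Matrix.mulVec_add]; exact Submodule.add_mem _ hx hy
    · intro a x _ hx
      rw [Matrix.mulVec_smul]; exact Submodule.smul_mem _ _ hx
  calc c * (finrank K (𝓗 (2 * m)) : ℝ) ≤ c * finrank ℂ (𝒯.L (2 * m)) := by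
        refine mul_le_mul_of_nonneg_left ?_ hc.le
        exact_mod_cast h2
    _ ≤ finrank ℂ (𝒯.C (2 * m)) := hb m
    _ = finrank K (𝒜.C (2 * m)) := by rw [h1]

end Pool.Agent.Q67.TK
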