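import Pool.Agent.Q67.TK.Slot

/-!
# Exponentials of derivations as formal power series
-/

set_option autoImplicit false
set_option linter.unusedSectionVars false

open Matrix Finset Module PowerSeries

namespace Pool.Agent.Q67.TK

section ps

variable {K : Type*} [Field K]

/-- A formal power series whose powers span a finite-dimensional space is constant. -/
lemma const_of_pow {Φ : Submodule K K⟦X⟧} [Module.Finite K Φ] {g : K⟦X⟧} (h : ∀ k, g ^ k ∈ Φ) :
    g = C (constantCoeff g) := by
  have hmem : ∀ p : Polynomial K, Polynomial.aeval g p ∈ Φ := by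
    intro p
    induction p using Polynomial.induction_on' with
    | add p q hp hq => rw [map_add]; exact Submodule.add_mem _ hp hq
    | monomial n a =>
      rw [Polynomial.aeval_monomial, ← Algebra.smul_def]
      exact Submodule.smul_mem _ _ (h n)
  obtain ⟨p, hp0, hp⟩ : ∃ p : Polynomial K, p ≠ 0 ∧ Polynomial.aeval g p = 0 := by
    by_contra hcon
    push Not at hcon
    set f : Polynomial K →ₗ[K] Φ := (Polynomial.aeval g).toLinearMap.codRestrict Φ hmem with hf
    have hinj : Function.Injective f := by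
      rw [← LinearMap.ker_eq_bot, LinearMap.ker_eq_bot']
      intro p hp
      by_contra hp0
      exact hcon p hp0 (congrArg Subtype.val hp)
    have hfin : Module.Finite K (Polynomial K) := Module.Finite.of_injective f hinj
    exact Polynomial.not_finite hfin
  by_contra hne
  obtain ⟨q, hq, hdvd⟩ := Polynomial.exists_eq_pow_rootMultiplicity_mul_and_not_dvd p hp0
    (constantCoeff g)
  rw [hq, map_mul, map_pow, map_sub, Polynomial.aeval_X, Polynomial.aeval_C] at hp
  have h1 : (g - algebraMap K K⟦X⟧ (constantCoeff g)) ≠ 0 := by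
    rw [sub_ne_zero]
    exact hne
  have h2 : Polynomial.aeval g q = 0 := (mul_eq_zero.1 hp).resolve_left (pow_ne_zero _ h1)
  apply hdvd
  rw [Polynomial.dvd_iff_isRoot, Polynomial.IsRoot.def]
  have h3 := congrArg constantCoeff h2
  rw [map_zero, Polynomial.aeval_def, Polynomial.hom_eval₂] at h3
  have h4 : (constantCoeff (R := K)).comp (algebraMap K K⟦X⟧) = RingHom.id K := by
    ext a
    simp
  rw [h4] at h3
  exact h3

end ps

variable {B : Type*} [Fintype B] [DecidableEq B] {K : Type*} [Field K] [CharZero K]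

/-- the coordinates of `exp (s X) F` as formal power series -/
noncomputable def gs (n : ℕ) (X : Matrix B B K) (F : (Fin n → B) → K) (I : Fin n → B) : K⟦X⟧ :=
  PowerSeries.mk fun j => ((j.factorial : K))⁻¹ * ((dM n X ^ j) *ᵥ F) I

lemma gs_coeff_zero (n : ℕ) (X : Matrix B B K) (F : (Fin n → B) → K) (I : Fin n → B) :
    coeff 0 (gs n X F I) = F I := by
  rw [gs, coeff_mk]
  simp

lemma gs_deriv (n : ℕ) (X : Matrix B B K) (F : (Fin n → B) → K) (I : Fin n → B) :
    derivative K (gs n X F I) = gs n X (dM n X *ᵥ F) I := by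
  ext j
  rw [coeff_derivative, gs, gs, coeff_mk, coeff_mk, pow_succ, ← Matrix.mulVec_mulVec,
    Nat.factorial_succ]
  have h1 : ((j.factorial : K)) ≠ 0 := by exact_mod_cast j.factorial_ne_zero
  have h2 : ((j : K) + 1) ≠ 0 := by exact_mod_cast j.succ_ne_zero
  push_cast
  field_simp

lemma gs_add (n : ℕ) (X : Matrix B B K) (F G : (Fin n → B) → K) (I : Fin n → B) :
    gs n X (F + G) I = gs n X F I + gs n X G I := by
  ext j
  rw [map_add, gs, gs, gs, coeff_mk, coeff_mk, coeff_mk, Matrix.mulVec_add, Pi.add_apply, mul_add]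

lemma gs_smul (n : ℕ) (X : Matrix B B K) (c : K) (F : (Fin n → B) → K) (I : Fin n → B) :
    gs n X (c • F) I = c • gs n X F I := by
  ext j
  rw [map_smul, gs, gs, coeff_mk, coeff_mk, Matrix.mulVec_smul, Pi.smul_apply, smul_eq_mul,
    smul_eq_mul]
  ring

lemma gs_zero (n : ℕ) (X : Matrix B B K) (I : Fin n → B) : gs n X 0 I = 0 := by
  ext j
  rw [map_zero, gs, coeff_mk, Matrix.mulVec_zero, Pi.zero_apply, mul_zero]

lemma gs_tp {m n : ℕ} (X : Matrix B B K) (F : (Fin m → B) → K) (G : (Fin n → B) → K)
    (I : Fin m → B) (J : Fin n → B) :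
    gs (m + n) X (tp F G) (Fin.append I J) = gs m X F I * gs n X G J := by
  ext j
  induction j generalizing F G with
  | zero =>
    have h0 : ∀ f g : K⟦X⟧, coeff 0 (f * g) = coeff 0 f * coeff 0 g := by
      intro f g
      simp
    rw [h0, gs_coeff_zero, gs_coeff_zero, gs_coeff_zero, tp_append]
  | succ j ih =>
    have h2 : ((j : K) + 1) ≠ 0 := by exact_mod_cast j.succ_ne_zero
    have h3 : coeff (j + 1) (gs (m + n) X (tp F G) (Fin.append I J)) * (j + 1) =
        coeff (j + 1) (gs m X F I * gs n X G J) * (j + 1) := by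
      rw [← coeff_derivative, ← coeff_derivative, gs_deriv, dM_tp, gs_add, map_add, ih, ih,
        ← map_add, Derivation.leibniz, gs_deriv, gs_deriv]
      congr 1
      simp only [smul_eq_mul]
      ring
    exact mul_right_cancel₀ h2 h3

/-- lengths of powers -/
def len (n : ℕ) : ℕ → ℕ
  | 0 => 0
  | k + 1 => len n k + n

/-- tensor powers of a tensor -/
def tpow {n : ℕ} (F : (Fin n → B) → K) : ∀ k : ℕ, (Fin (len n k) → B) → K
  | 0 => fun _ => 1
  | k + 1 => tp (tpow F k) F

/-- repeated indices -/
def ipow {n : ℕ} (I : Fin n → B) : ∀ k : ℕ, Fin (len n k) → B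
  | 0 => fun i => i.elim0
  | k + 1 => Fin.append (ipow I k) I

lemma gs_tpow {n : ℕ} (X : Matrix B B K) (F : (Fin n → B) → K) (I : Fin n → B) :
    ∀ k, gs (len n k) X (tpow F k) (ipow I k) = gs n X F I ^ k
  | 0 => by
    rw [pow_zero]
    ext j
    rw [gs, coeff_mk]
    cases j with
    | zero => simp [tpow]
    | succ j =>
      have h1 : (dM (len n 0) X) *ᵥ (tpow F 0) = 0 := by
        funext I
        rw [dM_mulVec]
        exact Finset.sum_eq_zero fun i _ => i.elim0
      rw [pow_succ, ← Matrix.mulVec_mulVec, h1, Matrix.mulVec_zero, Pi.zero_apply, mul_zero,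
        coeff_one, if_neg (Nat.succ_ne_zero j)]
  | k + 1 => by
    have h1 := gs_tp X (tpow F k) F (ipow I k) I
    rw [gs_tpow X F I k] at h1
    rw [pow_succ]
    exact h1

/-- If a matrix commutes with the derivations, it commutes with the exponentials. -/
lemma gs_comm {m n : ℕ} {X : Matrix B B K} {M : Matrix (Fin n → B) (Fin m → B) K}
    (h : M * dM m X = dM n X * M) (F : (Fin m → B) → K) (I : Fin n → B) :
    gs n X (M *ᵥ F) I = ∑ J, M I J • gs m X F J := by
  ext j
  have h1 : ∀ j, (dM n X) ^ j * M = M * (dM m X) ^ j := by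
    intro j
    induction j with
    | zero => rw [pow_zero, pow_zero, Matrix.one_mul, Matrix.mul_one]
    | succ j ih =>
      rw [pow_succ, Matrix.mul_assoc, ← h, ← Matrix.mul_assoc, ih, Matrix.mul_assoc, ← pow_succ]
  rw [gs, coeff_mk, Matrix.mulVec_mulVec, h1, ← Matrix.mulVec_mulVec, map_sum]
  rw [Matrix.mulVec, dotProduct, Finset.mul_sum]
  refine Finset.sum_congr rfl fun J _ => ?_
  rw [map_smul, gs, coeff_mk, smul_eq_mul]
  ring

/-- A killed tensor has constant coordinates. -/
lemma gs_of_kill {n : ℕ} {X : Matrix B B K} {F : (Fin n → B) → K} (h : dM n X *ᵥ F = 0)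
    (I : Fin n → B) : gs n X F I = F I • 1 := by
  ext j
  rw [gs, coeff_mk, map_smul, coeff_one, smul_eq_mul]
  cases j with
  | zero => simp
  | succ j =>
    rw [pow_succ, ← Matrix.mulVec_mulVec, h, Matrix.mulVec_zero, Pi.zero_apply, mul_zero,
      if_neg (Nat.succ_ne_zero j), mul_zero]

lemma kill_of_const {n : ℕ} {X : Matrix B B K} {F : (Fin n → B) → K}
    (h : ∀ I, gs n X F I = C (constantCoeff (gs n X F I))) : dM n X *ᵥ F = 0 := by
  funext I
  have h1 := congrArg (coeff 1) (h I)
  rw [gs, coeff_mk, coeff_C, if_neg one_ne_zero, pow_one] at h1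
  simpa using h1

end Pool.Agent.Q67.TK
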