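import Mathlib

/-!
# Closed subgroups of the unit group of a finite dimensional algebra
-/

set_option autoImplicit false

open Filter Topology NormedSpace

namespace Pool.Agent.Q67.TK

variable {𝔸 : Type*} [NormedRing 𝔸] [NormedAlgebra ℝ 𝔸] [CompleteSpace 𝔸]

lemma exp_comm_add {x y : 𝔸} (h : Commute x y) : exp (x + y) = exp x * exp y := by
  let _ : NormedAlgebra ℚ 𝔸 := NormedAlgebra.restrictScalars ℚ ℝ 𝔸
  exact exp_add_of_commute h

lemma exp_cont : Continuous (exp : 𝔸 → 𝔸) := by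
  let _ : NormedAlgebra ℚ 𝔸 := NormedAlgebra.restrictScalars ℚ ℝ 𝔸
  exact exp_continuous

lemma exp_nsm (n : ℕ) (x : 𝔸) : exp ((n : ℝ) • x) = exp x ^ n := by
  let _ : NormedAlgebra ℚ 𝔸 := NormedAlgebra.restrictScalars ℚ ℝ 𝔸
  rw [← exp_nsmul, Nat.cast_smul_eq_nsmul]

lemma exp_neg_mul (x : 𝔸) : exp (-x) * exp x = 1 := by
  rw [← exp_comm_add (Commute.neg_left (Commute.refl x)), neg_add_cancel, exp_zero]

/-- Limit directions of small logarithms of elements of a closed subgroup are tangent vectors. -/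
theorem exists_direction [FiniteDimensional ℝ 𝔸] {H : Set 𝔸} (h1 : (1 : 𝔸) ∈ H)
    (hmul : ∀ a ∈ H, ∀ b ∈ H, a * b ∈ H) (hinv : ∀ x : 𝔸, exp x ∈ H → exp (-x) ∈ H)
    (hcl : IsClosed H) (b : ℕ → 𝔸) (hb : Tendsto b atTop (𝓝 0)) (hb0 : ∀ n, b n ≠ 0)
    (hbH : ∀ n, exp (b n) ∈ H) :
    ∃ β : 𝔸, ‖β‖ = 1 ∧ (∀ t : ℝ, exp (t • β) ∈ H) ∧ ∃ φ : ℕ → ℕ, StrictMono φ ∧
      Tendsto (fun n => (‖b (φ n)‖⁻¹ : ℝ) • b (φ n)) atTop (𝓝 β) := by
  have hnorm : ∀ n, (‖b n‖⁻¹ : ℝ) • b n ∈ Metric.sphere (0 : 𝔸) 1 := by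
    intro n
    rw [mem_sphere_zero_iff_norm, norm_smul, norm_inv, norm_norm]
    exact inv_mul_cancel₀ (norm_ne_zero_iff.2 (hb0 n))
  have : ProperSpace 𝔸 := FiniteDimensional.proper_real 𝔸
  obtain ⟨β, hβ, φ, hφ, hlim⟩ := (isCompact_sphere (0 : 𝔸) 1).tendsto_subseq hnorm
  have hpow : ∀ m : ℕ, ∀ a ∈ H, a ^ m ∈ H := by
    intro m a ha
    induction m with
    | zero => rwa [pow_zero]
    | succ m ih => rw [pow_succ]; exact hmul _ ih _ ha
  have hpos : ∀ t : ℝ, 0 ≤ t → exp (t • β) ∈ H := by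
    intro t ht
    have hnb : Tendsto (fun n => ‖b (φ n)‖) atTop (𝓝 0) := by
      have := (hb.comp hφ.tendsto_atTop).norm
      simpa using this
    have h1 : Tendsto (fun n => ((⌊t / ‖b (φ n)‖⌋₊ : ℝ) * ‖b (φ n)‖)) atTop (𝓝 t) := by
      have h2 : ∀ n, t - ‖b (φ n)‖ ≤ (⌊t / ‖b (φ n)‖⌋₊ : ℝ) * ‖b (φ n)‖ ∧
          (⌊t / ‖b (φ n)‖⌋₊ : ℝ) * ‖b (φ n)‖ ≤ t := by
        intro n
        have hp : 0 < ‖b (φ n)‖ := norm_pos_iff.2 (hb0 _)
        constructor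
        · have h3 := mul_le_mul_of_nonneg_right (Nat.lt_floor_add_one (t / ‖b (φ n)‖)).le hp.le
          rw [add_mul, div_mul_cancel₀ _ hp.ne', one_mul] at h3
          linarith
        · have h3 := mul_le_mul_of_nonneg_right (Nat.floor_le (div_nonneg ht hp.le)) hp.le
          rwa [div_mul_cancel₀ _ hp.ne'] at h3
      refine tendsto_of_tendsto_of_tendsto_of_le_of_le ?_ tendsto_const_nhds
        (fun n => (h2 n).1) (fun n => (h2 n).2)
      have := hnb.const_sub t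
      simpa using this
    have h4 : Tendsto (fun n => ((⌊t / ‖b (φ n)‖⌋₊ : ℕ) : ℝ) • b (φ n)) atTop (𝓝 (t • β)) := by
      have h5 := h1.smul hlim
      refine h5.congr fun n => ?_
      simp only [Function.comp]
      rw [smul_smul, mul_assoc, mul_inv_cancel₀ (norm_ne_zero_iff.2 (hb0 _)), mul_one]
    refine hcl.mem_of_tendsto ((exp_cont.tendsto _).comp h4) (Eventually.of_forall fun n => ?_)
    simp only [Function.comp]
    rw [exp_nsm]
    exact hpow _ _ (hbH _)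
  refine ⟨β, by simpa using hβ, fun t => ?_, φ, hφ, hlim⟩
  rcases le_total 0 t with ht | ht
  · exact hpos t ht
  · have h6 := hinv _ (hpos (-t) (by linarith))
    rwa [neg_smul, neg_neg] at h6

/-- **The closed subgroup theorem**: near the identity a closed subgroup consists of exponentials
of tangent vectors. -/
theorem closed_subgroup [FiniteDimensional ℝ 𝔸] {H : Set 𝔸} (h1 : (1 : 𝔸) ∈ H)
    (hmul : ∀ a ∈ H, ∀ b ∈ H, a * b ∈ H) (hinv : ∀ x : 𝔸, exp x ∈ H → exp (-x) ∈ H)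
    (hcl : IsClosed H) (T : Submodule ℝ 𝔸) (hA : ∀ x ∈ T, exp x ∈ H)
    (hB : ∀ x, (∀ t : ℝ, exp (t • x) ∈ H) → x ∈ T) :
    ∀ᶠ u in 𝓝 (1 : 𝔸), u ∈ H → ∃ x ∈ T, exp x = u := by
  by_contra hcon
  rw [Filter.not_eventually] at hcon
  obtain ⟨q, hq⟩ := T.exists_isCompl
  set P : 𝔸 →ₗ[ℝ] 𝔸 := T.subtype ∘ₗ T.projectionOnto q hq with hP
  have hPt : ∀ x, P x ∈ T := fun x => (T.projectionOnto q hq x).2
  have hPq : ∀ x, x - P x ∈ q := by
    intro x
    have h2 : T.projectionOnto q hq (x - P x) = 0 := by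
      rw [map_sub, hP]
      simp only [LinearMap.comp_apply, Submodule.subtype_apply]
      rw [Submodule.projectionOnto_apply_left]
      simp
    exact (Submodule.projectionOnto_apply_eq_zero_iff hq).1 h2
  set Pc : 𝔸 →L[ℝ] 𝔸 := LinearMap.toContinuousLinearMap P with hPc
  have hPcP : ∀ x, Pc x = P x := fun x => rfl
  -- the local diffeomorphism
  set Φ : 𝔸 → 𝔸 := fun x => exp (Pc x) * exp (x - Pc x) with hΦ
  have hderiv : HasStrictFDerivAt Φ (ContinuousLinearEquiv.refl ℝ 𝔸 : 𝔸 →L[ℝ] 𝔸) 0 := by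
    have e1 : HasStrictFDerivAt (fun x : 𝔸 => exp (Pc x)) Pc 0 := by
      have := (hasStrictFDerivAt_exp_zero (𝕂 := ℝ) (𝔸 := 𝔸))
      have h3 : HasStrictFDerivAt (exp : 𝔸 → 𝔸) (1 : 𝔸 →L[ℝ] 𝔸) (Pc 0) := by
        rw [map_zero]; exact this
      have h4 := h3.comp (0 : 𝔸) Pc.hasStrictFDerivAt
      exact h4
    have e2 : HasStrictFDerivAt (fun x : 𝔸 => exp (x - Pc x)) (1 - Pc) 0 := by
      have := (hasStrictFDerivAt_exp_zero (𝕂 := ℝ) (𝔸 := 𝔸))
      have h3 : HasStrictFDerivAt (exp : 𝔸 → 𝔸) (1 : 𝔸 →L[ℝ] 𝔸)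
          ((1 - Pc : 𝔸 →L[ℝ] 𝔸) 0) := by
        rw [map_zero]; exact this
      have h4 := h3.comp (0 : 𝔸) (1 - Pc : 𝔸 →L[ℝ] 𝔸).hasStrictFDerivAt
      exact h4
    have e3 := e1.mul' e2
    refine e3.congr_fderiv ?_
    ext x
    simp
  have hmap := hderiv.map_nhds_eq_of_equiv
  have hΦ0 : Φ 0 = 1 := by simp [hΦ]
  rw [hΦ0] at hmap
  rw [← hmap, Filter.frequently_map] at hcon
  obtain ⟨x, hx, hbad⟩ := Filter.exists_seq_forall_of_frequently hcon
  set b : ℕ → 𝔸 := fun n => x n - P (x n) with hb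
  have hb0 : Tendsto b atTop (𝓝 0) := by
    have h3 : Tendsto (fun n => x n - Pc (x n)) atTop (𝓝 (0 - Pc 0)) :=
      hx.sub ((Pc.continuous.tendsto 0).comp hx)
    rw [map_zero, sub_zero] at h3
    exact h3
  have hbH : ∀ n, exp (b n) ∈ H := by
    intro n
    have h4 : exp (-(P (x n))) ∈ H := hinv _ (hA _ (hPt _))
    have h5 : Φ (x n) ∈ H := by
      have := hbad n
      push Not at this
      exact this.1
    have h6 : exp (b n) = exp (-(P (x n))) * Φ (x n) := by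
      rw [hΦ]
      simp only
      rw [hPcP, ← mul_assoc, exp_neg_mul, one_mul]
    rw [h6]
    exact hmul _ h4 _ h5
  have hbne : ∀ n, b n ≠ 0 := by
    intro n h
    have h7 := hbad n
    push Not at h7
    refine h7.2 (P (x n)) (hPt _) ?_
    rw [hΦ]
    simp only
    rw [hPcP, show x n - P (x n) = 0 from h, exp_zero, mul_one]
  obtain ⟨β, hβ1, hβt, φ, hφ, hlim⟩ := exists_direction h1 hmul hinv hcl b hb0 hbne hbH
  have hβT := hB β hβt
  have hβq : β ∈ q := by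
    have hqc : IsClosed (q : Set 𝔸) := q.closed_of_finiteDimensional
    refine hqc.mem_of_tendsto hlim (Eventually.of_forall fun n => ?_)
    exact q.smul_mem _ (hPq _)
  have : β ∈ T ⊓ q := ⟨hβT, hβq⟩
  rw [hq.inf_eq_bot, Submodule.mem_bot] at this
  rw [this, norm_zero] at hβ1
  exact zero_ne_one hβ1

end Pool.Agent.Q67.TK
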