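import Pool.Agent.Q67.TK.Mat
import Pool.Agent.Q67.TK.Closed

/-!
# One-parameter groups and tensor powers
-/

set_option autoImplicit false
set_option linter.unusedSectionVars false

open Matrix Finset NormedSpace

open scoped Matrix.Norms.Operator

namespace Pool.Agent.Q67.TK

variable {B : Type*} [Fintype B] [DecidableEq B]

lemma hasDerivAt_entry (X : Matrix B B ℂ) (i j : B) :
    HasDerivAt (fun t : ℝ => exp (t • X) i j) (X i j) 0 := by
  have h1 : HasDerivAt (fun t : ℝ => exp (t • X)) (exp ((0 : ℝ) • X) * X) 0 :=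
    hasDerivAt_exp_smul_const X (0 : ℝ)
  rw [zero_smul, exp_zero, one_mul] at h1
  have h2 := (LinearMap.toContinuousLinearMap
    (Matrix.entryLinearMap ℝ ℂ i j : Matrix B B ℂ →ₗ[ℝ] ℂ)).hasFDerivAt.comp_hasDerivAt (0 : ℝ) h1
  exact h2

lemma hasDerivAt_pM (n : ℕ) (X : Matrix B B ℂ) (I J : Fin n → B) :
    HasDerivAt (fun t : ℝ => pM n (exp (t • X)) I J) (dM n X I J) 0 := by
  have h := HasDerivAt.fun_finsetProd (u := (univ : Finset (Fin n))) (x := (0 : ℝ))
    (f := fun k t => exp (t • X) (I k) (J k)) (f' := fun k => X (I k) (J k))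
    fun k _ => hasDerivAt_entry X (I k) (J k)
  refine h.congr_deriv ?_
  simp only [dM]
  refine Finset.sum_congr rfl fun k _ => ?_
  rw [zero_smul, exp_zero, smul_eq_mul, mul_comm]

lemma hasDerivAt_sum (n : ℕ) (X : Matrix B B ℂ) (l : (Fin n → B) → (Fin n → B) → ℂ) :
    HasDerivAt (fun t : ℝ => ∑ I, ∑ J, pM n (exp (t • X)) I J * l I J)
      (∑ I, ∑ J, dM n X I J * l I J) 0 :=
  HasDerivAt.fun_sum fun I _ => HasDerivAt.fun_sum fun J _ =>
    (hasDerivAt_pM n X I J).mul_const _

/-- If a linear functional is constant along the one-parameter group, it kills the derivation. -/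
lemma sum_zero_of_const {n : ℕ} {X : Matrix B B ℂ} {l : (Fin n → B) → (Fin n → B) → ℂ} {c : ℂ}
    (h : ∀ t : ℝ, ∑ I, ∑ J, pM n (exp (t • X)) I J * l I J = c) :
    ∑ I, ∑ J, dM n X I J * l I J = 0 := by
  have h1 := hasDerivAt_sum n X l
  have h2 : (fun t : ℝ => ∑ I, ∑ J, pM n (exp (t • X)) I J * l I J) = fun _ => c := funext h
  rw [h2] at h1
  exact h1.unique (hasDerivAt_const _ _)

lemma exp_add_smul (X : Matrix B B ℂ) (s t : ℝ) :
    exp ((t + s) • X) = exp (t • X) * exp (s • X) := by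
  rw [add_smul]
  exact exp_comm_add (((Commute.refl X).smul_left t).smul_right s)

lemma hasDerivAt_mulVec (n : ℕ) (X : Matrix B B ℂ) (F : (Fin n → B) → ℂ) (I : Fin n → B) (t : ℝ) :
    HasDerivAt (fun t : ℝ => (pM n (exp (t • X)) *ᵥ F) I)
      ((pM n (exp (t • X)) *ᵥ (dM n X *ᵥ F)) I) t := by
  have h0 : HasDerivAt (fun s : ℝ => (pM n (exp (t • X)) *ᵥ (pM n (exp (s • X)) *ᵥ F)) I)
      ((pM n (exp (t • X)) *ᵥ (dM n X *ᵥ F)) I) 0 := by
    simp only [Matrix.mulVec, dotProduct]
    refine HasDerivAt.fun_sum fun K _ => ?_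
    refine HasDerivAt.const_mul _ ?_
    exact HasDerivAt.fun_sum fun J _ => (hasDerivAt_pM n X K J).mul_const _
  have h1 : HasDerivAt (fun s : ℝ => s - t) 1 t := by
    simpa using (hasDerivAt_id t).sub_const t
  have h0' : HasDerivAt (fun s : ℝ => (pM n (exp (t • X)) *ᵥ (pM n (exp (s • X)) *ᵥ F)) I)
      ((pM n (exp (t • X)) *ᵥ (dM n X *ᵥ F)) I) ((fun s : ℝ => s - t) t) := by
    simp only [sub_self]; exact h0
  have h2 := HasDerivAt.scomp (h := fun s : ℝ => s - t) t h0' h1
  rw [one_smul] at h2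
  refine h2.congr_of_eventuallyEq ?_
  refine Filter.Eventually.of_forall fun s => ?_
  simp only [Function.comp]
  rw [Matrix.mulVec_mulVec, ← pM_mul, ← exp_add_smul, add_sub_cancel]

/-- A tensor is fixed by a one-parameter group if and only if it is killed by the derivation. -/
theorem fix_exp_iff {n : ℕ} {X : Matrix B B ℂ} {F : (Fin n → B) → ℂ} :
    (∀ t : ℝ, pM n (exp (t • X)) *ᵥ F = F) ↔ dM n X *ᵥ F = 0 := by
  constructor
  · intro h
    funext I
    have h1 := hasDerivAt_mulVec n X F I 0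
    have h2 : (fun t : ℝ => (pM n (exp (t • X)) *ᵥ F) I) = fun _ => F I :=
      funext fun t => congrFun (h t) I
    rw [h2] at h1
    have h3 := h1.unique (hasDerivAt_const _ _)
    rw [zero_smul, exp_zero, pM_one, Matrix.one_mulVec] at h3
    exact h3
  · intro h t
    funext I
    have h1 : ∀ t : ℝ, HasDerivAt (fun t : ℝ => (pM n (exp (t • X)) *ᵥ F) I) 0 t := by
      intro t
      have := hasDerivAt_mulVec n X F I t
      rw [h, Matrix.mulVec_zero] at this
      exact this
    have h2 := is_const_of_deriv_eq_zero (fun t => (h1 t).differentiableAt)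
      (fun t => (h1 t).deriv) t 0
    rw [h2, zero_smul, exp_zero, pM_one, Matrix.one_mulVec]

end Pool.Agent.Q67.TK
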