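import Pool.Agent.Q67.TK.Mat
import Pool.Agent.Y130.Fft

/-!
# The commutant of the general linear Lie algebra on a tensor power
-/

set_option autoImplicit false
set_option linter.unusedSectionVars false

open Matrix Finset

namespace Pool.Agent.Q67.TK

open Pool.Agent.TH125.Nod (Sup gen Gen)
open Pool.Agent.Y130 (InvS fftS)

variable {B : Type} [Fintype B] [DecidableEq B] {n : ℕ}

/-- The matrix of a permutation of the positions. -/
def PM (σ : Equiv.Perm (Fin n)) : Matrix (Fin n → B) (Fin n → B) ℂ :=
  fun I J => if ∀ k, I k = J (σ k) then 1 else 0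

lemma PM_mulVec (σ : Equiv.Perm (Fin n)) (F : (Fin n → B) → ℂ) :
    PM σ *ᵥ F = fun I => F (I ∘ σ.symm) := by
  funext I
  simp only [Matrix.mulVec, dotProduct, PM]
  rw [Finset.sum_eq_single (I ∘ σ.symm)]
  · rw [if_pos (fun k => by simp), one_mul]
  · intro J _ hJ
    rw [if_neg, zero_mul]
    intro h
    apply hJ
    funext k
    have := h (σ.symm k)
    simp only [Equiv.apply_symm_apply] at this
    exact this.symm
  · intro h
    exact absurd (Finset.mem_univ _) h

/-- the form -/
def QQ : Matrix (B × Bool) (B × Bool) ℂ := fun x y => if x.1 = y.1 ∧ y.2 = !x.2 then 1 else 0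

/-- the index with two rows -/
def JJ (I I' : Fin n → B) : Fin n × Bool → B × Bool :=
  fun j => (if j.2 then I j.1 else I' j.1, j.2)

open Classical in
/-- the function attached to a matrix -/
noncomputable def ff (E : Matrix (Fin n → B) (Fin n → B) ℂ) : (Fin n × Bool → B × Bool) → ℂ :=
  fun J => if ∀ j, (J j).2 = j.2 then
    E (fun k => (J (k, true)).1) (fun k => (J (k, false)).1) else 0

lemma ff_JJ (E : Matrix (Fin n → B) (Fin n → B) ℂ) (I I' : Fin n → B) :
    ff E (JJ I I') = E I I' := by
  unfold ff
  have h : ∀ j : Fin n × Bool, (JJ I I' j).2 = j.2 := fun j => rfl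
  rw [if_pos h]
  rfl

lemma eq_JJ {J : Fin n × Bool → B × Bool} (h : ∀ j, (J j).2 = j.2) :
    J = JJ (fun k => (J (k, true)).1) (fun k => (J (k, false)).1) := by
  funext j
  obtain ⟨k, ε⟩ := j
  refine Prod.ext ?_ (h _)
  cases ε <;> rfl

lemma update_JJ_true (I I' : Fin n → B) (k : Fin n) (a : B) :
    Function.update (JJ I I') (k, true) (a, true) = JJ (Function.update I k a) I' := by
  funext j
  obtain ⟨l, ε⟩ := j
  by_cases hl : l = k
  · subst hl
    cases ε
    · rw [Function.update_of_ne (by simp)]
      rfl
    · rw [Function.update_self]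
      simp [JJ]
  · rw [Function.update_of_ne (by simp [hl])]
    cases ε
    · rfl
    · simp [JJ, Function.update_of_ne hl]

lemma update_JJ_false (I I' : Fin n → B) (k : Fin n) (a : B) :
    Function.update (JJ I I') (k, false) (a, false) = JJ I (Function.update I' k a) := by
  funext j
  obtain ⟨l, ε⟩ := j
  by_cases hl : l = k
  · subst hl
    cases ε
    · rw [Function.update_self]
      simp [JJ]
    · rw [Function.update_of_ne (by simp)]
      rfl
  · rw [Function.update_of_ne (by simp [hl])]
    cases ε
    · simp [JJ, Function.update_of_ne hl]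
    · rfl

lemma ff_update_bad (E : Matrix (Fin n → B) (Fin n → B) ℂ) (I I' : Fin n → B)
    {j : Fin n × Bool} {w : B × Bool} (h : w.2 ≠ j.2) :
    ff E (Function.update (JJ I I') j w) = 0 := by
  unfold ff
  rw [if_neg]
  intro hc
  have := hc j
  rw [Function.update_self] at this
  exact h this

lemma comm_left (X : Matrix B B ℂ) (E : Matrix (Fin n → B) (Fin n → B) ℂ) (I I' : Fin n → B) :
    (dM n X * E) I I' = ∑ k, ∑ c, X (I k) c * E (Function.update I k c) I' :=
  dM_mulVec n X (fun K => E K I') I

lemma dM_transpose (X : Matrix B B ℂ) : (dM n X)ᵀ = dM n Xᵀ := by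
  ext I J
  simp only [Matrix.transpose_apply, dM]
  refine Finset.sum_congr rfl fun k _ => ?_
  congr 1
  refine Finset.prod_congr rfl fun l _ => ?_
  rw [Matrix.one_apply, Matrix.one_apply]
  simp only [eq_comm]

lemma comm_right (X : Matrix B B ℂ) (E : Matrix (Fin n → B) (Fin n → B) ℂ) (I I' : Fin n → B) :
    (E * dM n X) I I' = ∑ k, ∑ c, X c (I' k) * E I (Function.update I' k c) := by
  have h1 : (E * dM n X) I I' = (dM n Xᵀ *ᵥ fun K => E I K) I' := by
    rw [← dM_transpose, Matrix.mul_apply, Matrix.mulVec, dotProduct]
    exact Finset.sum_congr rfl fun K _ => by rw [Matrix.transpose_apply, mul_comm]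
  rw [h1, dM_mulVec]
  rfl

lemma comm_single {E : Matrix (Fin n → B) (Fin n → B) ℂ}
    (hE : ∀ X : Matrix B B ℂ, dM n X * E = E * dM n X) (a b : B) (I I' : Fin n → B) :
    ∑ k, (if b = I k then E (Function.update I k a) I' else 0) =
      ∑ k, (if a = I' k then E I (Function.update I' k b) else 0) := by
  have h := congrFun (congrFun (hE (Matrix.single b a 1)) I) I'
  rw [comm_left, comm_right] at h
  have e1 : ∀ k, ∑ c, (Matrix.single b a (1 : ℂ)) (I k) c * E (Function.update I k c) I' =
      if b = I k then E (Function.update I k a) I' else 0 := by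
    intro k
    rw [Finset.sum_eq_single a]
    · by_cases hb : b = I k
      · rw [if_pos hb, hb, Matrix.single_apply_same, one_mul]
      · rw [if_neg hb, Matrix.single_apply_of_row_ne (by exact hb), zero_mul]
    · intro c _ hc
      rw [Matrix.single_apply_of_col_ne (hj := fun h => hc h.symm), zero_mul]
    · intro h; exact absurd (Finset.mem_univ _) h
  have e2 : ∀ k, ∑ c, (Matrix.single b a (1 : ℂ)) c (I' k) * E I (Function.update I' k c) =
      if a = I' k then E I (Function.update I' k b) else 0 := by
    intro k
    rw [Finset.sum_eq_single b]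
    · by_cases ha : a = I' k
      · rw [if_pos ha, ha, Matrix.single_apply_same, one_mul]
      · rw [if_neg ha, Matrix.single_apply_of_col_ne (hj := ha), zero_mul]
    · intro c _ hc
      rw [Matrix.single_apply_of_row_ne (fun h => hc h.symm), zero_mul]
    · intro h; exact absurd (Finset.mem_univ _) h
  simp only [e1, e2] at h
  exact h

lemma ff_inv {E : Matrix (Fin n → B) (Fin n → B) ℂ}
    (hE : ∀ X : Matrix B B ℂ, dM n X * E = E * dM n X) :
    InvS (Prod.snd : B × Bool → Bool) QQ not ((1 : ℤ) : ℂ) (ff E) := by
  rintro ⟨a, x⟩ ⟨b, y⟩ hxy J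
  simp only at hxy
  subst hxy
  simp only [Int.cast_one, one_mul, smul_eq_mul]
  by_cases hJ : ∀ j, (J j).2 = j.2
  · obtain ⟨I, I', rfl⟩ : ∃ I I', J = JJ I I' := ⟨_, _, eq_JJ hJ⟩
    rw [Fintype.sum_prod_type]
    simp only [Fintype.sum_bool]
    cases x
    · have h := comm_single hE b a I I'
      have e1 : ∀ k : Fin n, (QQ (b, !false) (JJ I I' (k, true)) *
          ff E (Function.update (JJ I I') (k, true) (a, false)) -
          QQ (a, false) (JJ I I' (k, true)) *
          ff E (Function.update (JJ I I') (k, true) (b, !false))) +
          (QQ (b, !false) (JJ I I' (k, false)) *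
          ff E (Function.update (JJ I I') (k, false) (a, false)) -
          QQ (a, false) (JJ I I' (k, false)) *
          ff E (Function.update (JJ I I') (k, false) (b, !false))) =
          (if b = I' k then E I (Function.update I' k a) else 0) -
          (if a = I k then E (Function.update I k b) I' else 0) := by
        intro k
        rw [ff_update_bad E I I' (j := (k, true)) (w := (a, false)) (by simp),
          ff_update_bad E I I' (j := (k, false)) (w := (b, !false)) (by simp)]
        rw [Bool.not_false, update_JJ_true, update_JJ_false, ff_JJ, ff_JJ]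
        simp only [QQ, JJ]
        simp
        ring
      simp only [e1, Finset.sum_sub_distrib]
      rw [← h, sub_self]
    · have h := comm_single hE a b I I'
      have e1 : ∀ k : Fin n, (QQ (b, !true) (JJ I I' (k, true)) *
          ff E (Function.update (JJ I I') (k, true) (a, true)) -
          QQ (a, true) (JJ I I' (k, true)) *
          ff E (Function.update (JJ I I') (k, true) (b, !true))) +
          (QQ (b, !true) (JJ I I' (k, false)) *
          ff E (Function.update (JJ I I') (k, false) (a, true)) -
          QQ (a, true) (JJ I I' (k, false)) *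
          ff E (Function.update (JJ I I') (k, false) (b, !true))) =
          (if b = I k then E (Function.update I k a) I' else 0) -
          (if a = I' k then E I (Function.update I' k b) else 0) := by
        intro k
        rw [ff_update_bad E I I' (j := (k, true)) (w := (b, !true)) (by simp),
          ff_update_bad E I I' (j := (k, false)) (w := (a, true)) (by simp)]
        rw [Bool.not_true, update_JJ_true, update_JJ_false, ff_JJ, ff_JJ]
        simp only [QQ, JJ]
        simp
        ring
      simp only [e1, Finset.sum_sub_distrib]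
      rw [h, sub_self]
  · push Not at hJ
    obtain ⟨j0, hj0⟩ := hJ
    refine Finset.sum_eq_zero fun j _ => ?_
    have hz : ∀ w : B × Bool, (j ≠ j0 ∨ w.2 ≠ j0.2) → ff E (Function.update J j w) = 0 := by
      intro w hw
      unfold ff
      rw [if_neg]
      intro hc
      rcases hw with hw | hw
      · have := hc j0
        rw [Function.update_of_ne (Ne.symm hw)] at this
        exact hj0 this
      · by_cases hjj : j = j0
        · subst hjj
          have := hc j
          rw [Function.update_self] at this
          exact hw this
        · have := hc j0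
          rw [Function.update_of_ne (Ne.symm hjj)] at this
          exact hj0 this
    by_cases hjj : j = j0
    · subst hjj
      have h1 : QQ (b, !x) (J j) * ff E (Function.update J j (a, x)) = 0 := by
        by_cases h : x = j.2
        · have : QQ (b, !x) (J j) = 0 := by
            unfold QQ
            rw [if_neg]
            rintro ⟨_, h2⟩
            apply hj0
            rw [h2]
            simpa using h
          rw [this, zero_mul]
        · rw [hz (a, x) (Or.inr h), mul_zero]
      have h2 : QQ (a, x) (J j) * ff E (Function.update J j (b, !x)) = 0 := by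
        by_cases h : (!x) = j.2
        · have : QQ (a, x) (J j) = 0 := by
            unfold QQ
            rw [if_neg]
            rintro ⟨_, h2⟩
            apply hj0
            rw [h2]
            exact h
          rw [this, zero_mul]
        · rw [hz (b, !x) (Or.inr h), mul_zero]
      rw [h1, h2, sub_zero]
    · rw [hz _ (Or.inl hjj), hz _ (Or.inl hjj), mul_zero, mul_zero, sub_zero]

/-- the linear map back -/
def back : ((Fin n × Bool → B × Bool) → ℂ) →ₗ[ℂ] Matrix (Fin n → B) (Fin n → B) ℂ where
  toFun f := fun I I' => f (JJ I I')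
  map_add' _ _ := rfl
  map_smul' _ _ := rfl

lemma back_ff (E : Matrix (Fin n → B) (Fin n → B) ℂ) : back (ff E) = E := by
  ext I I'
  exact ff_JJ E I I'

lemma back_gen {m : ℕ} (e : Fin m × Fin 2 ≃ Fin n × Bool) (w : ℂ) :
    back (gen (Prod.snd : B × Bool → Bool) QQ (Prod.snd : Fin n × Bool → Bool) e w) ∈
      Submodule.span ℂ (Set.range (PM (B := B) (n := n))) := by
  classical
  -- partner
  set τ : Fin n × Bool → Fin n × Bool := fun j => e ((e.symm j).1, (e.symm j).2 + 1) with hτ
  have h2 : ∀ i : Fin 2, i + 1 + 1 = i := by decide
  have hττ : ∀ j, τ (τ j) = j := by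
    intro j
    rw [hτ]
    simp only [Equiv.symm_apply_apply, h2]
    exact e.apply_symm_apply j
  have hval : ∀ I I' : Fin n → B,
      back (gen (Prod.snd : B × Bool → Bool) QQ (Prod.snd : Fin n × Bool → Bool) e w) I I' =
      (∏ l, QQ (JJ I I' (e (l, 0))) (JJ I I' (e (l, 1)))) * w := by
    intro I I'
    change gen _ _ _ e w (JJ I I') = _
    unfold gen
    have h : ∀ j : Fin n × Bool, (JJ I I' j).2 = j.2 := fun j => rfl
    rw [if_pos h, smul_eq_mul]
  by_cases hmix : ∀ l, (e (l, 1)).2 = !(e (l, 0)).2
  · -- the permutation
    have hτ2 : ∀ j, (τ j).2 = !j.2 := by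
      intro j
      obtain ⟨⟨l, i⟩, rfl⟩ := e.surjective j
      rw [hτ]
      simp only [Equiv.symm_apply_apply]
      fin_cases i
      · exact hmix l
      · simp only [Fin.mk_one, Fin.isValue]
        rw [show (1 : Fin 2) + 1 = 0 from rfl, hmix l, Bool.not_not]
    set σ : Equiv.Perm (Fin n) :=
      { toFun := fun k => (τ (k, true)).1
        invFun := fun k => (τ (k, false)).1
        left_inv := by
          intro k
          have h3 : ((τ (k, true)).1, false) = τ (k, true) :=
            Prod.ext rfl (by rw [hτ2]; rfl)
          simp only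
          rw [h3, hττ]
        right_inv := by
          intro k
          have h3 : ((τ (k, false)).1, true) = τ (k, false) :=
            Prod.ext rfl (by rw [hτ2]; rfl)
          simp only
          rw [h3, hττ] } with hσ
    have key : back (gen (Prod.snd : B × Bool → Bool) QQ (Prod.snd : Fin n × Bool → Bool) e w) =
        w • PM σ := by
      ext I I'
      rw [hval, Matrix.smul_apply, smul_eq_mul, mul_comm]
      congr 1
      have hQ : ∀ l, QQ (JJ I I' (e (l, 0))) (JJ I I' (e (l, 1))) =
          if (JJ I I' (e (l, 0))).1 = (JJ I I' (e (l, 1))).1 then 1 else 0 := by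
        intro l
        unfold QQ
        have h4 : (JJ I I' (e (l, 1))).2 = !(JJ I I' (e (l, 0))).2 := hmix l
        simp only [h4, and_true]
      simp only [hQ, PM]
      by_cases hall : ∀ k, I k = I' (σ k)
      · rw [if_pos hall]
        refine Finset.prod_eq_one fun l _ => ?_
        rw [if_pos]
        -- the true side
        rcases hb : (e (l, 0)).2 with _ | _
        · have h5 : (e (l, 1)).2 = true := by rw [hmix, hb]; rfl
          have h6 := hall (e (l, 1)).1
          have h7 : (((e (l, 1)).1, true) : Fin n × Bool) = e (l, 1) := Prod.ext rfl h5.symm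
          have h8 : σ (e (l, 1)).1 = (e (l, 0)).1 := by
            rw [hσ]
            simp only [Equiv.coe_fn_mk]
            rw [h7, hτ]
            simp only [Equiv.symm_apply_apply]
            rfl
          rw [h8] at h6
          simp only [JJ, hb, h5]
          simp [h6]
        · have h5 : (e (l, 1)).2 = false := by rw [hmix, hb]; rfl
          have h6 := hall (e (l, 0)).1
          have h7 : (((e (l, 0)).1, true) : Fin n × Bool) = e (l, 0) := Prod.ext rfl hb.symm
          have h8 : σ (e (l, 0)).1 = (e (l, 1)).1 := by
            rw [hσ]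
            simp only [Equiv.coe_fn_mk]
            rw [h7, hτ]
            simp only [Equiv.symm_apply_apply]
            rfl
          rw [h8] at h6
          simp only [JJ, hb, h5]
          simp [h6]
      · rw [if_neg hall]
        push Not at hall
        obtain ⟨k, hk⟩ := hall
        obtain ⟨⟨l, i⟩, hli⟩ := e.surjective (k, true)
        refine Finset.prod_eq_zero (Finset.mem_univ l) ?_
        rw [if_neg]
        intro heq
        apply hk
        have hσk : (σ k, false) = τ (k, true) := by
          rw [hσ]
          exact Prod.ext rfl (by rw [hτ2]; rfl)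
        have hτk : τ (k, true) = e (l, i + 1) := by
          rw [hτ]
          simp only [← hli, Equiv.symm_apply_apply]
        have e1 : (JJ I I' (k, true)).1 = I k := rfl
        have e2 : (JJ I I' (σ k, false)).1 = I' (σ k) := rfl
        rw [← e1, ← e2, hσk, hτk, ← hli]
        fin_cases i
        · exact heq
        · exact heq.symm
    rw [key]
    exact Submodule.smul_mem _ _ (Submodule.subset_span ⟨σ, rfl⟩)
  · push Not at hmix
    obtain ⟨l, hl⟩ := hmix
    have : back (gen (Prod.snd : B × Bool → Bool) QQ (Prod.snd : Fin n × Bool → Bool) e w) = 0 := by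
      ext I I'
      rw [hval, Finset.prod_eq_zero (Finset.mem_univ l), zero_mul]
      · rfl
      · unfold QQ
        rw [if_neg]
        rintro ⟨_, h⟩
        exact hl h
    rw [this]
    exact Submodule.zero_mem _

/-- **The first fundamental theorem**: the commutant of the general linear Lie algebra is spanned by
the permutations. -/
theorem commutant_span {E : Matrix (Fin n → B) (Fin n → B) ℂ}
    (hE : ∀ X : Matrix B B ℂ, dM n X * E = E * dM n X) :
    E ∈ Submodule.span ℂ (Set.range (PM (B := B) (n := n))) := by
  classical
  have h1 : ff E ∈ Gen (Prod.snd : B × Bool → Bool) QQ (Prod.snd : Fin n × Bool → Bool) := by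
    have hQb : ∀ a b : B × Bool, b.2 ≠ !a.2 → (QQ a b : ℂ) = 0 := by
      intro a b h
      unfold QQ
      rw [if_neg]
      rintro ⟨_, h'⟩
      exact h h'
    refine fftS (R := QQ) (s := 1) (Or.inl rfl) (fun i => Bool.not_not i) hQb hQb ?_ ?_ _ _
      (Prod.snd : Fin n × Bool → Bool) (ff E) rfl ?_ (ff_inv hE) ?_
    · intro a b
      unfold QQ
      rw [Int.cast_one, one_mul]
      congr 1
      rw [eq_iff_iff]
      constructor
      · rintro ⟨h1, h2⟩; exact ⟨h1.symm, by rw [h2, Bool.not_not]⟩
      · rintro ⟨h1, h2⟩; exact ⟨h1.symm, by rw [h2, Bool.not_not]⟩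
    · ext a c
      rw [Matrix.mul_apply, Finset.sum_eq_single (a.1, !a.2)]
      · unfold QQ
        rw [if_pos ⟨rfl, rfl⟩, one_mul, Matrix.one_apply]
        congr 1
        rw [eq_iff_iff, Bool.not_not]
        constructor
        · rintro ⟨h1, h2⟩; exact Prod.ext h1 h2.symm
        · rintro rfl; exact ⟨rfl, rfl⟩
      · intro b _ hb
        have : (QQ a b : ℂ) = 0 := by
          unfold QQ
          rw [if_neg]
          rintro ⟨h1, h2⟩
          exact hb (Prod.ext h1.symm h2)
        rw [this, zero_mul]
      · intro h; exact absurd (Finset.mem_univ _) h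
    · intro J hJ
      unfold ff
      rw [if_neg hJ]
    · intro i _ h
      cases i <;> simp at h
  have h2 : back (ff E) ∈ (Gen (Prod.snd : B × Bool → Bool) QQ
      (Prod.snd : Fin n × Bool → Bool)).map (back (B := B) (n := n)) :=
    Submodule.mem_map_of_mem h1
  rw [back_ff] at h2
  refine (Submodule.map_le_iff_le_comap.2 ?_) h2
  unfold Gen
  rw [Submodule.span_le]
  rintro _ ⟨m, e, w, rfl⟩
  exact back_gen e w

end Pool.Agent.Q67.TK
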