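import Pool.Agent.Q67.TK.Haar
import Pool.Agent.Q67.TK.Exp
import Pool.Agent.Q67.TK.Fft

/-!
# Orthogonality over the unitary group
-/

set_option autoImplicit false
set_option linter.unusedSectionVars false

open Matrix Finset MeasureTheory Module

namespace Pool.Agent.Q67.TK

/-- The hermitian form. -/
def ip {S : Type*} [Fintype S] (F G : S → ℂ) : ℂ := ∑ I, star (F I) * G I

section ip

variable {S : Type*} [Fintype S] [DecidableEq S]

lemma ip_eq (F G : S → ℂ) : ip F G = star F ⬝ᵥ G := rfl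

lemma ip_mulVec (A : Matrix S S ℂ) (F G : S → ℂ) : ip F (A *ᵥ G) = ip (Aᴴ *ᵥ F) G := by
  rw [ip_eq, ip_eq, Matrix.star_mulVec, Matrix.conjTranspose_conjTranspose,
    Matrix.dotProduct_mulVec]

open scoped ComplexOrder in
lemma ip_self_eq_zero {F : S → ℂ} (h : ip F F = 0) : F = 0 :=
  dotProduct_star_self_eq_zero.1 h

end ip

variable {B : Type} [Fintype B] [DecidableEq B]

lemma pM_conjTranspose (n : ℕ) (u : Matrix B B ℂ) : (pM n u)ᴴ = pM n uᴴ := by
  ext I J
  simp only [Matrix.conjTranspose_apply, pM_apply, star_prod]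

/-- The tensor power representation of the unitary group. -/
def rho (n : ℕ) : unitary (Matrix B B ℂ) →* Matrix (Fin n → B) (Fin n → B) ℂ where
  toFun w := pM n (w : Matrix B B ℂ)
  map_one' := pM_one n
  map_mul' _ _ := pM_mul n _ _

lemma rho_apply (n : ℕ) (u : unitary (Matrix B B ℂ)) : rho n u = pM n (u : Matrix B B ℂ) := rfl

lemma pM_cont (n : ℕ) : Continuous fun u : Matrix B B ℂ => pM n u := by
  refine continuous_pi fun I => continuous_pi fun J => ?_
  simp only [pM]
  exact continuous_finsetProd _ fun k _ =>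
    (continuous_apply (J k)).comp (continuous_apply (I k))

lemma rho_cont (n : ℕ) : Continuous (rho (B := B) n) := (pM_cont n).comp continuous_subtype_val

lemma rho_star_mul (n : ℕ) (u : unitary (Matrix B B ℂ)) : (rho n u)ᴴ * rho n u = 1 := by
  rw [rho_apply, pM_conjTranspose, ← pM_mul]
  have := (Unitary.mem_iff.1 u.2).1
  rw [Matrix.star_eq_conjTranspose] at this
  rw [this, pM_one]

lemma rho_mul_star (n : ℕ) (u : unitary (Matrix B B ℂ)) : rho n u * (rho n u)ᴴ = 1 := by
  rw [rho_apply, pM_conjTranspose, ← pM_mul]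
  have := (Unitary.mem_iff.1 u.2).2
  rw [Matrix.star_eq_conjTranspose] at this
  rw [this, pM_one]

lemma ip_rho (n : ℕ) (u : unitary (Matrix B B ℂ)) (F G : (Fin n → B) → ℂ) :
    ip (rho n u *ᵥ F) (rho n u *ᵥ G) = ip F G := by
  rw [ip_mulVec, Matrix.mulVec_mulVec, rho_star_mul, Matrix.one_mulVec]

variable (μ : Measure (unitary (Matrix B B ℂ))) [IsFiniteMeasureOnCompacts μ]
  [μ.IsMulLeftInvariant]

lemma vec_cont {n : ℕ} (x : (Fin n → B) → ℂ) (I : Fin n → B) :
    Continuous fun u : unitary (Matrix B B ℂ) => (rho n u *ᵥ x) I := by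
  simp only [Matrix.mulVec, dotProduct]
  exact continuous_finsetSum _ fun J _ => (cont_entry (rho_cont n) I J).mul continuous_const

lemma fn_cont {n l : ℕ} (x : (Fin n → B) → ℂ) (c : (Fin l → B) → ℂ) (I : Fin n → B)
    (J : Fin l → B) : Continuous fun u : unitary (Matrix B B ℂ) =>
      (rho n u *ᵥ x) I * star ((rho l u *ᵥ c) J) :=
  (vec_cont x I).mul (vec_cont c J).star

/-- the averaged operator -/
noncomputable def EE {n l : ℕ} (x : (Fin n → B) → ℂ) (c : (Fin l → B) → ℂ) :
    Matrix (Fin n → B) (Fin l → B) ℂ :=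
  fun I J => ∫ u, (rho n u *ᵥ x) I * star ((rho l u *ᵥ c) J) ∂μ

lemma EE_inv {n l : ℕ} (x : (Fin n → B) → ℂ) (c : (Fin l → B) → ℂ)
    (v : unitary (Matrix B B ℂ)) : rho n v * EE μ x c * (rho l v)ᴴ = EE μ x c := by
  ext I J
  rw [Matrix.mul_apply]
  simp only [Matrix.mul_apply, Matrix.conjTranspose_apply, Finset.sum_mul]
  have hint : ∀ L K, Integrable (fun u : unitary (Matrix B B ℂ) =>
      rho n v I K * ((rho n u *ᵥ x) K * star ((rho l u *ᵥ c) L)) * star (rho l v J L)) μ :=
    fun L K => cont_int μ ((continuous_const.mul (fn_cont x c K L)).mul continuous_const)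
  have h1 : EE μ x c I J = ∫ u, ∑ L, ∑ K, rho n v I K * ((rho n u *ᵥ x) K *
      star ((rho l u *ᵥ c) L)) * star (rho l v J L) ∂μ := by
    simp only [EE]
    rw [← integral_mul_left_eq_self _ v]
    congr 1
    funext u
    have e1 : (rho n (v * u) *ᵥ x) I = ∑ K, rho n v I K * (rho n u *ᵥ x) K := by
      rw [map_mul, ← Matrix.mulVec_mulVec]
      rfl
    have e2 : (rho l (v * u) *ᵥ c) J = ∑ L, rho l v J L * (rho l u *ᵥ c) L := by
      rw [map_mul, ← Matrix.mulVec_mulVec]
      rfl
    rw [e1, e2, star_sum, Finset.sum_mul_sum, Finset.sum_comm]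
    refine Finset.sum_congr rfl fun L _ => Finset.sum_congr rfl fun K _ => ?_
    rw [star_mul']
    ring
  rw [h1, integral_finsetSum _ fun L _ => integrable_finsetSum _ fun K _ => hint L K]
  refine Finset.sum_congr rfl fun L _ => ?_
  rw [integral_finsetSum _ fun K _ => hint L K]
  refine Finset.sum_congr rfl fun K _ => ?_
  rw [integral_mul_const, integral_const_mul]
  rfl

lemma EE_comm {n : ℕ} (x c : (Fin n → B) → ℂ) (v : unitary (Matrix B B ℂ)) :
    rho n v * EE μ x c = EE μ x c * rho n v := by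
  have h : rho n v * EE μ x c * (rho n v)ᴴ * rho n v = EE μ x c * rho n v := by
    rw [EE_inv μ x c v]
  rwa [Matrix.mul_assoc, rho_star_mul, Matrix.mul_one] at h

lemma exp_unitary {X : Matrix B B ℂ} (hX : Xᴴ = -X) (t : ℝ) :
    NormedSpace.exp (t • X) ∈ unitary (Matrix B B ℂ) := by
  open scoped Matrix.Norms.Operator in
  have h1 : (NormedSpace.exp (t • X))ᴴ = NormedSpace.exp (-(t • X)) := by
    rw [← Matrix.exp_conjTranspose, Matrix.conjTranspose_smul, hX, smul_neg, star_trivial]
  rw [Unitary.mem_iff, Matrix.star_eq_conjTranspose, h1]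
  constructor
  · exact exp_neg_mul _
  · have := exp_neg_mul (-(t • X))
    rwa [neg_neg] at this

lemma comm_of_skew {n : ℕ} {E : Matrix (Fin n → B) (Fin n → B) ℂ}
    (hE : ∀ v : unitary (Matrix B B ℂ), rho n v * E = E * rho n v) {X : Matrix B B ℂ}
    (hX : Xᴴ = -X) : dM n X * E = E * dM n X := by
  ext I J
  have h := sum_zero_of_const (n := n) (X := X) (c := 0)
    (l := fun I' J' => (if I' = I then E J' J else 0) - (if J' = J then E I I' else 0)) (by
      intro t
      have h1 := congrFun (congrFun (hE ⟨_, exp_unitary hX t⟩) I) J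
      rw [Matrix.mul_apply, Matrix.mul_apply] at h1
      simp only [mul_sub, Finset.sum_sub_distrib, mul_ite, mul_zero]
      rw [sub_eq_zero]
      have e1 : (∑ x, ∑ x_1, if x = I then pM n (NormedSpace.exp (t • X)) x x_1 * E x_1 J else 0) =
          ∑ x_1, pM n (NormedSpace.exp (t • X)) I x_1 * E x_1 J := by
        rw [Finset.sum_comm]
        exact Finset.sum_congr rfl fun K _ => by simp
      have e2 : (∑ x, ∑ x_1, if x_1 = J then pM n (NormedSpace.exp (t • X)) x x_1 * E I x else 0) =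
          ∑ x_1, E I x_1 * pM n (NormedSpace.exp (t • X)) x_1 J :=
        Finset.sum_congr rfl fun K _ => by simp [mul_comm]
      rw [e1, e2]
      exact h1)
  simp only [mul_sub, Finset.sum_sub_distrib, mul_ite, mul_zero] at h
  rw [sub_eq_zero] at h
  rw [Matrix.mul_apply, Matrix.mul_apply]
  have e1 : (∑ x, ∑ x_1, if x = I then dM n X x x_1 * E x_1 J else 0) =
      ∑ x_1, dM n X I x_1 * E x_1 J := by
    rw [Finset.sum_comm]
    exact Finset.sum_congr rfl fun K _ => by simp
  have e2 : (∑ x, ∑ x_1, if x_1 = J then dM n X x x_1 * E I x else 0) =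
      ∑ x_1, E I x_1 * dM n X x_1 J :=
    Finset.sum_congr rfl fun K _ => by simp [mul_comm]
  rw [e1, e2] at h
  exact h

lemma skew_decomp (X : Matrix B B ℂ) : ∃ A D : Matrix B B ℂ, Aᴴ = -A ∧ Dᴴ = -D ∧
    X = A + (-Complex.I) • D := by
  refine ⟨(2⁻¹ : ℂ) • (X - Xᴴ), (Complex.I * 2⁻¹ : ℂ) • (X + Xᴴ), ?_, ?_, ?_⟩
  · rw [Matrix.conjTranspose_smul, Matrix.conjTranspose_sub, Matrix.conjTranspose_conjTranspose,
      ← smul_neg, neg_sub]
    congr 1
    simp
  · rw [Matrix.conjTranspose_smul, Matrix.conjTranspose_add, Matrix.conjTranspose_conjTranspose,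
      ← neg_smul, add_comm Xᴴ X]
    congr 1
    simp
  · rw [smul_smul]
    have : -Complex.I * (Complex.I * 2⁻¹) = 2⁻¹ := by
      rw [← mul_assoc, neg_mul, Complex.I_mul_I, neg_neg, one_mul]
    rw [this, ← smul_add, sub_add_add_cancel, ← two_smul ℂ X, smul_smul]
    norm_num

lemma comm_all {n : ℕ} {E : Matrix (Fin n → B) (Fin n → B) ℂ}
    (hE : ∀ v : unitary (Matrix B B ℂ), rho n v * E = E * rho n v) (X : Matrix B B ℂ) :
    dM n X * E = E * dM n X := by
  obtain ⟨A, D, hAs, hDs, hX⟩ := skew_decomp X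
  rw [hX, dM_add, dM_smul, Matrix.add_mul, Matrix.mul_add, Matrix.smul_mul, Matrix.mul_smul,
    comm_of_skew hE hAs, comm_of_skew hE hDs]

/-- **Orthogonality**: if `x` is orthogonal to all permutations of `c` the averaged operator
vanishes. -/
theorem EE_zero {n : ℕ} {x c : (Fin n → B) → ℂ}
    (h : ∀ σ : Equiv.Perm (Fin n), ip (fun I => c (I ∘ σ)) x = 0) : EE μ x c = 0 := by
  have hspan := commutant_span (comm_all fun v => EE_comm μ x c v)
  have horth : ∀ M ∈ Submodule.span ℂ (Set.range (PM (B := B) (n := n))),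
      ∑ I, ∑ J, star (M I J) * EE μ x c I J = 0 := by
    intro M hM
    induction hM using Submodule.span_induction with
    | mem M hM =>
      obtain ⟨σ, rfl⟩ := hM
      have hint : ∀ I J, Integrable (fun u : unitary (Matrix B B ℂ) =>
          star (PM σ I J) * ((rho n u *ᵥ x) I * star ((rho n u *ᵥ c) J))) μ :=
        fun I J => cont_int μ (continuous_const.mul (fn_cont x c I J))
      have h1 : ∑ I, ∑ J, star (PM σ I J) * EE μ x c I J =
          ∫ u, ∑ I, ∑ J, star (PM σ I J) * ((rho n u *ᵥ x) I * star ((rho n u *ᵥ c) J)) ∂μ := by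
        rw [integral_finsetSum _ fun I _ => integrable_finsetSum _ fun J _ => hint I J]
        refine Finset.sum_congr rfl fun I _ => ?_
        rw [integral_finsetSum _ fun J _ => hint I J]
        refine Finset.sum_congr rfl fun J _ => ?_
        rw [integral_const_mul]
        rfl
      rw [h1]
      have h2 : ∀ u : unitary (Matrix B B ℂ), ∑ I, ∑ J, star (PM σ I J) *
          ((rho n u *ᵥ x) I * star ((rho n u *ᵥ c) J)) = 0 := by
        intro u
        have h3 : ∑ I, ∑ J, star (PM σ I J) * ((rho n u *ᵥ x) I * star ((rho n u *ᵥ c) J)) =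
            ip (PM σ *ᵥ (rho n u *ᵥ c)) (rho n u *ᵥ x) := by
          rw [ip]
          refine Finset.sum_congr rfl fun I _ => ?_
          have e1 : (PM σ *ᵥ (rho n u *ᵥ c)) I = ∑ J, PM σ I J * (rho n u *ᵥ c) J := rfl
          rw [e1, star_sum, Finset.sum_mul]
          refine Finset.sum_congr rfl fun J _ => ?_
          rw [star_mul']
          ring
        rw [h3, PM_mulVec, rho_apply, ← pM_perm, ← rho_apply, ip_rho]
        exact h σ.symm
      simp only [h2, integral_zero]
    | zero => simp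
    | add M N _ _ hM hN =>
      simp only [Matrix.add_apply, star_add, add_mul, Finset.sum_add_distrib, hM, hN, add_zero]
    | smul r M _ hM =>
      simp only [Matrix.smul_apply, smul_eq_mul, star_mul', mul_assoc, ← Finset.mul_sum, hM,
        mul_zero]
  have h1 := horth _ hspan
  have h2 : ∀ I J, EE μ x c I J = 0 := by
    have h3 : ∑ I, ∑ J, ((Complex.normSq (EE μ x c I J) : ℝ) : ℂ) = 0 := by
      rw [← h1]
      refine Finset.sum_congr rfl fun I _ => Finset.sum_congr rfl fun J _ => ?_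
      rw [Complex.normSq_eq_conj_mul_self]
      rfl
    have h4 : ∑ I, ∑ J, Complex.normSq (EE μ x c I J) = 0 := by exact_mod_cast h3
    intro I J
    have h5 := (Finset.sum_eq_zero_iff_of_nonneg fun I _ =>
      Finset.sum_nonneg fun J _ => Complex.normSq_nonneg _).1 h4 I (Finset.mem_univ _)
    have h6 := (Finset.sum_eq_zero_iff_of_nonneg fun J _ => Complex.normSq_nonneg _).1 h5 J
      (Finset.mem_univ _)
    exact Complex.normSq_eq_zero.1 h6
  ext I J
  exact h2 I J

/-- tensors of different degrees -/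
theorem EE_zero_ne {n l : ℕ} (hnl : n ≠ l) (x : (Fin n → B) → ℂ) (c : (Fin l → B) → ℂ) :
    EE μ x c = 0 := by
  have hd : (n : ℝ) - l ≠ 0 := by
    rw [sub_ne_zero]; exact_mod_cast hnl
  set θ : ℝ := Real.pi / ((n : ℝ) - l) with hθ
  set ζ : ℂ := Complex.exp (θ * Complex.I) with hζ
  have hζ1 : ζ * star ζ = 1 := by
    rw [Complex.star_def, Complex.mul_conj, Complex.normSq_eq_norm_sq, hζ,
      Complex.norm_exp_ofReal_mul_I]
    norm_num
  have hζ1' : star ζ * ζ = 1 := by rw [mul_comm]; exact hζ1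
  have hmem : ζ • (1 : Matrix B B ℂ) ∈ unitary (Matrix B B ℂ) := by
    rw [Unitary.mem_iff, star_smul, star_one]
    constructor
    · rw [Matrix.smul_mul, Matrix.one_mul, smul_smul, hζ1', one_smul]
    · rw [Matrix.smul_mul, Matrix.one_mul, smul_smul, hζ1, one_smul]
  have h1 : ∀ (m : ℕ) (y : (Fin m → B) → ℂ) (u : unitary (Matrix B B ℂ)) (I : Fin m → B),
      (rho m (⟨_, hmem⟩ * u) *ᵥ y) I = ζ ^ m * (rho m u *ᵥ y) I := by
    intro m y u I
    rw [map_mul, ← Matrix.mulVec_mulVec, rho_apply m ⟨_, hmem⟩]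
    change (pM m (ζ • 1) *ᵥ _) I = _
    rw [pM_smul, pM_one, Matrix.smul_mulVec, Matrix.one_mulVec]
    rfl
  ext I J
  have h2 : EE μ x c I J = (ζ ^ n * star (ζ ^ l)) * EE μ x c I J := by
    conv_lhs => rw [EE, ← integral_mul_left_eq_self _ (⟨_, hmem⟩ : unitary (Matrix B B ℂ))]
    simp only [h1, EE]
    rw [← integral_const_mul]
    congr 1
    funext u
    rw [star_mul']
    ring
  have h3 : ζ ^ n * star (ζ ^ l) = -1 := by
    have h4 : star ζ = Complex.exp (-(θ * Complex.I)) := by
      rw [hζ, Complex.star_def, ← Complex.exp_conj, map_mul, Complex.conj_ofReal, Complex.conj_I,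
        mul_neg]
    rw [star_pow, h4, hζ, ← Complex.exp_nat_mul, ← Complex.exp_nat_mul, ← Complex.exp_add,
      ← Complex.exp_pi_mul_I]
    congr 1
    have h5 : ((n : ℂ) - l) * θ = Real.pi := by
      have : ((n : ℝ) - l) * θ = Real.pi := by
        rw [hθ, mul_div_cancel₀ _ hd]
      exact_mod_cast this
    rw [← h5]
    ring
  rw [h3] at h2
  have h6 : EE μ x c I J = 0 := by linear_combination h2 / 2
  exact h6

end Pool.Agent.Q67.TK
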