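import Pool.Agent.Q67.TK.Transport

/-!
# The bound for complex families of tensors, and ideals of the annihilator
-/

set_option autoImplicit false
set_option linter.unusedSectionVars false

open Matrix Finset Module

namespace Pool.Agent.Q67.TK

variable {B : Type} [Fintype B] [DecidableEq B] {K : Type*} [Field K] [Algebra K ℂ]

open scoped ComplexOrder in
/-- **The infinitesimal criterion for finite index.** -/
theorem RSys.boundC {C : Matrix B B ℂ} {q κ : Matrix B B K}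
    (hK : ∀ r : K, star (algebraMap K ℂ r) = algebraMap K ℂ r)
    (hqκ : q * κ = 1) (hpos : (Cᵀ * upM q).PosDef)
    (𝒜 : RSys B K q) (hfix : ∀ n, ∀ F ∈ 𝒜.C n, pM n C *ᵥ up F = up F)
    (hκ : t2 κ ∈ 𝒜.C 2) (𝓗 : ∀ n, Submodule ℂ ((Fin n → B) → ℂ))
    (hann : ∀ X : Matrix B B ℂ, (∀ n, ∀ F ∈ 𝒜.C n, dM n X *ᵥ up F = 0) →
      ∀ n, ∀ F ∈ 𝓗 n, dM n X *ᵥ F = 0) :
    ∃ c : ℝ, 0 < c ∧ ∀ m, c * finrank ℂ (𝓗 (2 * m)) ≤ finrank K (𝒜.C (2 * m)) := by
  obtain ⟨g, hg⟩ := exists_sqrt hpos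
  have hMu : IsUnit (Cᵀ * upM q).det := (Matrix.isUnit_iff_isUnit_det _).1 hpos.isUnit
  have hgu : IsUnit g.det := by
    have h : (Cᵀ * upM q).det = star g.det * g.det := by
      rw [hg, Matrix.det_mul, Matrix.det_conjTranspose]
    rw [h] at hMu
    exact isUnit_of_mul_isUnit_right hMu
  have hgg : g * g⁻¹ = 1 := Matrix.mul_nonsing_inv _ hgu
  have hgg' : g⁻¹ * g = 1 := Matrix.nonsing_inv_mul _ hgu
  set 𝒯 := toT 𝒜 hK hg hfix with h𝒯
  have hCT : ∀ n, 𝒯.C n = gS g (upS (𝒜.C n)) := fun n => rfl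
  have hmem : ∀ n, ∀ F ∈ 𝒜.C n, pM n g *ᵥ up F ∈ 𝒯.C n := fun n F hF => ⟨_, up_mem hF, rfl⟩
  have hreal : ∀ u ∈ 𝒯.grp, star (u : Matrix B B ℂ).trace = (u : Matrix B B ℂ).trace := by
    intro u hu
    have h1 := hu 2 _ (hmem 2 _ hκ)
    have hup2 : up (t2 κ) = t2 (upM κ) := rfl
    rw [hup2, pM_t2, rho_apply, pM_t2] at h1
    have h2 := t2_injective h1
    set κ' : Matrix B B ℂ := g * upM κ * gᵀ with hκ'
    have hqκ' : upM q * upM κ = 1 := by
      rw [← upM_mul, hqκ]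
      ext i j
      rw [upM_apply, Matrix.one_apply, Matrix.one_apply]
      split_ifs <;> simp
    have hκq' : upM κ * upM q = 1 := mul_eq_one_comm.1 hqκ'
    set κi : Matrix B B ℂ := (g⁻¹)ᵀ * upM q * g⁻¹ with hκi
    have h3 : κi * κ' = 1 := by
      rw [hκi, hκ']
      have e1 : g⁻¹ * (g * upM κ * gᵀ) = upM κ * gᵀ := by
        rw [← Matrix.mul_assoc, ← Matrix.mul_assoc, hgg', Matrix.one_mul]
      rw [Matrix.mul_assoc, e1, Matrix.mul_assoc, ← Matrix.mul_assoc (upM q), hqκ',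
        Matrix.one_mul, ← Matrix.transpose_mul, hgg, Matrix.transpose_one]
    have hu' : (u : Matrix B B ℂ)ᴴ * (u : Matrix B B ℂ) = 1 := by
      have := (Unitary.mem_iff.1 u.2).1
      rwa [Matrix.star_eq_conjTranspose] at this
    have h4 : κ' * (u : Matrix B B ℂ)ᵀ = (u : Matrix B B ℂ)ᴴ * κ' := by
      have := congrArg ((u : Matrix B B ℂ)ᴴ * ·) h2
      simp only [← Matrix.mul_assoc, hu', Matrix.one_mul] at this
      exact this
    have h5 : (u : Matrix B B ℂ)ᵀ = κi * ((u : Matrix B B ℂ)ᴴ * κ') := by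
      rw [← h4, ← Matrix.mul_assoc, h3, Matrix.one_mul]
    have h6 : (u : Matrix B B ℂ).trace = ((u : Matrix B B ℂ)ᴴ).trace := by
      rw [← Matrix.trace_transpose, h5, Matrix.trace_mul_comm, Matrix.mul_assoc,
        mul_eq_one_comm.1 h3, Matrix.mul_one]
    rw [Matrix.trace_conjTranspose] at h6
    exact h6.symm
  obtain ⟨c, hc, hb⟩ := 𝒯.index_bound hreal
  refine ⟨c, hc, fun m => ?_⟩
  have h1 : finrank ℂ (𝒯.C (2 * m)) = finrank K (𝒜.C (2 * m)) := by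
    rw [hCT, finrank_gS hgg', finrank_upS]
  have h2 : finrank ℂ (𝓗 (2 * m)) ≤ finrank ℂ (𝒯.L (2 * m)) := by
    rw [← finrank_gS hgg' (𝓗 (2 * m))]
    refine Submodule.finrank_mono ?_
    rintro _ ⟨F, hF, rfl⟩
    rw [Matrix.mulVecLin_apply]
    intro X hX
    set X' : Matrix B B ℂ := g⁻¹ * X * g with hX'
    have hXX : g * X' = X * g := by
      rw [hX', ← Matrix.mul_assoc, ← Matrix.mul_assoc, hgg, Matrix.one_mul]
    have hkill : ∀ n, ∀ G ∈ 𝒜.C n, dM n X' *ᵥ up G = 0 := by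
      intro n G hG
      have h3 := hX.2 n _ (hmem n G hG)
      rw [Matrix.mulVec_mulVec, ← dM_conj hXX, ← Matrix.mulVec_mulVec] at h3
      have h4 : pM n g *ᵥ (dM n X' *ᵥ up G) = pM n g *ᵥ 0 := by rw [h3, Matrix.mulVec_zero]
      exact pM_mulVec_injective hgg' n h4
    rw [Matrix.mulVec_mulVec, ← dM_conj hXX, ← Matrix.mulVec_mulVec,
      hann X' hkill _ F hF, Matrix.mulVec_zero]
  calc c * (finrank ℂ (𝓗 (2 * m)) : ℝ) ≤ c * finrank ℂ (𝒯.L (2 * m)) := by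
        refine mul_le_mul_of_nonneg_left ?_ hc.le
        exact_mod_cast h2
    _ ≤ finrank ℂ (𝒯.C (2 * m)) := hb m
    _ = finrank K (𝒜.C (2 * m)) := by rw [h1]

end Pool.Agent.Q67.TK
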