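import Pool.Agent.Q67.TK.Larsen

/-!
# The Casimir tensor
-/

set_option autoImplicit false
set_option linter.unusedSectionVars false

open Matrix Finset Module

namespace Pool.Agent.Q67.TK

variable {B : Type} [Fintype B] [DecidableEq B] {K : Type*} [Field K]

/-- The trace form on a space of matrices. -/
def trF (V : Submodule K (Matrix B B K)) : LinearMap.BilinForm K V :=
  LinearMap.mk₂ K (fun Y Z : V => ((Y : Matrix B B K) * (Z : Matrix B B K)).trace)
    (fun Y Y' Z => by simp [Matrix.add_mul, Matrix.trace_add])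
    (fun c Y Z => by simp [Matrix.trace_smul])
    (fun Y Z Z' => by simp [Matrix.mul_add, Matrix.trace_add])
    (fun c Y Z => by simp [Matrix.trace_smul])

lemma trF_apply (V : Submodule K (Matrix B B K)) (Y Z : V) :
    trF V Y Z = ((Y : Matrix B B K) * (Z : Matrix B B K)).trace := rfl

lemma trF_symm (V : Submodule K (Matrix B B K)) : (trF V).IsSymm :=
  ⟨fun Y Z => by
    rw [trF_apply, trF_apply, Matrix.trace_mul_comm]⟩

/-- dual bases for the trace form -/
lemma exists_dual {V : Submodule K (Matrix B B K)}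
    (hV : ∀ A ∈ V, A ≠ 0 → ∃ A' ∈ V, (A * A').trace ≠ 0) :
    ∃ (N : ℕ) (e e' : Fin N → Matrix B B K), (∀ i, e i ∈ V) ∧ (∀ i, e' i ∈ V) ∧
      (∀ i j, (e i * e' j).trace = if i = j then 1 else 0) ∧
      (∀ Y ∈ V, Y = ∑ i, (Y * e' i).trace • e i) ∧
      (∀ Y ∈ V, Y = ∑ i, (Y * e i).trace • e' i) ∧
      LinearIndependent K e' := by
  have hnd : (trF V).Nondegenerate := by
    refine (trF_symm V).isRefl.nondegenerate_iff_separatingLeft.2 fun Y hY => ?_
    by_contra h0
    obtain ⟨A', hA', h⟩ := hV Y Y.2 fun h => h0 (Subtype.ext h)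
    exact h (hY ⟨A', hA'⟩)
  set b := Module.finBasis K V
  set b' := (trF V).dualBasis hnd b
  have hbb : ∀ i j, trF V (b i) (b' j) = if i = j then 1 else 0 := fun i j =>
    LinearMap.BilinForm.apply_dualBasis_right hnd (trF_symm V) b i j
  have hb'b : ∀ i j, trF V (b' i) (b j) = if j = i then 1 else 0 := fun i j =>
    LinearMap.BilinForm.apply_dualBasis_left hnd b i j
  refine ⟨Module.finrank K V, fun i => b i, fun i => b' i, fun i => (b i).2, fun i => (b' i).2,
    fun i j => hbb i j, fun Y hY => ?_, fun Y hY => ?_, ?_⟩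
  · have h1 : (⟨Y, hY⟩ : V) = ∑ i, trF V ⟨Y, hY⟩ (b' i) • b i := by
      conv_lhs => rw [← b.sum_repr ⟨Y, hY⟩]
      refine Finset.sum_congr rfl fun i _ => ?_
      congr 1
      conv_rhs => rw [← b.sum_repr ⟨Y, hY⟩]
      rw [map_sum, LinearMap.sum_apply, Finset.sum_eq_single i]
      · rw [map_smul, LinearMap.smul_apply, hbb, if_pos rfl, smul_eq_mul, mul_one]
      · intro j _ hj
        rw [map_smul, LinearMap.smul_apply, hbb, if_neg hj, smul_zero]
      · intro h; exact absurd (Finset.mem_univ _) h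
    have h2 := congrArg Subtype.val h1
    simpa [trF_apply] using h2
  · have h1 : (⟨Y, hY⟩ : V) = ∑ i, trF V ⟨Y, hY⟩ (b i) • b' i := by
      conv_lhs => rw [← b'.sum_repr ⟨Y, hY⟩]
      refine Finset.sum_congr rfl fun i _ => ?_
      congr 1
      conv_rhs => rw [← b'.sum_repr ⟨Y, hY⟩]
      rw [map_sum, LinearMap.sum_apply, Finset.sum_eq_single i]
      · rw [map_smul, LinearMap.smul_apply, hb'b, if_pos rfl, smul_eq_mul, mul_one]
      · intro j _ hj
        rw [map_smul, LinearMap.smul_apply, hb'b, if_neg (Ne.symm hj), smul_zero]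
      · intro h; exact absurd (Finset.mem_univ _) h
    have h2 := congrArg Subtype.val h1
    simpa [trF_apply] using h2
  · exact b'.linearIndependent.map' V.subtype (by simp)

/-- The contraction of the first two positions with a functional. -/
def fc (φ : Matrix B B K →ₗ[K] K) (q : Matrix B B K) (T : (Fin (2 + 2) → B) → K) :
    (Fin 2 → B) → K :=
  fun J => φ ((Matrix.of fun i j => T (Fin.append ![i, j] J)) * q)

lemma fc_add (φ : Matrix B B K →ₗ[K] K) (q : Matrix B B K) (T T' : (Fin (2 + 2) → B) → K) :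
    fc φ q (T + T') = fc φ q T + fc φ q T' := by
  funext J
  simp only [fc, Pi.add_apply]
  rw [← map_add, ← Matrix.add_mul]
  rfl

lemma fc_zero (φ : Matrix B B K →ₗ[K] K) (q : Matrix B B K) : fc φ q 0 = 0 := by
  funext J
  simp only [fc, Pi.zero_apply]
  have : (Matrix.of fun (_ _ : B) => (0 : K)) = 0 := rfl
  rw [this, Matrix.zero_mul, map_zero]

lemma fc_sum (φ : Matrix B B K →ₗ[K] K) (q : Matrix B B K) {ι : Type*} (s : Finset ι)
    (T : ι → (Fin (2 + 2) → B) → K) : fc φ q (∑ i ∈ s, T i) = ∑ i ∈ s, fc φ q (T i) := by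
  classical
  induction s using Finset.induction_on with
  | empty => simp [fc_zero]
  | insert a s ha ih => rw [Finset.sum_insert ha, Finset.sum_insert ha, fc_add, ih]

lemma fc_tp (φ : Matrix B B K →ₗ[K] K) {q κ : Matrix B B K} (h : κ * q = 1) (Y : Matrix B B K)
    (G : (Fin 2 → B) → K) : fc φ q (tp (t2 (Y * κ)) G) = φ Y • G := by
  funext J
  simp only [fc, Pi.smul_apply, smul_eq_mul]
  have h1 : (Matrix.of fun i j => tp (t2 (Y * κ)) G (Fin.append ![i, j] J)) =
      G J • (Y * κ) := by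
    ext i j
    rw [Matrix.of_apply, tp_append, Matrix.smul_apply, smul_eq_mul, mul_comm]
    rfl
  rw [h1, Matrix.smul_mul, Matrix.mul_assoc, h, Matrix.mul_one, map_smul, smul_eq_mul, mul_comm]

lemma tp_sum_left {ι : Type*} {m n : ℕ} (s : Finset ι) (F : ι → (Fin m → B) → K)
    (G : (Fin n → B) → K) : tp (∑ i ∈ s, F i) G = ∑ i ∈ s, tp (F i) G := by
  funext I
  simp only [tp, Finset.sum_apply, Finset.sum_mul]

lemma tp_sum_right {ι : Type*} {m n : ℕ} (s : Finset ι) (F : (Fin m → B) → K)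
    (G : ι → (Fin n → B) → K) : tp F (∑ i ∈ s, G i) = ∑ i ∈ s, tp F (G i) := by
  funext I
  simp only [tp, Finset.sum_apply, Finset.mul_sum]

lemma tp_smul_left {m n : ℕ} (c : K) (F : (Fin m → B) → K) (G : (Fin n → B) → K) :
    tp (c • F) G = c • tp F G := by
  funext I
  simp only [tp, Pi.smul_apply, smul_eq_mul, mul_assoc]

lemma tp_smul_right {m n : ℕ} (c : K) (F : (Fin m → B) → K) (G : (Fin n → B) → K) :
    tp F (c • G) = c • tp F G := by
  funext I
  simp only [tp, Pi.smul_apply, smul_eq_mul]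
  ring

lemma t2_sum {ι : Type*} (s : Finset ι) (Y : ι → Matrix B B K) :
    t2 (∑ i ∈ s, Y i) = ∑ i ∈ s, t2 (Y i) := by
  funext I
  simp only [t2, Finset.sum_apply, Matrix.sum_apply]

lemma t2_smul (c : K) (Y : Matrix B B K) : t2 (c • Y) = c • t2 Y := rfl

/-- the Casimir tensor -/
def cas {N : ℕ} (e e' : Fin N → Matrix B B K) (κ : Matrix B B K) : (Fin (2 + 2) → B) → K :=
  ∑ i, tp (t2 (e i * κ)) (t2 (e' i * κ))

variable [Algebra K ℂ]

lemma dM_cas {N : ℕ} (e e' : Fin N → Matrix B B K) {κ X : Matrix B B K}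
    (h : X * κ + κ * Xᵀ = 0) :
    dM (2 + 2) X *ᵥ cas e e' κ = ∑ i, (tp (t2 ((X * e i - e i * X) * κ)) (t2 (e' i * κ)) +
      tp (t2 (e i * κ)) (t2 ((X * e' i - e' i * X) * κ))) := by
  rw [cas, Matrix.mulVec_sum]
  refine Finset.sum_congr rfl fun i _ => ?_
  rw [dM_tp, dM_t2_skew h, dM_t2_skew h]

lemma cas_mem {C : ∀ n, Submodule K ((Fin n → B) → K)} {κ : Matrix B B K} (hκ : t2 κ ∈ C 2)
    {N : ℕ} {e e' : Fin N → Matrix B B K} (he : ∀ i, e i ∈ Ann C) (he' : ∀ i, e' i ∈ Ann C)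
    (h1 : ∀ Y ∈ Ann C, Y = ∑ i, (Y * e' i).trace • e i)
    (h2 : ∀ Y ∈ Ann C, Y = ∑ i, (Y * e i).trace • e' i) {X : Matrix B B K} (hX : X ∈ Ann C) :
    dM (2 + 2) X *ᵥ cas e e' κ = 0 := by
  rw [dM_cas e e' (skew_of_Ann hκ hX), Finset.sum_add_distrib]
  have e1 : ∑ i, tp (t2 ((X * e i - e i * X) * κ)) (t2 (e' i * κ)) =
      ∑ i, ∑ j, ((X * e i - e i * X) * e' j).trace • tp (t2 (e j * κ)) (t2 (e' i * κ)) := by
    refine Finset.sum_congr rfl fun i _ => ?_
    conv_lhs => rw [h1 _ (Ann_bracket hX (he i))]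
    rw [Finset.sum_mul, t2_sum, tp_sum_left]
    refine Finset.sum_congr rfl fun j _ => ?_
    rw [Matrix.smul_mul, t2_smul, tp_smul_left]
  have e2 : ∑ i, tp (t2 (e i * κ)) (t2 ((X * e' i - e' i * X) * κ)) =
      ∑ i, ∑ j, ((X * e' i - e' i * X) * e j).trace • tp (t2 (e i * κ)) (t2 (e' j * κ)) := by
    refine Finset.sum_congr rfl fun i _ => ?_
    conv_lhs => rw [h2 _ (Ann_bracket hX (he' i))]
    rw [Finset.sum_mul, t2_sum, tp_sum_right]
    refine Finset.sum_congr rfl fun j _ => ?_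
    rw [Matrix.smul_mul, t2_smul, tp_smul_right]
  rw [e1, e2, Finset.sum_comm, ← Finset.sum_add_distrib]
  refine Finset.sum_eq_zero fun i _ => ?_
  rw [← Finset.sum_add_distrib]
  refine Finset.sum_eq_zero fun j _ => ?_
  rw [← add_smul]
  have : ((X * e j - e j * X) * e' i).trace + ((X * e' i - e' i * X) * e j).trace = 0 := by
    rw [Matrix.sub_mul, Matrix.sub_mul, Matrix.trace_sub, Matrix.trace_sub]
    have t1 : (e j * X * e' i).trace = (X * e' i * e j).trace := by
      rw [Matrix.mul_assoc, Matrix.trace_mul_comm]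
    have t2 : (e' i * X * e j).trace = (X * e j * e' i).trace := by
      rw [Matrix.mul_assoc, Matrix.trace_mul_comm]
    rw [t1, t2]
    ring
  rw [this, zero_smul]

/-- The Casimir tensor detects the normaliser. -/
lemma bracket_mem {V : Submodule K (Matrix B B K)} {q κ : Matrix B B K} (hκq : κ * q = 1)
    {N : ℕ} {e e' : Fin N → Matrix B B K} (he : ∀ i, e i ∈ V)
    (h1 : ∀ Y ∈ V, Y = ∑ i, (Y * e' i).trace • e i) (hind : LinearIndependent K e')
    {X : Matrix B B K} (hX : X * κ + κ * Xᵀ = 0) (h : dM (2 + 2) X *ᵥ cas e e' κ = 0) :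
    ∀ Y ∈ V, X * Y - Y * X ∈ V := by
  have key : ∀ i, X * e i - e i * X ∈ V := by
    intro i
    by_contra hi
    obtain ⟨φ, hφ, hφV⟩ := Submodule.exists_le_ker_of_notMem hi
    rw [dM_cas e e' hX] at h
    have h3 := congrArg (fc φ q) h
    rw [fc_zero, fc_sum] at h3
    have h4 : ∑ j, φ (X * e j - e j * X) • t2 (e' j * κ) = 0 := by
      rw [← h3]
      refine Finset.sum_congr rfl fun j _ => ?_
      rw [fc_add, fc_tp φ hκq, fc_tp φ hκq]
      have : φ (e j) = 0 := hφV (he j)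
      rw [this, zero_smul, add_zero]
    have h5 : (∑ j, φ (X * e j - e j * X) • e' j) * κ = 0 := by
      apply t2_injective
      rw [Finset.sum_mul, t2_sum, t2_zero, ← h4]
      refine Finset.sum_congr rfl fun j _ => ?_
      rw [Matrix.smul_mul, t2_smul]
    have h6 : ∑ j, φ (X * e j - e j * X) • e' j = 0 := by
      have := congrArg (· * q) h5
      simpa [Matrix.mul_assoc, hκq] using this
    exact hφ (Fintype.linearIndependent_iff.1 hind _ h6 i)
  intro Y hY
  rw [h1 Y hY]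
  have : X * ∑ i, (Y * e' i).trace • e i - (∑ i, (Y * e' i).trace • e i) * X =
      ∑ i, (Y * e' i).trace • (X * e i - e i * X) := by
    rw [Finset.mul_sum, Finset.sum_mul, ← Finset.sum_sub_distrib]
    refine Finset.sum_congr rfl fun i _ => ?_
    rw [Matrix.mul_smul, Matrix.smul_mul, smul_sub]
  rw [this]
  exact Submodule.sum_mem _ fun i _ => Submodule.smul_mem _ _ (key i)

lemma tp_eq_zero {m n : ℕ} {F : (Fin m → B) → K} {G : (Fin n → B) → K} (h : tp F G = 0)
    (hG : G ≠ 0) : F = 0 := by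
  obtain ⟨J, hJ⟩ := Function.ne_iff.1 hG
  funext I
  have h1 := congrFun h (Fin.append I J)
  rw [tp_append] at h1
  exact (mul_eq_zero.1 h1).resolve_right hJ

open scoped ComplexOrder in
/-- **Tensors of degree four determine the Lie algebra up to its central part.** -/
theorem larsen {z C C' : Matrix B B ℂ} {q κ : Matrix B B K}
    (hK : ∀ r : K, star (algebraMap K ℂ r) = algebraMap K ℂ r)
    (hC : C' * C = 1) (hfix : ∀ n, ∀ F ∈ Ker (K := K) (B := B) z n, pM n C *ᵥ up F = up F)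
    (hqκ : q * κ = 1) (hpos : (Cᵀ * upM q).PosDef)
    {𝒜 : ∀ n, Submodule K ((Fin n → B) → K)} (hle : ∀ n, 𝒜 n ≤ Ker z n) (hκ : t2 κ ∈ 𝒜 2)
    (h4 : ∀ A ∈ Ann 𝒜, ∀ F ∈ Ker (K := K) z (2 + 2), dM (2 + 2) A *ᵥ F = 0)
    (hZ : ∀ Y : Matrix B B K, Y ∈ Ann 𝒜 → t2 (Y * κ) ∈ Ker (K := K) z 2 →
      (∀ Y' : Matrix B B K, t2 (Y' * κ) ∈ Ker (K := K) z 2 → Y * Y' = Y' * Y) →
      Y ∈ Ann (Ker (K := K) z)) : Ann 𝒜 ≤ Ann (Ker (K := K) z) := by
  have hκq : κ * q = 1 := mul_eq_one_comm.1 hqκ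
  have hκz : t2 κ ∈ Ker (K := K) z 2 := hle 2 hκ
  have h2 : ∀ A ∈ Ann 𝒜, ∀ F ∈ Ker (K := K) z 2, dM 2 A *ᵥ F = 0 := by
    intro A hA F hF
    by_cases h0 : t2 κ = (0 : (Fin 2 → B) → K)
    · have hκ0 : κ = 0 := t2_injective (h0.trans t2_zero.symm)
      have h10 : (1 : Matrix B B K) = 0 := by rw [← hqκ, hκ0, Matrix.mul_zero]
      have h11 : ∀ b : B, False := fun b => by
        have := congrFun (congrFun h10 b) b
        rw [Matrix.one_apply_eq] at this
        exact one_ne_zero this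
      funext I
      exact (h11 (I 0)).elim
    · have hz4 : tp F (t2 κ) ∈ Ker (K := K) z (2 + 2) := by
        refine mem_Ker_of fun X hX => ?_
        rw [dM_tp, hX 2 _ hF, hX 2 _ hκz]
        funext I
        simp [tp]
      have h5 := h4 A hA _ hz4
      rw [dM_tp, hA 2 _ hκ] at h5
      have h6 : tp F (0 : (Fin 2 → B) → K) = 0 := by funext I; simp [tp]
      rw [h6, add_zero] at h5
      exact tp_eq_zero h5 h0
  obtain ⟨N, e, e', he, he', hdual, hexp, hexp', hind⟩ := exists_dual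
    (V := Ann (Ker (K := K) z)) fun A hA hA0 => nondeg hK hC hfix hqκ hκz hpos hA hA0
  have hmono : Ann (Ker (K := K) z) ≤ Ann 𝒜 := fun A hA n F hF => hA n F (hle n hF)
  have hcas : cas e e' κ ∈ Ker (K := K) z (2 + 2) :=
    mem_Ker_of fun A hA => cas_mem hκz he he' hexp hexp' hA
  intro A hA
  have hAskew : A * κ + κ * Aᵀ = 0 := skew_of_Ann hκ hA
  have hAm : ∀ Y ∈ Ann (Ker (K := K) z), A * Y - Y * A ∈ Ann (Ker (K := K) z) :=
    bracket_mem hκq he hexp hind hAskew (h4 A hA _ hcas)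
  set A1 : Matrix B B K := ∑ i, (A * e' i).trace • e i with hA1
  have hA1m : A1 ∈ Ann (Ker (K := K) z) :=
    Submodule.sum_mem _ fun i _ => Submodule.smul_mem _ _ (he i)
  set A2 := A - A1 with hA2
  have horth : ∀ Y ∈ Ann (Ker (K := K) z), (A2 * Y).trace = 0 := by
    have h5 : ∀ j, (A2 * e' j).trace = 0 := by
      intro j
      rw [hA2, Matrix.sub_mul, Matrix.trace_sub, hA1, Finset.sum_mul, Matrix.trace_sum]
      simp only [Matrix.smul_mul, Matrix.trace_smul, hdual, smul_eq_mul]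
      simp
    intro Y hY
    rw [hexp' Y hY, Finset.mul_sum, Matrix.trace_sum]
    refine Finset.sum_eq_zero fun j _ => ?_
    rw [Matrix.mul_smul, Matrix.trace_smul, h5, smul_zero]
  have hA2m : ∀ Y ∈ Ann (Ker (K := K) z), A2 * Y - Y * A2 ∈ Ann (Ker (K := K) z) := by
    intro Y hY
    have : A2 * Y - Y * A2 = (A * Y - Y * A) - (A1 * Y - Y * A1) := by
      rw [hA2, Matrix.sub_mul, Matrix.mul_sub]
      abel
    rw [this]
    exact Submodule.sub_mem _ (hAm Y hY) (Ann_bracket hA1m hY)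
  have hcomm : ∀ Y ∈ Ann (Ker (K := K) z), A2 * Y - Y * A2 = 0 := by
    intro Y hY
    by_contra hne
    obtain ⟨Z, hZm, hZt⟩ := nondeg hK hC hfix hqκ hκz hpos (hA2m Y hY) hne
    apply hZt
    rw [Matrix.sub_mul, Matrix.trace_sub]
    have t1 : (Y * A2 * Z).trace = (A2 * (Z * Y)).trace := by
      rw [Matrix.mul_assoc, Matrix.trace_mul_comm, Matrix.mul_assoc]
    rw [t1, Matrix.mul_assoc, ← Matrix.trace_sub, ← Matrix.mul_sub]
    exact horth _ (Ann_bracket hY hZm)
  have hA2K : t2 (A2 * κ) ∈ Ker (K := K) z 2 := by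
    refine mem_Ker_of fun Y hY => ?_
    rw [dM_t2_skew (skew_of_Ann hκz hY)]
    have : Y * A2 - A2 * Y = 0 := by
      rw [← neg_sub, hcomm Y hY, neg_zero]
    rw [this, Matrix.zero_mul, t2_zero]
  have hA2A : A2 ∈ Ann 𝒜 := Submodule.sub_mem _ hA (hmono hA1m)
  have hcent : ∀ Y' : Matrix B B K, t2 (Y' * κ) ∈ Ker (K := K) z 2 → A2 * Y' = Y' * A2 := by
    intro Y' hY'
    have h5 := h2 A2 hA2A _ hY'
    rw [dM_t2_skew (skew_of_Ann hκ hA2A)] at h5
    have h6 : (A2 * Y' - Y' * A2) * κ = 0 := t2_injective h5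
    have h7 := congrArg (· * q) h6
    simp only [Matrix.mul_assoc _ κ q, hκq, Matrix.mul_one, Matrix.zero_mul] at h7
    exact sub_eq_zero.1 h7
  have h8 := hZ A2 hA2A hA2K hcent
  have h9 : A = A2 + A1 := by rw [hA2, sub_add_cancel]
  rw [h9]
  exact Submodule.add_mem _ h8 hA1m

end Pool.Agent.Q67.TK
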