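import Pool.Agent.Q67.TK.Mat

/-!
# Averages over compact groups
-/

set_option autoImplicit false
set_option linter.unusedSectionVars false

open Matrix Finset MeasureTheory Module

namespace Pool.Agent.Q67.TK

section gen

variable {G : Type*} [Group G] [TopologicalSpace G] [IsTopologicalGroup G] [CompactSpace G]
  [MeasurableSpace G] [BorelSpace G] (μ : Measure G) [IsFiniteMeasureOnCompacts μ]
  {S : Type*} [Fintype S] [DecidableEq S]

lemma cont_int {f : G → ℂ} (hf : Continuous f) : Integrable f μ :=
  hf.integrable_of_hasCompactSupport (HasCompactSupport.of_compactSpace f)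

/-- The integral of a matrix valued function over a subset. -/
noncomputable def avg (K : Set G) (ρ : G → Matrix S S ℂ) : Matrix S S ℂ :=
  fun i j => ∫ u in K, ρ u i j ∂μ

/-- The vectors fixed by the elements of `K`. -/
def fix (K : Set G) (ρ : G → Matrix S S ℂ) : Submodule ℂ (S → ℂ) where
  carrier := {F | ∀ u ∈ K, ρ u *ᵥ F = F}
  add_mem' := by
    intro F F' h h' u hu
    rw [Matrix.mulVec_add, h u hu, h' u hu]
  zero_mem' := fun u _ => Matrix.mulVec_zero _
  smul_mem' := by
    intro c F h u hu
    rw [Matrix.mulVec_smul, h u hu]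

lemma mem_fix {K : Set G} {ρ : G → Matrix S S ℂ} {F : S → ℂ} :
    F ∈ fix K ρ ↔ ∀ u ∈ K, ρ u *ᵥ F = F := Iff.rfl

variable {ρ : G →* Matrix S S ℂ} (hρ : Continuous ρ) (K : Subgroup G)
  (hK : MeasurableSet (K : Set G))

include hρ in
lemma cont_entry (i j : S) : Continuous fun u => ρ u i j :=
  (continuous_apply j).comp ((continuous_apply i).comp hρ)

include hK in
lemma setIntegral_mul [μ.IsMulLeftInvariant] (f : G → ℂ) {v : G} (hv : v ∈ K) :
    ∫ u in K, f (v * u) ∂μ = ∫ u in K, f u ∂μ := by
  rw [← integral_indicator hK, ← integral_indicator hK]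
  have h : (fun u => (K : Set G).indicator (fun u => f (v * u)) u) =
      fun u => (K : Set G).indicator f (v * u) := by
    funext u
    by_cases hu : u ∈ K
    · rw [Set.indicator_of_mem (by exact hu), Set.indicator_of_mem (by exact K.mul_mem hv hu)]
    · rw [Set.indicator_of_notMem (by exact hu), Set.indicator_of_notMem]
      intro h
      exact hu ((K.mul_mem_cancel_left hv).1 h)
  change ∫ u, (fun u => (K : Set G).indicator (fun u => f (v * u)) u) u ∂μ = _
  rw [h]
  exact integral_mul_left_eq_self _ v

include hρ hK in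
lemma mul_avg [μ.IsMulLeftInvariant] {v : G} (hv : v ∈ K) :
    ρ v * avg μ K ρ = avg μ K ρ := by
  ext i j
  rw [Matrix.mul_apply]
  simp only [avg]
  rw [← setIntegral_mul μ K hK (fun u => ρ u i j) hv]
  have h : ∀ u, ρ (v * u) i j = ∑ l, ρ v i l * ρ u l j := fun u => by
    rw [map_mul, Matrix.mul_apply]
  simp only [h]
  rw [integral_finsetSum _ fun l _ =>
    (((cont_int μ (cont_entry hρ l j)).const_mul _).integrableOn)]
  exact Finset.sum_congr rfl fun l _ => (integral_const_mul _ _).symm

include hρ hK in
/-- The trace of the average is the dimension of the space of fixed vectors. -/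
theorem trace_avg [μ.IsMulLeftInvariant] (hpos : 0 < μ.real K) :
    ∫ u in K, (ρ u).trace ∂μ = μ.real K * (finrank ℂ (fix K ρ) : ℂ) := by
  set c : ℂ := ((μ.real K : ℝ) : ℂ) with hc
  have hc0 : c ≠ 0 := by
    rw [hc]; exact_mod_cast hpos.ne'
  set Q : Matrix S S ℂ := c⁻¹ • avg μ K ρ with hQ
  have hproj : LinearMap.IsProj (fix (K : Set G) ρ) (Matrix.toLin' Q) := by
    constructor
    · intro x u hu
      rw [Matrix.toLin'_apply, Matrix.mulVec_mulVec, hQ, Matrix.mul_smul,
        mul_avg μ hρ K hK hu]
    · intro x hx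
      rw [Matrix.toLin'_apply]
      funext i
      rw [hQ, Matrix.smul_mulVec, Pi.smul_apply]
      have h1 : (avg μ K ρ *ᵥ x) i = ∫ u in K, (ρ u *ᵥ x) i ∂μ := by
        simp only [Matrix.mulVec, dotProduct, avg]
        rw [integral_finsetSum _ fun l _ =>
          (((cont_int μ (cont_entry hρ i l)).mul_const _).integrableOn)]
        exact Finset.sum_congr rfl fun l _ => (integral_mul_const _ _).symm
      rw [h1, setIntegral_congr_fun (g := fun _ => x i) hK
        (fun u hu => congrFun (hx u hu) i), setIntegral_const, smul_eq_mul,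
        Complex.real_smul, ← hc, ← mul_assoc, inv_mul_cancel₀ hc0, one_mul]
  have htr := hproj.trace
  rw [Matrix.trace_toLin'_eq, hQ, Matrix.trace_smul, smul_eq_mul] at htr
  have h2 : (avg μ K ρ).trace = ∫ u in K, (ρ u).trace ∂μ := by
    simp only [Matrix.trace, Matrix.diag_apply, avg]
    rw [integral_finsetSum _ fun l _ => ((cont_int μ (cont_entry hρ l l)).integrableOn)]
  rw [← h2, ← htr, ← mul_assoc, mul_inv_cancel₀ hc0, one_mul]

end gen

section unitary

variable {B : Type*} [Fintype B] [DecidableEq B]

lemma isCompact_box : IsCompact {A : Matrix B B ℂ | ∀ i j, A i j ∈ Metric.closedBall (0 : ℂ) 1} := by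
  have h : IsCompact (Set.pi Set.univ fun _ : B => Set.pi Set.univ fun _ : B =>
      Metric.closedBall (0 : ℂ) 1) :=
    isCompact_univ_pi fun _ => isCompact_univ_pi fun _ => isCompact_closedBall _ _
  have e : {A : Matrix B B ℂ | ∀ i j, A i j ∈ Metric.closedBall (0 : ℂ) 1} =
      Set.pi Set.univ fun _ : B => Set.pi Set.univ fun _ : B => Metric.closedBall (0 : ℂ) 1 := by
    ext A
    constructor
    · intro h i _ j _
      exact h i j
    · intro h i j
      exact h i (Set.mem_univ _) j (Set.mem_univ _)
  rw [e]
  exact h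

lemma isCompact_unitary : IsCompact (unitary (Matrix B B ℂ) : Set (Matrix B B ℂ)) := by
  refine isCompact_box.of_isClosed_subset isClosed_unitary ?_
  intro u hu i j
  rw [mem_closedBall_zero_iff]
  exact entry_norm_bound_of_unitary hu i j

instance instCompactUnitary : CompactSpace (unitary (Matrix B B ℂ)) :=
  isCompact_iff_compactSpace.1 isCompact_unitary

noncomputable instance : MeasurableSpace (unitary (Matrix B B ℂ)) := borel _

instance : BorelSpace (unitary (Matrix B B ℂ)) := ⟨rfl⟩

end unitary

end Pool.Agent.Q67.TK
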