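import Pool.Agent.Q67.TK.Index

/-!
# Rational structures
-/

set_option autoImplicit false
set_option linter.unusedSectionVars false

open Matrix Finset Module

namespace Pool.Agent.Q67.TK

variable {B : Type} [Fintype B] [DecidableEq B] {K : Type*} [Field K] [Algebra K ℂ]

/-- a function with values in `K` as a complex function -/
def up {S : Type*} (F : S → K) : S → ℂ := fun I => algebraMap K ℂ (F I)

/-- a matrix with entries in `K` as a complex matrix -/
def upM {S S' : Type*} (A : Matrix S S' K) : Matrix S S' ℂ := A.map (algebraMap K ℂ)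

lemma upM_apply {S S' : Type*} (A : Matrix S S' K) (i : S) (j : S') :
    upM A i j = algebraMap K ℂ (A i j) := rfl

lemma upM_mul {S S' S'' : Type*} [Fintype S'] (A : Matrix S S' K) (A' : Matrix S' S'' K) :
    upM (A * A') = upM A * upM A' := Matrix.map_mul

lemma up_mulVec {S S' : Type*} [Fintype S'] (A : Matrix S S' K) (F : S' → K) :
    up (A *ᵥ F) = upM A *ᵥ up F := by
  funext i
  simp only [up, Matrix.mulVec, dotProduct, upM_apply, map_sum, map_mul]

lemma up_injective {S : Type*} {F G : S → K} (h : up F = up G) : F = G :=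
  funext fun I => (algebraMap K ℂ).injective (congrFun h I)

lemma up_zero {S : Type*} : up (0 : S → K) = 0 := funext fun _ => map_zero _

lemma upM_dM (n : ℕ) (A : Matrix B B K) : upM (dM n A) = dM n (upM A) := by
  ext I J
  simp only [upM_apply, dM, map_sum, map_mul, map_prod]
  refine Finset.sum_congr rfl fun k _ => ?_
  congr 1
  refine Finset.prod_congr rfl fun l _ => ?_
  rw [Matrix.one_apply, Matrix.one_apply]
  split_ifs <;> simp

lemma upM_pM (n : ℕ) (A : Matrix B B K) : upM (pM n A) = pM n (upM A) := by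
  ext I J
  simp only [upM_apply, pM_apply, map_prod]

/-- a complex function mapped by a `K`-linear functional -/
def dn {S : Type*} (l : ℂ →ₗ[K] K) (F : S → ℂ) : S → K := fun I => l (F I)

/-- a complex matrix mapped by a `K`-linear functional -/
def dnM {S S' : Type*} (l : ℂ →ₗ[K] K) (A : Matrix S S' ℂ) : Matrix S S' K := A.map l

lemma dnM_apply {S S' : Type*} (l : ℂ →ₗ[K] K) (A : Matrix S S' ℂ) (i : S) (j : S') :
    dnM l A i j = l (A i j) := rfl

lemma l_mul (l : ℂ →ₗ[K] K) (a : ℂ) (r : K) : l (a * algebraMap K ℂ r) = l a * r := by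
  rw [mul_comm a, ← Algebra.smul_def, map_smul, smul_eq_mul, mul_comm]

lemma l_mul' (l : ℂ →ₗ[K] K) (a : ℂ) (r : K) : l (algebraMap K ℂ r * a) = r * l a := by
  rw [← Algebra.smul_def, map_smul, smul_eq_mul]

lemma dn_dM (l : ℂ →ₗ[K] K) (n : ℕ) (X : Matrix B B ℂ) (F : (Fin n → B) → K) :
    dn l (dM n X *ᵥ up F) = dM n (dnM l X) *ᵥ F := by
  funext I
  simp only [dn, dM_mulVec, map_sum, dnM_apply, up, l_mul]

lemma exists_functional {a : ℂ} (ha : a ≠ 0) : ∃ l : ℂ →ₗ[K] K, l a ≠ 0 := by
  by_contra h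
  push Not at h
  exact ha ((Module.forall_dual_apply_eq_zero_iff K a).1 h)

lemma eq_zero_of_dn {S : Type*} {F : S → ℂ} (h : ∀ l : ℂ →ₗ[K] K, dn l F = 0) : F = 0 := by
  funext I
  by_contra hI
  obtain ⟨l, hl⟩ := exists_functional (K := K) hI
  exact hl (congrFun (h l) I)

/-- the annihilator -/
def Ann (C : ∀ n, Submodule K ((Fin n → B) → K)) : Submodule K (Matrix B B K) where
  carrier := {A | ∀ n, ∀ F ∈ C n, dM n A *ᵥ F = 0}
  add_mem' := by
    intro A A' hA hA' n F hF
    rw [dM_add, Matrix.add_mulVec, hA n F hF, hA' n F hF, add_zero]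
  zero_mem' := fun n F _ => by rw [dM_zero, Matrix.zero_mulVec]
  smul_mem' := by
    intro c A hA n F hF
    rw [dM_smul, Matrix.smul_mulVec, hA n F hF, smul_zero]

lemma mem_Ann {C : ∀ n, Submodule K ((Fin n → B) → K)} {A : Matrix B B K} :
    A ∈ Ann C ↔ ∀ n, ∀ F ∈ C n, dM n A *ᵥ F = 0 := Iff.rfl

/-- A complex matrix which kills all tensors of the system has its components in the
annihilator. -/
lemma dnM_mem_Ann {C : ∀ n, Submodule K ((Fin n → B) → K)} {X : Matrix B B ℂ}
    (h : ∀ n, ∀ F ∈ C n, dM n X *ᵥ up F = 0) (l : ℂ →ₗ[K] K) : dnM l X ∈ Ann C := by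
  intro n F hF
  rw [← dn_dM, h n F hF]
  funext I
  exact map_zero l

lemma kill_of_Ann {C : ∀ n, Submodule K ((Fin n → B) → K)} {X : Matrix B B ℂ}
    (hX : ∀ l : ℂ →ₗ[K] K, dnM l X ∈ Ann C) {n : ℕ} {F : (Fin n → B) → K} (hF : F ∈ C n) :
    dM n X *ᵥ up F = 0 :=
  eq_zero_of_dn fun l => by rw [dn_dM]; exact hX l n F hF

/-- The tensors killed by a complex matrix. -/
def Ker (z : Matrix B B ℂ) (n : ℕ) : Submodule K ((Fin n → B) → K) where
  carrier := {F | dM n z *ᵥ up F = 0}
  add_mem' := by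
    intro F G hF hG
    have : up (F + G) = up F + up G := funext fun I => map_add _ _ _
    change dM n z *ᵥ up (F + G) = 0
    rw [this, Matrix.mulVec_add, hF, hG, add_zero]
  zero_mem' := by
    change dM n z *ᵥ up (0 : (Fin n → B) → K) = 0
    rw [up_zero, Matrix.mulVec_zero]
  smul_mem' := by
    intro c F hF
    have : up (c • F) = (algebraMap K ℂ c) • up F := funext fun I => map_mul _ _ _
    change dM n z *ᵥ up (c • F) = 0
    rw [this, Matrix.mulVec_smul, hF, smul_zero]

lemma mem_Ker {z : Matrix B B ℂ} {n : ℕ} {F : (Fin n → B) → K} :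
    F ∈ Ker (K := K) z n ↔ dM n z *ᵥ up F = 0 := Iff.rfl

/-- A tensor killed by the annihilator of `Ker z` belongs to `Ker z`. -/
lemma mem_Ker_of {z : Matrix B B ℂ} {n : ℕ} {F : (Fin n → B) → K}
    (h : ∀ A ∈ Ann (Ker (K := K) z), dM n A *ᵥ F = 0) : F ∈ Ker (K := K) z n := by
  refine eq_zero_of_dn (K := K) fun l => ?_
  rw [dn_dM]
  exact h _ (dnM_mem_Ann (fun n F hF => hF) l)

end Pool.Agent.Q67.TK
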