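import Pool.Agent.Q67.TK.Tannaka

/-!
# Operators on the positions of a tensor
-/

set_option autoImplicit false
set_option linter.unusedSectionVars false

open Matrix Finset Module

namespace Pool.Agent.Q67.TK

variable {B : Type*} [Fintype B] [DecidableEq B] {R : Type*} [CommRing R] {n : ℕ}

/-- The tensor product of matrices. -/
def gM (A : Fin n → Matrix B B R) : Matrix (Fin n → B) (Fin n → B) R :=
  fun I J => ∏ k, A k (I k) (J k)

lemma gM_mul (A A' : Fin n → Matrix B B R) : gM A * gM A' = gM fun k => A k * A' k := by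
  ext I J
  rw [Matrix.mul_apply]
  simp only [gM, Matrix.mul_apply, ← Finset.prod_mul_distrib]
  rw [Finset.prod_univ_sum]
  simp only [Fintype.piFinset_univ]

lemma gM_const (u : Matrix B B R) : gM (fun _ : Fin n => u) = pM n u := rfl

/-- The operator `X` at the position `k`. -/
def oM (k : Fin n) (X : Matrix B B R) : Matrix (Fin n → B) (Fin n → B) R :=
  gM (Function.update (fun _ => 1) k X)

lemma dM_eq (X : Matrix B B R) : dM n X = ∑ k, oM k X := by
  ext I J
  rw [Matrix.sum_apply]
  simp only [dM, oM, gM]
  refine Finset.sum_congr rfl fun k _ => ?_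
  rw [← Finset.mul_prod_erase univ _ (Finset.mem_univ k), Function.update_self]
  congr 1
  refine Finset.prod_congr rfl fun l hl => ?_
  rw [Function.update_of_ne (Finset.ne_of_mem_erase hl)]

lemma oM_mul (k : Fin n) (X Y : Matrix B B R) : oM k X * oM k Y = oM k (X * Y) := by
  rw [oM, oM, gM_mul, oM]
  congr 1
  funext l
  by_cases h : l = k
  · subst h; simp
  · simp [Function.update_of_ne h]

lemma oM_comm {k l : Fin n} (h : k ≠ l) (X Y : Matrix B B R) : oM k X * oM l Y = oM l Y * oM k X := by
  rw [oM, oM, gM_mul, gM_mul]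
  congr 1
  funext j
  by_cases hk : j = k
  · subst hk
    rw [Function.update_self, Function.update_of_ne h, mul_one, one_mul]
  · rw [Function.update_of_ne hk, one_mul, mul_one]

lemma oM_apply (k : Fin n) (X : Matrix B B R) (I J : Fin n → B) :
    oM k X I J = X (I k) (J k) * ∏ l ∈ univ.erase k, (1 : Matrix B B R) (I l) (J l) := by
  simp only [oM, gM]
  rw [← Finset.mul_prod_erase univ _ (Finset.mem_univ k), Function.update_self]
  congr 1
  refine Finset.prod_congr rfl fun l hl => ?_
  rw [Function.update_of_ne (Finset.ne_of_mem_erase hl)]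

lemma oM_sub (k : Fin n) (X Y : Matrix B B R) : oM k (X - Y) = oM k X - oM k Y := by
  ext I J
  rw [Matrix.sub_apply, oM_apply, oM_apply, oM_apply, Matrix.sub_apply, sub_mul]

/-- The derivations form a Lie algebra. -/
lemma dM_bracket (X Y : Matrix B B R) :
    dM n (X * Y - Y * X) = dM n X * dM n Y - dM n Y * dM n X := by
  have h1 : dM n X * dM n Y = ∑ k, ∑ l, oM (n := n) k X * oM l Y := by
    rw [dM_eq, dM_eq, Finset.sum_mul_sum]
  have h2 : dM n Y * dM n X = ∑ k, ∑ l, oM (n := n) l Y * oM k X := by
    rw [dM_eq, dM_eq, Finset.sum_mul_sum, Finset.sum_comm]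
  rw [h1, h2, ← Finset.sum_sub_distrib, dM_eq]
  refine Finset.sum_congr rfl fun k _ => ?_
  rw [← Finset.sum_sub_distrib, Finset.sum_eq_single k]
  · rw [oM_mul, oM_mul, oM_sub]
  · intro l _ hl
    rw [oM_comm (Ne.symm hl), sub_self]
  · intro h; exact absurd (Finset.mem_univ _) h

lemma oM_conj (k : Fin n) {g X Y : Matrix B B R} (h : g * X = Y * g) :
    pM n g * oM k X = oM k Y * pM n g := by
  rw [← gM_const, oM, oM, gM_mul, gM_mul]
  congr 1
  funext l
  by_cases hl : l = k
  · subst hl; simpa using h
  · rw [Function.update_of_ne hl, Function.update_of_ne hl, mul_one, one_mul]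

/-- Conjugation of derivations. -/
lemma dM_conj {g X Y : Matrix B B R} (h : g * X = Y * g) :
    pM n g * dM n X = dM n Y * pM n g := by
  rw [dM_eq, dM_eq, Finset.mul_sum, Finset.sum_mul]
  exact Finset.sum_congr rfl fun k _ => oM_conj k h

/-- The Leibniz rule. -/
lemma dM_tp {m n : ℕ} (X : Matrix B B R) (F : (Fin m → B) → R) (G : (Fin n → B) → R) :
    dM (m + n) X *ᵥ tp F G = tp (dM m X *ᵥ F) G + tp F (dM n X *ᵥ G) := by
  funext I
  rw [dM_mulVec, Fin.sum_univ_add, Pi.add_apply]
  congr 1
  · simp only [tp]
    rw [dM_mulVec, Finset.sum_mul]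
    refine Finset.sum_congr rfl fun k _ => ?_
    rw [Finset.sum_mul]
    refine Finset.sum_congr rfl fun c _ => ?_
    have h1 : (fun l => Function.update I (Fin.castAdd n k) c (Fin.castAdd n l)) =
        Function.update (fun l => I (Fin.castAdd n l)) k c := by
      funext l
      by_cases h : l = k
      · subst h; simp
      · rw [Function.update_of_ne h, Function.update_of_ne]
        intro h'
        exact h (Fin.castAdd_injective _ _ h')
    have h2 : (fun l => Function.update I (Fin.castAdd n k) c (Fin.natAdd m l)) =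
        fun l => I (Fin.natAdd m l) := by
      funext l
      rw [Function.update_of_ne]
      intro h'
      have := congrArg Fin.val h'
      simp at this
      omega
    rw [h1, h2]
    ring
  · simp only [tp]
    rw [dM_mulVec, Finset.mul_sum]
    refine Finset.sum_congr rfl fun k _ => ?_
    rw [Finset.mul_sum]
    refine Finset.sum_congr rfl fun c _ => ?_
    have h1 : (fun l => Function.update I (Fin.natAdd m k) c (Fin.natAdd m l)) =
        Function.update (fun l => I (Fin.natAdd m l)) k c := by
      funext l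
      by_cases h : l = k
      · subst h; simp
      · rw [Function.update_of_ne h, Function.update_of_ne]
        intro h'
        exact h (Fin.natAdd_injective _ _ h')
    have h2 : (fun l => Function.update I (Fin.natAdd m k) c (Fin.castAdd n l)) =
        fun l => I (Fin.castAdd n l) := by
      funext l
      rw [Function.update_of_ne]
      intro h'
      have := congrArg Fin.val h'
      simp at this
      omega
    rw [h1, h2]
    ring

/-- A matrix as a tensor. -/
def t2 (Y : Matrix B B R) : (Fin 2 → B) → R := fun I => Y (I 0) (I 1)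

lemma t2_injective {Y Z : Matrix B B R} (h : t2 Y = t2 Z) : Y = Z := by
  ext i j
  exact congrFun h ![i, j]

lemma dM_t2 (X Y : Matrix B B R) : dM 2 X *ᵥ t2 Y = t2 (X * Y + Y * Xᵀ) := by
  funext I
  rw [dM_mulVec, Fin.sum_univ_two]
  have h1 : ∀ c, t2 Y (Function.update I 0 c) = Y c (I 1) := fun c => by simp [t2]
  have h2 : ∀ c, t2 Y (Function.update I 1 c) = Y (I 0) c := fun c => by simp [t2]
  simp only [h1, h2]
  simp only [t2, Matrix.add_apply, Matrix.mul_apply, Matrix.transpose_apply]
  congr 1
  exact Finset.sum_congr rfl fun c _ => mul_comm _ _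

lemma t2_add (Y Z : Matrix B B R) : t2 (Y + Z) = t2 Y + t2 Z := rfl

lemma t2_zero : t2 (0 : Matrix B B R) = 0 := rfl

lemma pM_t2 (u Y : Matrix B B R) : pM 2 u *ᵥ t2 Y = t2 (u * Y * uᵀ) := by
  funext I
  have h1 : (pM 2 u *ᵥ t2 Y) I = ∑ p : B × B, u (I 0) p.1 * u (I 1) p.2 * Y p.1 p.2 := by
    simp only [Matrix.mulVec, dotProduct, pM_apply, Fin.prod_univ_two, t2]
    refine Fintype.sum_equiv (finTwoArrowEquiv B) _ _ fun J => ?_
    simp [finTwoArrowEquiv]
  rw [h1, Fintype.sum_prod_type, Finset.sum_comm]
  simp only [t2, Matrix.mul_apply, Matrix.transpose_apply, Finset.sum_mul]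
  refine Finset.sum_congr rfl fun b _ => Finset.sum_congr rfl fun a _ => ?_
  ring

end Pool.Agent.Q67.TK
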