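import Pool.Agent.Q67.TK.KStr
import Pool.Agent.Q67.TK.Slot

/-!
# Tensors of degree four determine the semisimple part of the Lie algebra
-/

set_option autoImplicit false
set_option linter.unusedSectionVars false

open Matrix Finset Module

namespace Pool.Agent.Q67.TK

variable {B : Type} [Fintype B] [DecidableEq B] {K : Type*} [Field K] [Algebra K ℂ]

lemma Ann_bracket {C : ∀ n, Submodule K ((Fin n → B) → K)} {X Y : Matrix B B K}
    (hX : X ∈ Ann C) (hY : Y ∈ Ann C) : X * Y - Y * X ∈ Ann C := by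
  intro n F hF
  rw [dM_bracket, Matrix.sub_mulVec, ← Matrix.mulVec_mulVec, ← Matrix.mulVec_mulVec, hX n F hF,
    hY n F hF, Matrix.mulVec_zero, Matrix.mulVec_zero, sub_zero]

/-- a matrix in the annihilator is skew for a form in the system -/
lemma skew_of_Ann {C : ∀ n, Submodule K ((Fin n → B) → K)} {κ X : Matrix B B K}
    (hκ : t2 κ ∈ C 2) (hX : X ∈ Ann C) : X * κ + κ * Xᵀ = 0 := by
  have h := hX 2 _ hκ
  rw [dM_t2] at h
  exact t2_injective h

lemma dM_t2_skew {κ X Y : Matrix B B K} (h : X * κ + κ * Xᵀ = 0) :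
    dM 2 X *ᵥ t2 (Y * κ) = t2 ((X * Y - Y * X) * κ) := by
  rw [dM_t2]
  congr 1
  have h1 : κ * Xᵀ = -(X * κ) := by rw [eq_neg_iff_add_eq_zero, add_comm]; exact h
  rw [Matrix.mul_assoc Y, h1, Matrix.sub_mul, Matrix.mul_neg, Matrix.mul_assoc, Matrix.mul_assoc,
    sub_eq_add_neg]

open scoped ComplexOrder MatrixOrder Matrix.Norms.L2Operator in
lemma exists_sqrt {M : Matrix B B ℂ} (h : M.PosDef) : ∃ g : Matrix B B ℂ, M = gᴴ * g := by
  obtain ⟨g, hg⟩ := CStarAlgebra.nonneg_iff_eq_star_mul_self.mp h.posSemidef.nonneg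
  exact ⟨g, by rw [hg, Matrix.star_eq_conjTranspose]⟩

section nondeg

variable {z C C' : Matrix B B ℂ} {q κ : Matrix B B K}

lemma star_real_apply (hK : ∀ r : K, star (algebraMap K ℂ r) = algebraMap K ℂ r)
    (A : Matrix B B K) : (upM A)ᴴ = (upM A)ᵀ := by
  ext i j
  rw [Matrix.conjTranspose_apply, Matrix.transpose_apply, upM_apply, hK]

open scoped ComplexOrder in
/-- The trace form is nondegenerate on the annihilator. -/
lemma nondeg (hK : ∀ r : K, star (algebraMap K ℂ r) = algebraMap K ℂ r)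
    (hC : C' * C = 1) (hfix : ∀ n, ∀ F ∈ Ker (K := K) (B := B) z n, pM n C *ᵥ up F = up F)
    (hqκ : q * κ = 1) (hκ : t2 κ ∈ Ker (K := K) z 2) (hpos : (Cᵀ * upM q).PosDef)
    {A : Matrix B B K} (hA : A ∈ Ann (Ker (K := K) z)) (hA0 : A ≠ 0) :
    ∃ A' ∈ Ann (Ker (K := K) z), (A * A').trace ≠ 0 := by
  have hC' : C * C' = 1 := mul_eq_one_comm.1 hC
  set X : Matrix B B ℂ := C * upM A * C' with hX
  have hXC : C * upM A = X * C := by
    rw [hX, Matrix.mul_assoc, hC, Matrix.mul_one]
  have hkill : ∀ n, ∀ F ∈ Ker (K := K) (B := B) z n, dM n X *ᵥ up F = 0 := by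
    intro n F hF
    conv_lhs => rw [← hfix n F hF]
    rw [Matrix.mulVec_mulVec, ← dM_conj hXC, ← Matrix.mulVec_mulVec, ← upM_dM, ← up_mulVec,
      hA n F hF, up_zero, Matrix.mulVec_zero]
  -- `X` is skew
  have hup2 : up (t2 κ) = t2 (upM κ) := rfl
  have hskew : X * upM κ + upM κ * Xᵀ = 0 := by
    have h := hkill 2 _ hκ
    rw [hup2, dM_t2] at h
    exact t2_injective h
  have hqκ' : upM q * upM κ = 1 := by
    rw [← upM_mul, hqκ]
    ext i j
    rw [upM_apply, Matrix.one_apply, Matrix.one_apply]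
    split_ifs <;> simp
  have hκq' : upM κ * upM q = 1 := mul_eq_one_comm.1 hqκ'
  have hskew' : upM q * X + Xᵀ * upM q = 0 := by
    have h : upM q * (X * upM κ + upM κ * Xᵀ) * upM q = 0 := by
      rw [hskew, Matrix.mul_zero, Matrix.zero_mul]
    rw [Matrix.mul_add, Matrix.add_mul, ← Matrix.mul_assoc, Matrix.mul_assoc (upM q * X), hκq',
      Matrix.mul_one, ← Matrix.mul_assoc (upM q) (upM κ), hqκ', Matrix.one_mul] at h
    exact h
  set M : Matrix B B ℂ := Cᵀ * upM q with hM
  have hMX : (upM A)ᴴ * M = -(M * X) := by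
    have h1 : Xᵀ * upM q = -(upM q * X) := by
      rw [eq_neg_iff_add_eq_zero, add_comm]; exact hskew'
    calc (upM A)ᴴ * M = (upM A)ᵀ * Cᵀ * upM q := by
          rw [star_real_apply hK, hM, Matrix.mul_assoc]
      _ = (X * C)ᵀ * upM q := by rw [← Matrix.transpose_mul, hXC]
      _ = Cᵀ * (Xᵀ * upM q) := by rw [Matrix.transpose_mul, Matrix.mul_assoc]
      _ = -(M * X) := by rw [h1, hM, Matrix.mul_neg, Matrix.mul_assoc]
  obtain ⟨g, hg⟩ := exists_sqrt hpos
  have hMu : IsUnit M.det := (Matrix.isUnit_iff_isUnit_det _).1 hpos.isUnit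
  have hgu : IsUnit g.det := by
    have h : M.det = star g.det * g.det := by
      rw [hg, Matrix.det_mul, Matrix.det_conjTranspose]
    rw [h] at hMu
    exact isUnit_of_mul_isUnit_right hMu
  have hgg : g * g⁻¹ = 1 := Matrix.mul_nonsing_inv _ hgu
  have hgg' : g⁻¹ * g = 1 := Matrix.nonsing_inv_mul _ hgu
  -- the trace
  have htr : (upM A * X).trace ≠ 0 := by
    set N : Matrix B B ℂ := g * upM A * g⁻¹ with hN
    have h3 : gᴴ * g = M := hg.symm
    have h4 : (g⁻¹ * (g⁻¹)ᴴ) * M = 1 := by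
      rw [← h3, Matrix.mul_assoc, ← Matrix.mul_assoc (g⁻¹)ᴴ, ← Matrix.conjTranspose_mul, hgg,
        Matrix.conjTranspose_one, Matrix.one_mul, hgg']
    have h1 : (N * Nᴴ).trace = -(upM A * X).trace := by
      calc (N * Nᴴ).trace = (g * (upM A * (g⁻¹ * (g⁻¹)ᴴ) * (upM A)ᴴ * gᴴ)).trace := by
            congr 1
            rw [hN, Matrix.conjTranspose_mul, Matrix.conjTranspose_mul]
            simp only [Matrix.mul_assoc]
        _ = (upM A * ((g⁻¹ * (g⁻¹)ᴴ) * ((upM A)ᴴ * M))).trace := by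
            rw [Matrix.trace_mul_comm, ← h3]
            simp only [Matrix.mul_assoc]
        _ = -(upM A * X).trace := by
            rw [hMX, Matrix.mul_neg, ← Matrix.mul_assoc _ M X, h4, Matrix.one_mul,
              Matrix.mul_neg, Matrix.trace_neg]
    intro h0
    rw [h0, neg_zero] at h1
    have h5 : N = 0 := Matrix.trace_mul_conjTranspose_self_eq_zero_iff.1 h1
    apply hA0
    have h6 : upM A = 0 := by
      calc upM A = g⁻¹ * N * g := by
            rw [hN]
            simp only [Matrix.mul_assoc, hgg', Matrix.mul_one]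
            rw [← Matrix.mul_assoc, hgg', Matrix.one_mul]
        _ = 0 := by rw [h5, Matrix.mul_zero, Matrix.zero_mul]
    ext i j
    have h7 := congrFun (congrFun h6 i) j
    rw [upM_apply] at h7
    exact (algebraMap K ℂ).injective (by rw [h7]; simp)
  obtain ⟨l, hl⟩ := exists_functional (K := K) htr
  refine ⟨dnM l X, dnM_mem_Ann hkill l, ?_⟩
  have : (A * dnM l X).trace = l (upM A * X).trace := by
    simp only [Matrix.trace, Matrix.diag_apply, Matrix.mul_apply, map_sum, dnM_apply, upM_apply,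
      l_mul']
  rw [this]
  exact hl

end nondeg

end Pool.Agent.Q67.TK
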