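import Pool.Agent.Q67.TK.Ideal

/-!
# The fourth power for semisimple Lie algebra actions
-/

set_option autoImplicit false
set_option linter.unusedSectionVars false

open Matrix Finset Module

namespace Pool.Agent.Q67.TK

variable {B : Type} [Fintype B] [DecidableEq B] {L : Type*} [Field L]

/-- The tensors of even degree killed by the matrices in `Σ`, where the parity of the `b`-th basis
vector is that of `p b`. -/
def RT (Sg : Set (Matrix B B L)) (p : B → ℕ) (n : ℕ) : Submodule L ((Fin n → B) → L) where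
  carrier := {F | (∀ X ∈ Sg, dM n X *ᵥ F = 0) ∧ ∀ I, F I ≠ 0 → (∑ k, p (I k)) % 2 = 0}
  add_mem' := by
    rintro F G ⟨hF, hF'⟩ ⟨hG, hG'⟩
    refine ⟨fun X hX => by rw [Matrix.mulVec_add, hF X hX, hG X hX, add_zero], fun I hI => ?_⟩
    by_cases h : F I = 0
    · apply hG' I
      intro h'
      exact hI (by rw [Pi.add_apply, h, h', add_zero])
    · exact hF' I h
  zero_mem' := ⟨fun X _ => Matrix.mulVec_zero _, fun I hI => absurd rfl hI⟩
  smul_mem' := by
    rintro c F ⟨hF, hF'⟩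
    refine ⟨fun X hX => by rw [Matrix.mulVec_smul, hF X hX, smul_zero], fun I hI => hF' I ?_⟩
    intro h
    exact hI (by rw [Pi.smul_apply, h, smul_zero])

/-- A matrix respects the parities. -/
def EvM (p : B → ℕ) (X : Matrix B B L) : Prop := ∀ i j, X i j ≠ 0 → p i % 2 = p j % 2

/-- the even projector on tensors of degree two -/
def Pe (p : B → ℕ) : Matrix (Fin 2 → B) (Fin 2 → B) L :=
  Matrix.diagonal fun I => if (∑ k, p (I k)) % 2 = 0 then 1 else 0

lemma Pe_mulVec (p : B → ℕ) (F : (Fin 2 → B) → L) (I : Fin 2 → B) :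
    (Pe p *ᵥ F) I = if (∑ k, p (I k)) % 2 = 0 then F I else 0 := by
  rw [Pe, Matrix.mulVec_diagonal]
  split_ifs <;> simp

lemma dM2_ne {p : B → ℕ} {X : Matrix B B L} (hX : EvM p X) {I J : Fin 2 → B}
    (h : dM 2 X I J ≠ 0) : (∑ k, p (I k)) % 2 = (∑ k, p (J k)) % 2 := by
  obtain ⟨k, -, hk⟩ := Finset.exists_ne_zero_of_sum_ne_zero h
  have h1 := left_ne_zero_of_mul hk
  have h2 := right_ne_zero_of_mul hk
  have h3 := hX _ _ h1
  have h4 : ∀ l ∈ univ.erase k, I l = J l := by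
    intro l hl
    by_contra hne
    exact Finset.prod_ne_zero_iff.1 h2 l hl (Matrix.one_apply_ne hne)
  rw [← Finset.add_sum_erase _ _ (Finset.mem_univ k), ← Finset.add_sum_erase _ _
    (Finset.mem_univ k), Finset.sum_congr rfl fun l hl => congrArg p (h4 l hl)]
  omega

lemma dM2_Pe {p : B → ℕ} {X : Matrix B B L} (hX : EvM p X) :
    dM 2 X * Pe p = Pe p * dM 2 X := by
  ext I J
  rw [Pe, Matrix.mul_diagonal, Matrix.diagonal_mul]
  by_cases h : dM 2 X I J = 0
  · rw [h, zero_mul, mul_zero]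
  · rw [dM2_ne hX h, mul_comm]

lemma Pe_t2 {p : B → ℕ} {Y : Matrix B B L} (hY : EvM p Y) : Pe p *ᵥ t2 Y = t2 Y := by
  funext I
  rw [Pe_mulVec]
  split_ifs with h
  · rfl
  · by_contra hne
    have h1 : Y (I 0) (I 1) ≠ 0 := fun h0 => hne h0.symm
    have h2 := hY _ _ h1
    apply h
    rw [Fin.sum_univ_two]
    omega

lemma EvM.mul {p : B → ℕ} {X Y : Matrix B B L} (hX : EvM p X) (hY : EvM p Y) :
    EvM p (X * Y) := by
  intro i j h
  rw [Matrix.mul_apply] at h
  obtain ⟨k, -, hk⟩ := Finset.exists_ne_zero_of_sum_ne_zero h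
  exact (hX _ _ (left_ne_zero_of_mul hk)).trans (hY _ _ (right_ne_zero_of_mul hk))

/-- a matrix on the tensors of degree two as a tensor of degree four -/
def ft (M : Matrix (Fin 2 → B) (Fin 2 → B) L) : (Fin (2 + 2) → B) → L :=
  fun I => M (fun k => I (Fin.castAdd 2 k)) fun k => I (Fin.natAdd 2 k)

lemma ft_injective {M N : Matrix (Fin 2 → B) (Fin 2 → B) L} (h : ft M = ft N) : M = N := by
  ext I J
  have h1 := congrFun h (Fin.append I J)
  simp only [ft, Fin.append_left, Fin.append_right] at h1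
  exact h1

lemma dM_ft (X : Matrix B B L) (M : Matrix (Fin 2 → B) (Fin 2 → B) L) :
    dM (2 + 2) X *ᵥ ft M = ft (dM 2 X * M + M * (dM 2 X)ᵀ) := by
  funext I
  set I1 : Fin 2 → B := fun k => I (Fin.castAdd 2 k) with hI1
  set I2 : Fin 2 → B := fun k => I (Fin.natAdd 2 k) with hI2
  have hl : ∀ (k : Fin 2) (c : B), ft M (Function.update I (Fin.castAdd 2 k) c) =
      M (Function.update I1 k c) I2 := by
    intro k c
    have e1 : (fun l => Function.update I (Fin.castAdd 2 k) c (Fin.castAdd 2 l)) =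
        Function.update I1 k c := by
      funext l
      by_cases h : l = k
      · subst h; rw [Function.update_self, Function.update_self]
      · rw [Function.update_of_ne h, Function.update_of_ne]
        intro h'; exact h (Fin.castAdd_injective _ _ h')
    have e2 : (fun l => Function.update I (Fin.castAdd 2 k) c (Fin.natAdd 2 l)) = I2 := by
      funext l
      rw [Function.update_of_ne]
      intro h
      have := congrArg Fin.val h
      simp at this
      omega
    rw [ft, e1, e2]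
  have hr : ∀ (k : Fin 2) (c : B), ft M (Function.update I (Fin.natAdd 2 k) c) =
      M I1 (Function.update I2 k c) := by
    intro k c
    have e1 : (fun l => Function.update I (Fin.natAdd 2 k) c (Fin.castAdd 2 l)) = I1 := by
      funext l
      rw [Function.update_of_ne]
      intro h
      have := congrArg Fin.val h
      simp at this
      omega
    have e2 : (fun l => Function.update I (Fin.natAdd 2 k) c (Fin.natAdd 2 l)) =
        Function.update I2 k c := by
      funext l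
      by_cases h : l = k
      · subst h; rw [Function.update_self, Function.update_self]
      · rw [Function.update_of_ne h, Function.update_of_ne]
        intro h'; exact h (Fin.natAdd_injective _ _ h')
    rw [ft, e1, e2]
  rw [dM_mulVec]
  have h1 := Fin.sum_univ_add (a := 2) (b := 2) fun k : Fin (2 + 2) =>
    ∑ c, X (I k) c * ft M (Function.update I k c)
  rw [h1]
  simp only [hl, hr]
  have e1 : (dM 2 X * M) I1 I2 = ∑ k, ∑ c, X (I1 k) c * M (Function.update I1 k c) I2 := by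
    have := dM_mulVec 2 X (fun J => M J I2) I1
    rw [← this]
    rfl
  have e2 : (M * (dM 2 X)ᵀ) I1 I2 = ∑ k, ∑ c, X (I2 k) c * M I1 (Function.update I2 k c) := by
    have := dM_mulVec 2 X (M I1) I2
    rw [← this, Matrix.mul_apply, Matrix.mulVec, dotProduct]
    exact Finset.sum_congr rfl fun J _ => mul_comm _ _
  rw [ft, Matrix.add_apply, e1, e2]

lemma dM_tr (n : ℕ) (X : Matrix B B L) : (dM n X)ᵀ = dM n Xᵀ := by
  ext I J
  rw [Matrix.transpose_apply, dM, dM]
  refine Finset.sum_congr rfl fun k _ => ?_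
  rw [Matrix.transpose_apply]
  congr 1
  refine Finset.prod_congr rfl fun l _ => ?_
  rw [Matrix.one_apply, Matrix.one_apply]
  simp only [eq_comm]

lemma dM_pM_skew {κ X : Matrix B B L} (h : X * κ + κ * Xᵀ = 0) :
    dM 2 X * pM 2 κ + pM 2 κ * (dM 2 X)ᵀ = 0 := by
  have h1 : κ * Xᵀ = -X * κ := by
    rw [Matrix.neg_mul]
    exact eq_neg_of_add_eq_zero_right h
  rw [dM_tr, dM_conj h1, dM_neg, Matrix.neg_mul, add_neg_cancel]

lemma comm_of_ft {κ κ' X : Matrix B B L} (hκ : κ * κ' = 1) (h : X * κ + κ * Xᵀ = 0)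
    {E : Matrix (Fin 2 → B) (Fin 2 → B) L} :
    dM (2 + 2) X *ᵥ ft (E * pM 2 κ) = 0 ↔ dM 2 X * E = E * dM 2 X := by
  have h1 : dM 2 X * (E * pM 2 κ) + E * pM 2 κ * (dM 2 X)ᵀ =
      (dM 2 X * E - E * dM 2 X) * pM 2 κ := by
    have h2 : pM 2 κ * (dM 2 X)ᵀ = -(dM 2 X * pM 2 κ) :=
      eq_neg_of_add_eq_zero_right (dM_pM_skew h)
    rw [Matrix.mul_assoc E, h2, Matrix.mul_neg, Matrix.sub_mul, Matrix.mul_assoc,
      Matrix.mul_assoc, sub_eq_add_neg]
  rw [dM_ft, h1]
  constructor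
  · intro h0
    have h3 : (dM 2 X * E - E * dM 2 X) * pM 2 κ = 0 := ft_injective (h0.trans rfl)
    have h4 := congrArg (· * pM 2 κ') h3
    simp only [Matrix.mul_assoc _ (pM 2 κ), ← pM_mul, hκ, pM_one, Matrix.mul_one,
      Matrix.zero_mul] at h4
    exact sub_eq_zero.1 h4
  · intro h0
    rw [h0, sub_self, Matrix.zero_mul]
    rfl

variable {K : Type*} [Field K] [Algebra K ℂ] [Algebra K L] [Algebra L ℂ] [IsScalarTower K L ℂ]
  {𝒜 : ∀ n, Submodule K ((Fin n → B) → K)} {C C' : Matrix B B ℂ} {q κ : Matrix B B K}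

open scoped ComplexOrder in
/-- **Tensors of degree four determine the Lie algebra up to its central part**, for a semisimple
action. -/
theorem larsenT (hK : ∀ r : K, star (algebraMap K ℂ r) = algebraMap K ℂ r)
    (hC : C' * C = 1) (hfix : ∀ n, ∀ F ∈ 𝒜 n, pM n C *ᵥ up F = up F)
    (hqκ : q * κ = 1) (hκ : t2 κ ∈ 𝒜 2) (hpos : (Cᵀ * upM q).PosDef)
    {Sg : Set (Matrix B B L)} {p : B → ℕ}
    (hSg : ∀ X ∈ Sg, X ∈ Ann fun n => mpS L (𝒜 n))
    (hle : ∀ n, mpS L (𝒜 n) ≤ RT Sg p n)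
    (hev : ∀ X ∈ Ann (fun n => mpS L (𝒜 n)), EvM p X)
    (hss : ∀ V : Submodule L ((Fin 2 → B) → L), (∀ X ∈ Sg, ∀ F ∈ V, dM 2 X *ᵥ F ∈ V) →
      ∃ V', IsCompl V V' ∧ ∀ X ∈ Sg, ∀ F ∈ V', dM 2 X *ᵥ F ∈ V')
    (h4 : ∀ A ∈ Ann (fun n => mpS L (𝒜 n)), ∀ F ∈ RT Sg p (2 + 2), dM (2 + 2) A *ᵥ F = 0)
    (hZ : ∀ Y ∈ Ann (fun n => mpS L (𝒜 n)),
      t2 (Y * κ.map (algebraMap K L)) ∈ RT Sg p 2 →
      (∀ Y' : Matrix B B L, t2 (Y' * κ.map (algebraMap K L)) ∈ RT Sg p 2 → Y * Y' = Y' * Y) →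
      Y ∈ Ann (RT Sg p)) :
    Ann (fun n => mpS L (𝒜 n)) ≤ Ann (RT Sg p) := by
  set κL : Matrix B B L := κ.map (algebraMap K L) with hκL
  set qL : Matrix B B L := q.map (algebraMap K L) with hqL
  have hqκL : qL * κL = 1 := by
    rw [hκL, hqL, ← Matrix.map_mul, hqκ]
    ext i j
    rw [Matrix.map_apply, Matrix.one_apply, Matrix.one_apply]
    split_ifs <;> simp
  have hκqL : κL * qL = 1 := mul_eq_one_comm.1 hqκL
  have hκA : t2 κL ∈ mpS L (𝒜 2) := mp_mem hκ
  have hκR : t2 κL ∈ RT Sg p 2 := hle 2 hκA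
  have hκev : EvM p κL := by
    intro i j hij
    have h1 := hκR.2 ![i, j] hij
    rw [Fin.sum_univ_two] at h1
    change (p i + p j) % 2 = 0 at h1
    omega
  have hanti : Ann (RT Sg p) ≤ Ann (fun n => mpS L (𝒜 n)) := fun A hA n F hF =>
    hA n F (hle n hF)
  have hSgh : ∀ X ∈ Sg, X ∈ Ann (RT Sg p) := fun X hX n F hF => hF.1 X hX
  have hskew : ∀ {X : Matrix B B L}, X ∈ Ann (fun n => mpS L (𝒜 n)) → X * κL + κL * Xᵀ = 0 := by
    intro X hX
    have h := hX 2 _ hκA
    rw [dM_t2] at h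
    exact t2_injective h
  have hbr : ∀ {X Y : Matrix B B L}, X * κL + κL * Xᵀ = 0 →
      dM 2 X *ᵥ t2 (Y * κL) = t2 ((X * Y - Y * X) * κL) := by
    intro X Y h
    rw [dM_t2]
    congr 1
    have h1 : κL * Xᵀ = -(X * κL) := by rw [eq_neg_iff_add_eq_zero, add_comm]; exact h
    rw [Matrix.mul_assoc Y, h1, Matrix.sub_mul, Matrix.mul_neg, Matrix.mul_assoc,
      Matrix.mul_assoc, sub_eq_add_neg]
  have hinj : ∀ {Y Z : Matrix B B L}, t2 (Y * κL) = t2 (Z * κL) → Y = Z := by
    intro Y Z h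
    have h1 := congrArg (· * qL) (t2_injective h)
    simpa only [Matrix.mul_assoc, hκqL, Matrix.mul_one] using h1
  -- degree two
  have h2 : ∀ A ∈ Ann (fun n => mpS L (𝒜 n)), ∀ F ∈ RT Sg p 2, dM 2 A *ᵥ F = 0 := by
    intro A hA F hF
    by_cases h0 : t2 κL = (0 : (Fin 2 → B) → L)
    · have hκ0 : κL = 0 := t2_injective (h0.trans t2_zero.symm)
      have h10 : (1 : Matrix B B L) = 0 := by rw [← hqκL, hκ0, Matrix.mul_zero]
      have h11 : ∀ b : B, False := fun b => by
        have := congrFun (congrFun h10 b) b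
        rw [Matrix.one_apply_eq] at this
        exact one_ne_zero this
      funext I
      exact (h11 (I 0)).elim
    · have hz4 : tp F (t2 κL) ∈ RT Sg p (2 + 2) := by
        refine ⟨fun X hX => ?_, fun I hI => ?_⟩
        · rw [dM_tp, hF.1 X hX, hκR.1 X hX]
          funext I
          simp [tp]
        · have e1 := hF.2 _ (left_ne_zero_of_mul hI)
          have e2 := hκR.2 _ (right_ne_zero_of_mul hI)
          have e3 := Fin.sum_univ_add (a := 2) (b := 2) fun k : Fin (2 + 2) => p (I k)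
          rw [e3]
          omega
      have h5 := h4 A hA _ hz4
      rw [dM_tp, hA 2 _ hκA] at h5
      have h6 : tp F (0 : (Fin 2 → B) → L) = 0 := by funext I; simp [tp]
      rw [h6, add_zero] at h5
      exact tp_eq_zero h5 h0
  -- operators commuting with the Lie algebra
  have hR2 : ∀ A ∈ Ann (fun n => mpS L (𝒜 n)), (∀ X ∈ Ann (RT Sg p), A * X = X * A) →
      t2 (A * κL) ∈ RT Sg p 2 := by
    intro A hA hc
    refine ⟨fun X hX => ?_, fun I hI => ?_⟩
    · rw [hbr (hskew (hSg X hX)), hc X (hSgh X hX), sub_self, Matrix.zero_mul, t2_zero]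
    · have h1 := ((hev A hA).mul hκev) _ _ hI
      rw [Fin.sum_univ_two]
      omega
  refine ideal_eq hK hC hfix hqκ hκ hpos (𝔤 := Ann fun n => mpS L (𝒜 n)) (𝔥 := Ann (RT Sg p))
    rfl hanti ?_ ?_ ?_
  · -- the ideal
    intro A hA D hD
    set φκ : Matrix B B L →ₗ[L] ((Fin 2 → B) → L) :=
      { toFun := fun Y => t2 (Y * κL)
        map_add' := fun Y Z => by rw [Matrix.add_mul]; rfl
        map_smul' := fun c Y => by rw [Matrix.smul_mul]; rfl } with hφκ
    set V1 : Submodule L ((Fin 2 → B) → L) := (Ann (RT Sg p)).map φκ with hV1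
    have hV1m : ∀ {F}, F ∈ V1 ↔ ∃ Y ∈ Ann (RT Sg p), t2 (Y * κL) = F := Submodule.mem_map
    obtain ⟨V2, hcompl, hV2⟩ := hss V1 (by
      intro X hX F hF
      obtain ⟨Y, hY, rfl⟩ := hV1m.1 hF
      rw [hbr (hskew (hSg X hX))]
      refine hV1m.2 ⟨_, ?_, rfl⟩
      intro n F hF
      rw [dM_bracket, Matrix.sub_mulVec, ← Matrix.mulVec_mulVec, ← Matrix.mulVec_mulVec,
        hSgh X hX n F hF, hY n F hF, Matrix.mulVec_zero, Matrix.mulVec_zero, sub_zero])
    set e : ((Fin 2 → B) → L) →ₗ[L] ((Fin 2 → B) → L) :=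
      V1.subtype ∘ₗ Submodule.projectionOnto V1 V2 hcompl with he
    have he1 : ∀ F ∈ V1, e F = F := by
      intro F hF
      have := Submodule.projectionOnto_apply_left hcompl ⟨F, hF⟩
      rw [he, LinearMap.comp_apply]
      exact congrArg Subtype.val this
    have he2 : ∀ F ∈ V2, e F = 0 := by
      intro F hF
      have := Submodule.projectionOnto_apply_right hcompl ⟨F, hF⟩
      rw [he, LinearMap.comp_apply, this, map_zero]
    have he3 : ∀ F, e F ∈ V1 := fun F => (Submodule.projectionOnto V1 V2 hcompl F).2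
    set E : Matrix (Fin 2 → B) (Fin 2 → B) L := LinearMap.toMatrix' e with hE
    have hEe : ∀ F, E *ᵥ F = e F := fun F => by
      rw [hE, ← Matrix.toLin'_apply, Matrix.toLin'_toMatrix']
    have hEc : ∀ X ∈ Sg, dM 2 X * E = E * dM 2 X := by
      intro X hX
      have h1 : ∀ F, (dM 2 X * E) *ᵥ F = (E * dM 2 X) *ᵥ F := by
        intro F
        rw [← Matrix.mulVec_mulVec, ← Matrix.mulVec_mulVec, hEe, hEe]
        obtain ⟨F1, hF1, F2, hF2, rfl⟩ := Submodule.mem_sup.1
          (by rw [hcompl.sup_eq_top]; trivial : F ∈ V1 ⊔ V2)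
        obtain ⟨Y, hY, rfl⟩ := hV1m.1 hF1
        have hs : dM 2 X *ᵥ t2 (Y * κL) ∈ V1 := by
          rw [hbr (hskew (hSg X hX))]
          refine hV1m.2 ⟨_, ?_, rfl⟩
          intro n F hF
          rw [dM_bracket, Matrix.sub_mulVec, ← Matrix.mulVec_mulVec, ← Matrix.mulVec_mulVec,
            hSgh X hX n F hF, hY n F hF, Matrix.mulVec_zero, Matrix.mulVec_zero, sub_zero]
        rw [Matrix.mulVec_add, map_add, map_add, he1 _ hF1, he2 _ hF2, he1 _ hs,
          he2 _ (hV2 X hX _ hF2), add_zero, add_zero]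
      exact Matrix.mulVec_injective (funext h1)
    set E' : Matrix (Fin 2 → B) (Fin 2 → B) L := Pe p * E * Pe p with hE'
    have hE'c : ∀ X ∈ Sg, dM 2 X * E' = E' * dM 2 X := by
      intro X hX
      have h1 := dM2_Pe (hev X (hSg X hX))
      rw [hE', ← Matrix.mul_assoc, ← Matrix.mul_assoc, h1, Matrix.mul_assoc (Pe p), hEc X hX,
        ← Matrix.mul_assoc, Matrix.mul_assoc (Pe p * E), h1, ← Matrix.mul_assoc]
    have hPeV : ∀ F ∈ V1, Pe p *ᵥ F = F := by
      intro F hF
      obtain ⟨Y, hY, rfl⟩ := hV1m.1 hF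
      exact Pe_t2 ((hev Y (hanti hY)).mul hκev)
    have hE'1 : ∀ F ∈ V1, E' *ᵥ F = F := by
      intro F hF
      rw [hE', ← Matrix.mulVec_mulVec, ← Matrix.mulVec_mulVec, hPeV F hF, hEe, he1 F hF,
        hPeV F hF]
    have hE'2 : ∀ F, E' *ᵥ F ∈ V1 := by
      intro F
      rw [hE', ← Matrix.mulVec_mulVec, ← Matrix.mulVec_mulVec, hEe, hPeV _ (he3 _)]
      exact he3 _
    have hft : ft (E' * pM 2 κL) ∈ RT Sg p (2 + 2) := by
      refine ⟨fun X hX => (comm_of_ft hκqL (hskew (hSg X hX))).2 (hE'c X hX), fun I hI => ?_⟩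
      rw [ft, Matrix.mul_apply] at hI
      obtain ⟨J, -, hJ⟩ := Finset.exists_ne_zero_of_sum_ne_zero hI
      have h1 := left_ne_zero_of_mul hJ
      have h3 := right_ne_zero_of_mul hJ
      rw [hE', Pe, Matrix.mul_diagonal, Matrix.diagonal_mul] at h1
      have h5 : (∑ k, p (I (Fin.castAdd 2 k))) % 2 = 0 := by
        by_contra hne
        apply h1
        rw [if_neg hne, zero_mul, zero_mul]
      have h6 : (∑ k, p (J k)) % 2 = 0 := by
        by_contra hne
        apply h1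
        rw [if_neg hne, mul_zero]
      rw [pM_apply, Finset.prod_ne_zero_iff] at h3
      have h7 := hκev _ _ (h3 0 (Finset.mem_univ _))
      have h8 := hκev _ _ (h3 1 (Finset.mem_univ _))
      have e3 := Fin.sum_univ_add (a := 2) (b := 2) fun k : Fin (2 + 2) => p (I k)
      rw [e3]
      simp only [Fin.sum_univ_two] at h5 h6 ⊢
      omega
    have hAc := (comm_of_ft hκqL (hskew hA)).1 (h4 A hA _ hft)
    have h1 : dM 2 A *ᵥ t2 (D * κL) ∈ V1 := by
      have hDV : t2 (D * κL) ∈ V1 := hV1m.2 ⟨D, hD, rfl⟩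
      have h9 : dM 2 A *ᵥ t2 (D * κL) = E' *ᵥ (dM 2 A *ᵥ t2 (D * κL)) := by
        conv_lhs => rw [← hE'1 _ hDV]
        rw [Matrix.mulVec_mulVec, hAc, ← Matrix.mulVec_mulVec]
      rw [h9]
      exact hE'2 _
    rw [hbr (hskew hA)] at h1
    obtain ⟨D', hD', h10⟩ := hV1m.1 h1
    rw [← hinj h10]
    exact hD'
  · intro A hA hc
    refine hZ A hA (hR2 A hA hc) fun Y' hY' => ?_
    have h5 := h2 A hA _ hY'
    rw [hbr (hskew hA)] at h5
    have h6 : A * Y' - Y' * A = 0 := hinj (by rw [h5, Matrix.zero_mul, t2_zero])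
    exact sub_eq_zero.1 h6
  · intro A hA hc X hX
    have h5 := h2 X hX _ (hR2 A hA hc)
    rw [hbr (hskew hX)] at h5
    have h6 : X * A - A * X = 0 := hinj (by rw [h5, Matrix.zero_mul, t2_zero])
    exact (sub_eq_zero.1 h6).symm

end Pool.Agent.Q67.TK
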