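import Mathlib

/-!
# Tensor powers of matrices
-/

set_option autoImplicit false

open Matrix Finset

namespace Pool.Agent.Q67.TK

variable {B : Type*} [Fintype B] [DecidableEq B] {R : Type*} [CommRing R]

/-- The tensor power of a matrix. -/
def pM (n : ℕ) (u : Matrix B B R) : Matrix (Fin n → B) (Fin n → B) R :=
  fun I J => ∏ k, u (I k) (J k)

/-- The operator given by a matrix as a derivation on the tensor power. -/
def dM (n : ℕ) (X : Matrix B B R) : Matrix (Fin n → B) (Fin n → B) R :=
  fun I J => ∑ k, X (I k) (J k) * ∏ l ∈ univ.erase k, (1 : Matrix B B R) (I l) (J l)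

lemma pM_apply (n : ℕ) (u : Matrix B B R) (I J : Fin n → B) :
    pM n u I J = ∏ k, u (I k) (J k) := rfl

lemma pM_mul (n : ℕ) (u v : Matrix B B R) : pM n (u * v) = pM n u * pM n v := by
  ext I J
  rw [pM_apply, Matrix.mul_apply]
  simp only [Matrix.mul_apply, pM_apply, ← Finset.prod_mul_distrib]
  rw [Finset.prod_univ_sum]
  simp only [Fintype.piFinset_univ]

lemma one_apply_prod (n : ℕ) (I J : Fin n → B) :
    ∏ k, (1 : Matrix B B R) (I k) (J k) = (1 : Matrix (Fin n → B) (Fin n → B) R) I J := by
  rw [Matrix.one_apply]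
  split_ifs with h
  · subst h
    exact Finset.prod_eq_one fun k _ => by rw [Matrix.one_apply_eq]
  · obtain ⟨k, hk⟩ := Function.ne_iff.1 h
    exact Finset.prod_eq_zero (Finset.mem_univ k) (by rw [Matrix.one_apply_ne hk])

lemma pM_one (n : ℕ) : pM n (1 : Matrix B B R) = 1 := by
  ext I J
  rw [pM_apply, one_apply_prod]

lemma pM_transpose (n : ℕ) (u : Matrix B B R) : (pM n u)ᵀ = pM n uᵀ := rfl

lemma pM_trace (n : ℕ) (u : Matrix B B R) : (pM n u).trace = u.trace ^ n := by
  rw [Matrix.trace]
  simp only [Matrix.diag_apply, pM_apply]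
  rw [Matrix.trace, ← Fin.prod_const n (∑ i, u.diag i), Finset.prod_univ_sum]
  simp only [Fintype.piFinset_univ, Matrix.diag_apply]

lemma pM_smul (n : ℕ) (c : R) (u : Matrix B B R) : pM n (c • u) = c ^ n • pM n u := by
  ext I J
  simp [pM_apply, Finset.prod_mul_distrib]

/-- The derivation in terms of updates. -/
lemma dM_mulVec (n : ℕ) (X : Matrix B B R) (F : (Fin n → B) → R) (I : Fin n → B) :
    (dM n X *ᵥ F) I = ∑ k, ∑ c, X (I k) c * F (Function.update I k c) := by
  simp only [Matrix.mulVec, dotProduct, dM, Finset.sum_mul]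
  rw [Finset.sum_comm]
  refine Finset.sum_congr rfl fun k _ => ?_
  -- the terms are nonzero only for updates of `I` at `k`
  rw [← Finset.sum_subset (Finset.subset_univ (univ.image fun c => Function.update I k c))]
  · rw [Finset.sum_image fun a _ b _ h => by simpa using congrFun h k]
    refine Finset.sum_congr rfl fun c _ => ?_
    rw [Function.update_self]
    have : ∏ l ∈ univ.erase k, (1 : Matrix B B R) (I l) (Function.update I k c l) = 1 := by
      refine Finset.prod_eq_one fun l hl => ?_
      rw [Function.update_of_ne (Finset.ne_of_mem_erase hl), Matrix.one_apply_eq]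
    rw [this, mul_one]
  · intro J _ hJ
    have : ∃ l ∈ univ.erase k, I l ≠ J l := by
      by_contra hcon
      push Not at hcon
      apply hJ
      rw [Finset.mem_image]
      refine ⟨J k, Finset.mem_univ _, ?_⟩
      funext l
      by_cases hl : l = k
      · subst hl; rw [Function.update_self]
      · rw [Function.update_of_ne hl]
        exact hcon l (Finset.mem_erase.2 ⟨hl, Finset.mem_univ _⟩)
    obtain ⟨l, hl, hne⟩ := this
    have h0 : ∏ l ∈ univ.erase k, (1 : Matrix B B R) (I l) (J l) = 0 :=
      Finset.prod_eq_zero hl (Matrix.one_apply_ne hne)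
    rw [h0, mul_zero, zero_mul]

lemma dM_add (n : ℕ) (X Y : Matrix B B R) : dM n (X + Y) = dM n X + dM n Y := by
  ext I J
  simp only [dM, Matrix.add_apply, add_mul, Finset.sum_add_distrib]

lemma dM_smul (n : ℕ) (c : R) (X : Matrix B B R) : dM n (c • X) = c • dM n X := by
  ext I J
  simp only [dM, Matrix.smul_apply, smul_eq_mul, Finset.mul_sum, mul_assoc]

lemma dM_zero (n : ℕ) : dM n (0 : Matrix B B R) = 0 := by
  ext I J
  simp [dM]

/-- The derivation as a linear map. -/
def dL (n : ℕ) : Matrix B B R →ₗ[R] Matrix (Fin n → B) (Fin n → B) R where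
  toFun := dM n
  map_add' := dM_add n
  map_smul' := dM_smul n

lemma dL_apply (n : ℕ) (X : Matrix B B R) : dL n X = dM n X := rfl

lemma dM_neg (n : ℕ) (X : Matrix B B R) : dM n (-X) = -dM n X := (dL n).map_neg X

lemma dM_sub (n : ℕ) (X Y : Matrix B B R) : dM n (X - Y) = dM n X - dM n Y := (dL n).map_sub X Y

/-- permuting the positions -/
lemma pM_perm (n : ℕ) (u : Matrix B B R) (σ : Equiv.Perm (Fin n)) (F : (Fin n → B) → R) :
    pM n u *ᵥ (fun I => F (I ∘ σ)) = fun I => (pM n u *ᵥ F) (I ∘ σ) := by
  funext I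
  simp only [Matrix.mulVec, dotProduct, pM_apply, Function.comp]
  refine Fintype.sum_equiv (Equiv.arrowCongr σ.symm (Equiv.refl B)) _ _ fun J => ?_
  have h1 : ∀ k, (Equiv.arrowCongr σ.symm (Equiv.refl B)) J k = J (σ k) := fun k => by
    simp [Equiv.arrowCongr]
  rw [show ((Equiv.arrowCongr σ.symm (Equiv.refl B)) J) = fun k => J (σ k) from funext h1]
  congr 1
  exact (Equiv.prod_comp σ fun k => u (I k) (J k)).symm

end Pool.Agent.Q67.TK
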