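import Pool.Agent.Q67.TK.Base

/-!
# Tannaka-Krein duality for systems of tensors
-/

set_option autoImplicit false
set_option linter.unusedSectionVars false

open Matrix Finset MeasureTheory Module

namespace Pool.Agent.Q67.TK

section ops

variable {B : Type*} {R : Type*} [CommRing R]

/-- the tensor product -/
def tp {m n : ℕ} (F : (Fin m → B) → R) (G : (Fin n → B) → R) : (Fin (m + n) → B) → R :=
  fun I => F (fun k => I (Fin.castAdd n k)) * G (fun k => I (Fin.natAdd m k))

lemma tp_append {m n : ℕ} (F : (Fin m → B) → R) (G : (Fin n → B) → R) (I : Fin m → B)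
    (J : Fin n → B) : tp F G (Fin.append I J) = F I * G J := by
  simp [tp, Fin.append_left, Fin.append_right]

variable [Fintype B]

lemma sum_append {m n : ℕ} {M : Type*} [AddCommMonoid M] (f : (Fin (m + n) → B) → M) :
    ∑ I, f I = ∑ I : Fin m → B, ∑ J : Fin n → B, f (Fin.append I J) := by
  classical
  rw [← Fintype.sum_prod_type']
  exact (Fintype.sum_equiv (Fin.appendEquiv m n) _ _ fun p => rfl).symm

end ops

section cops

variable {B : Type*} [Fintype B]

/-- the contraction with a tensor, conjugate linear in the first variable -/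
def ct {m n : ℕ} (F : (Fin m → B) → ℂ) (G : (Fin (m + n) → B) → ℂ) : (Fin n → B) → ℂ :=
  fun J => ∑ I : Fin m → B, star (F I) * G (Fin.append I J)

lemma ip_tp [DecidableEq B] {m n : ℕ} (F F' : (Fin m → B) → ℂ) (G G' : (Fin n → B) → ℂ) :
    ip (tp F G) (tp F' G') = ip F F' * ip G G' := by
  rw [ip, sum_append]
  simp only [tp_append, star_mul', ip]
  rw [Finset.sum_mul_sum]
  refine Finset.sum_congr rfl fun I _ => Finset.sum_congr rfl fun J _ => ?_
  ring

lemma ip_ct [DecidableEq B] {m n : ℕ} (F : (Fin m → B) → ℂ) (x : (Fin n → B) → ℂ)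
    (G : (Fin (m + n) → B) → ℂ) : ip (tp F x) G = ip x (ct F G) := by
  rw [ip, sum_append]
  simp only [tp_append, star_mul', ip, ct, Finset.mul_sum]
  rw [Finset.sum_comm]
  refine Finset.sum_congr rfl fun I _ => Finset.sum_congr rfl fun J _ => ?_
  ring

lemma ip_star [DecidableEq B] {m : ℕ} (F G : (Fin m → B) → ℂ) : star (ip F G) = ip G F := by
  simp only [ip, star_sum, star_mul', star_star]
  exact Finset.sum_congr rfl fun I _ => mul_comm _ _

end cops

variable {B : Type} [Fintype B] [DecidableEq B]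

lemma pM_tp {m n : ℕ} (u : Matrix B B ℂ) (F : (Fin m → B) → ℂ) (G : (Fin n → B) → ℂ) :
    pM (m + n) u *ᵥ tp F G = tp (pM m u *ᵥ F) (pM n u *ᵥ G) := by
  funext I
  simp only [Matrix.mulVec, dotProduct, tp]
  rw [sum_append, Finset.sum_mul_sum]
  refine Finset.sum_congr rfl fun J _ => Finset.sum_congr rfl fun K _ => ?_
  simp only [Fin.append_left, Fin.append_right, pM_apply, Fin.prod_univ_add]
  ring

/-- Systems of tensors, closed under permutations, tensor products and contractions. -/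
structure TSys (B : Type) [Fintype B] [DecidableEq B] where
  C : ∀ n, Submodule ℂ ((Fin n → B) → ℂ)
  one : (fun _ => 1) ∈ C 0
  perm : ∀ {n : ℕ} (σ : Equiv.Perm (Fin n)) {F : (Fin n → B) → ℂ}, F ∈ C n →
    (fun I => F (I ∘ σ)) ∈ C n
  tens : ∀ {m n : ℕ} {F : (Fin m → B) → ℂ} {G : (Fin n → B) → ℂ}, F ∈ C m → G ∈ C n →
    tp F G ∈ C (m + n)
  contr : ∀ {m n : ℕ} {F : (Fin m → B) → ℂ} {G : (Fin (m + n) → B) → ℂ}, F ∈ C m →
    G ∈ C (m + n) → ct F G ∈ C n

namespace TSys

variable (𝒜 : TSys B)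

/-- the orthogonal complement -/
def Perp (n : ℕ) (x : (Fin n → B) → ℂ) : Prop := ∀ F ∈ 𝒜.C n, ip F x = 0

/-- The group of the unitary operators which fix all tensors of the system. -/
def grp : Subgroup (unitary (Matrix B B ℂ)) where
  carrier := {u | ∀ n, ∀ F ∈ 𝒜.C n, rho n u *ᵥ F = F}
  mul_mem' := by
    intro u v hu hv n F hF
    rw [map_mul, ← Matrix.mulVec_mulVec, hv n F hF, hu n F hF]
  one_mem' := by
    intro n F _
    rw [map_one, Matrix.one_mulVec]
  inv_mem' := by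
    intro u hu n F hF
    conv_lhs => rw [← hu n F hF]
    rw [Matrix.mulVec_mulVec, ← map_mul, inv_mul_cancel, map_one, Matrix.one_mulVec]

lemma mem_grp {u : unitary (Matrix B B ℂ)} :
    u ∈ 𝒜.grp ↔ ∀ n, ∀ F ∈ 𝒜.C n, rho n u *ᵥ F = F := Iff.rfl

variable {𝒜}

lemma perp_tp {m n : ℕ} {b : (Fin m → B) → ℂ} {x : (Fin n → B) → ℂ} (hb : b ∈ 𝒜.C m)
    (hx : 𝒜.Perp n x) : 𝒜.Perp (m + n) (tp b x) := by
  intro F hF
  rw [← ip_star, ip_ct, ip_star]
  exact hx _ (𝒜.contr hb hF)

variable (μ : Measure (unitary (Matrix B B ℂ))) [IsFiniteMeasureOnCompacts μ]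
  [μ.IsMulLeftInvariant]

lemma ip_cont {n : ℕ} (y x : (Fin n → B) → ℂ) :
    Continuous fun u : unitary (Matrix B B ℂ) => ip y (rho n u *ᵥ x) := by
  simp only [ip]
  exact continuous_finsetSum _ fun I _ => continuous_const.mul (vec_cont x I)

lemma int_zero {n l : ℕ} {x : (Fin n → B) → ℂ} {c : (Fin l → B) → ℂ} (hx : 𝒜.Perp n x)
    (hc : c ∈ 𝒜.C l) (y : (Fin n → B) → ℂ) (c' : (Fin l → B) → ℂ) :
    ∫ u, ip y (rho n u *ᵥ x) * star (ip c' (rho l u *ᵥ c)) ∂μ = 0 := by
  have hE : EE μ x c = 0 := by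
    by_cases h : n = l
    · subst h
      exact EE_zero μ fun σ => hx _ (𝒜.perm σ hc)
    · exact EE_zero_ne μ h x c
  have hint : ∀ I J, Integrable (fun u : unitary (Matrix B B ℂ) =>
      (star (y I) * c' J) * ((rho n u *ᵥ x) I * star ((rho l u *ᵥ c) J))) μ :=
    fun I J => cont_int μ (continuous_const.mul (fn_cont x c I J))
  have h1 : ∀ u : unitary (Matrix B B ℂ), ip y (rho n u *ᵥ x) * star (ip c' (rho l u *ᵥ c)) =
      ∑ I, ∑ J, (star (y I) * c' J) * ((rho n u *ᵥ x) I * star ((rho l u *ᵥ c) J)) := by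
    intro u
    simp only [ip, star_sum, star_mul', star_star]
    rw [Finset.sum_mul_sum]
    refine Finset.sum_congr rfl fun I _ => Finset.sum_congr rfl fun J _ => ?_
    ring
  simp only [h1]
  rw [integral_finsetSum _ fun I _ => integrable_finsetSum _ fun J _ => hint I J]
  refine Finset.sum_eq_zero fun I _ => ?_
  rw [integral_finsetSum _ fun J _ => hint I J]
  refine Finset.sum_eq_zero fun J _ => ?_
  rw [integral_const_mul]
  have h2 : ∫ u, (rho n u *ᵥ x) I * star ((rho l u *ᵥ c) J) ∂μ = EE μ x c I J := rfl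
  rw [h2, hE]
  simp

/-- the generating functions -/
def gen' (𝒜 : TSys B) : Set (unitary (Matrix B B ℂ) → ℂ) :=
  {f | ∃ (m l : ℕ) (b b' : (Fin m → B) → ℂ) (c c' : (Fin l → B) → ℂ), b ∈ 𝒜.C m ∧ c ∈ 𝒜.C l ∧
    f = fun u => ip b' (rho m u *ᵥ b) * star (ip c' (rho l u *ᵥ c))}

/-- the functions -/
noncomputable def Fn (𝒜 : TSys B) : Submodule ℂ (unitary (Matrix B B ℂ) → ℂ) :=
  Submodule.span ℂ 𝒜.gen'

lemma Fn_cont {f : unitary (Matrix B B ℂ) → ℂ} (hf : f ∈ Fn 𝒜) : Continuous f := by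
  induction hf using Submodule.span_induction with
  | mem f hf =>
    obtain ⟨m, l, b, b', c, c', _, _, rfl⟩ := hf
    exact (ip_cont b' b).mul (ip_cont c' c).star
  | zero => exact continuous_const
  | add f g _ _ hf hg => exact hf.add hg
  | smul r f _ hf => exact hf.const_smul r

lemma Fn_int {f : unitary (Matrix B B ℂ) → ℂ} (hf : f ∈ Fn 𝒜) {n : ℕ} {x : (Fin n → B) → ℂ}
    (hx : 𝒜.Perp n x) (y : (Fin n → B) → ℂ) :
    ∫ u, f u * ip y (rho n u *ᵥ x) ∂μ = 0 := by
  induction hf using Submodule.span_induction with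
  | mem f hf =>
    obtain ⟨m, l, b, b', c, c', hb, hc, rfl⟩ := hf
    have h := int_zero μ (perp_tp hb hx) hc (tp b' y) c'
    rw [← h]
    congr 1
    funext u
    rw [rho_apply (m + n), pM_tp, ip_tp]
    simp only [rho_apply]
    ring
  | zero => simp
  | add f g hf' hg' hf hg =>
    simp only [Pi.add_apply, add_mul]
    have e := integral_add (μ := μ) (f := fun u => f u * ip y (rho n u *ᵥ x))
      (g := fun u => g u * ip y (rho n u *ᵥ x)) (cont_int μ ((Fn_cont hf').mul (ip_cont y x)))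
      (cont_int μ ((Fn_cont hg').mul (ip_cont y x)))
    rw [e, hf, hg, add_zero]
  | smul r f _ hf =>
    simp only [Pi.smul_apply, smul_eq_mul, mul_assoc]
    rw [integral_const_mul, hf, mul_zero]

lemma Fn_one : (fun _ => 1 : unitary (Matrix B B ℂ) → ℂ) ∈ Fn 𝒜 := by
  refine Submodule.subset_span ⟨0, 0, fun _ => 1, fun _ => 1, fun _ => 1, fun _ => 1, 𝒜.one,
    𝒜.one, ?_⟩
  funext u
  have h : rho (B := B) 0 u = 1 := by
    ext I J
    rw [Subsingleton.elim I J, Matrix.one_apply_eq]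
    rfl
  rw [h, Matrix.one_mulVec]
  simp [ip]

lemma Fn_mul {f g : unitary (Matrix B B ℂ) → ℂ} (hf : f ∈ Fn 𝒜) (hg : g ∈ Fn 𝒜) :
    (fun u => f u * g u) ∈ Fn 𝒜 := by
  induction hf using Submodule.span_induction with
  | mem f hf =>
    obtain ⟨m, l, b, b', c, c', hb, hc, rfl⟩ := hf
    induction hg using Submodule.span_induction with
    | mem g hg =>
      obtain ⟨m2, l2, b2, b2', c2, c2', hb2, hc2, rfl⟩ := hg
      refine Submodule.subset_span ⟨m + m2, l + l2, tp b b2, tp b' b2', tp c c2, tp c' c2',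
        𝒜.tens hb hb2, 𝒜.tens hc hc2, ?_⟩
      funext u
      rw [rho_apply (m + m2), rho_apply (l + l2), pM_tp, pM_tp, ip_tp, ip_tp, star_mul']
      simp only [rho_apply]
      ring
    | zero =>
      have e : (fun u => (ip b' (rho m u *ᵥ b) * star (ip c' (rho l u *ᵥ c))) *
          (0 : unitary (Matrix B B ℂ) → ℂ) u) = 0 := by
        funext u; simp
      rw [e]
      exact Submodule.zero_mem _
    | add g g' _ _ hg hg' =>
      have := Submodule.add_mem _ hg hg'
      convert this using 1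
      funext u
      simp only [Pi.add_apply]
      ring
    | smul r g _ hg =>
      have := Submodule.smul_mem _ r hg
      convert this using 1
      funext u
      simp only [Pi.smul_apply, smul_eq_mul]
      ring
  | zero =>
    have e : (fun u => (0 : unitary (Matrix B B ℂ) → ℂ) u * g u) = 0 := by
      funext u; simp
    rw [e]
    exact Submodule.zero_mem _
  | add f f' _ _ hf hf' =>
    have := Submodule.add_mem _ hf hf'
    convert this using 1
    funext u
    simp only [Pi.add_apply]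
    ring
  | smul r f _ hf =>
    have := Submodule.smul_mem _ r hf
    convert this using 1
    funext u
    simp only [Pi.smul_apply, smul_eq_mul]
    ring

lemma Fn_const (c : ℂ) : (fun _ => c : unitary (Matrix B B ℂ) → ℂ) ∈ Fn 𝒜 := by
  have := Submodule.smul_mem _ c (Fn_one (𝒜 := 𝒜))
  convert this using 1
  funext u
  simp

/-- the square of the distance -/
noncomputable def dist2 {m : ℕ} (a : (Fin m → B) → ℂ) (u : unitary (Matrix B B ℂ)) : ℝ :=
  ∑ I, Complex.normSq ((rho m u *ᵥ a) I - a I)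

lemma dist2_nonneg {m : ℕ} (a : (Fin m → B) → ℂ) (u : unitary (Matrix B B ℂ)) : 0 ≤ dist2 a u :=
  Finset.sum_nonneg fun _ _ => Complex.normSq_nonneg _

lemma dist2_eq_zero {m : ℕ} {a : (Fin m → B) → ℂ} {u : unitary (Matrix B B ℂ)}
    (h : dist2 a u = 0) : rho m u *ᵥ a = a := by
  funext I
  have := (Finset.sum_eq_zero_iff_of_nonneg fun I _ => Complex.normSq_nonneg _).1 h I
    (Finset.mem_univ _)
  exact sub_eq_zero.1 (Complex.normSq_eq_zero.1 this)

lemma dist2_cont {m : ℕ} (a : (Fin m → B) → ℂ) : Continuous (dist2 a) :=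
  continuous_finsetSum _ fun I _ =>
    Complex.continuous_normSq.comp ((vec_cont a I).sub continuous_const)

lemma dist2_eq {m : ℕ} (a : (Fin m → B) → ℂ) (u : unitary (Matrix B B ℂ)) :
    (dist2 a u : ℂ) = 2 * ip a a - ip a (rho m u *ᵥ a) - star (ip a (rho m u *ᵥ a)) := by
  have h1 : (dist2 a u : ℂ) = ip (rho m u *ᵥ a) (rho m u *ᵥ a) - star (ip a (rho m u *ᵥ a)) -
      ip a (rho m u *ᵥ a) + ip a a := by
    simp only [dist2, ip, star_sum, star_mul', star_star, ← Finset.sum_sub_distrib,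
      ← Finset.sum_add_distrib, Complex.ofReal_sum]
    refine Finset.sum_congr rfl fun I _ => ?_
    rw [Complex.normSq_eq_conj_mul_self]
    change star _ * _ = _
    rw [star_sub]
    ring
  rw [h1, ip_rho]
  ring

lemma dist2_mem {m : ℕ} {a : (Fin m → B) → ℂ} (ha : a ∈ 𝒜.C m) :
    (fun u => (dist2 a u : ℂ)) ∈ Fn 𝒜 := by
  have h1 : (fun u => ip a (rho m u *ᵥ a)) ∈ Fn 𝒜 := by
    refine Submodule.subset_span ⟨m, 0, a, a, fun _ => 1, fun _ => 1, ha, 𝒜.one, ?_⟩
    funext u
    have h : rho (B := B) 0 u = 1 := by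
      ext I J
      rw [Subsingleton.elim I J, Matrix.one_apply_eq]
      rfl
    rw [h, Matrix.one_mulVec]
    simp [ip]
  have h2 : (fun u => star (ip a (rho m u *ᵥ a))) ∈ Fn 𝒜 := by
    refine Submodule.subset_span ⟨0, m, fun _ => 1, fun _ => 1, a, a, 𝒜.one, ha, ?_⟩
    funext u
    have h : rho (B := B) 0 u = 1 := by
      ext I J
      rw [Subsingleton.elim I J, Matrix.one_apply_eq]
      rfl
    rw [h, Matrix.one_mulVec]
    simp [ip]
  have h3 := Submodule.sub_mem _ (Submodule.sub_mem _ (Fn_const (𝒜 := 𝒜) (2 * ip a a)) h1) h2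
  convert h3 using 1
  funext u
  rw [dist2_eq]
  rfl

lemma Fn_sum {ι : Type*} (s : Finset ι) (f : ι → unitary (Matrix B B ℂ) → ℂ)
    (h : ∀ i ∈ s, f i ∈ Fn 𝒜) : (fun u => ∑ i ∈ s, f i u) ∈ Fn 𝒜 := by
  have := Submodule.sum_mem (Fn 𝒜) h
  convert this using 1
  funext u
  rw [Finset.sum_apply]

lemma Fn_pow {g : unitary (Matrix B B ℂ) → ℂ} (hg : g ∈ Fn 𝒜) (k : ℕ) :
    (fun u => g u ^ k) ∈ Fn 𝒜 := by
  induction k with
  | zero =>
    simp only [pow_zero]
    exact Fn_one
  | succ k ih =>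
    simp only [pow_succ]
    exact Fn_mul ih hg

lemma Fn_poly {g : unitary (Matrix B B ℂ) → ℝ} (hg : (fun u => (g u : ℂ)) ∈ Fn 𝒜)
    (p : Polynomial ℝ) : (fun u => ((p.eval (g u) : ℝ) : ℂ)) ∈ Fn 𝒜 := by
  have h : (fun u => ((p.eval (g u) : ℝ) : ℂ)) =
      fun u => ∑ i ∈ Finset.range (p.natDegree + 1), (p.coeff i : ℂ) * (g u : ℂ) ^ i := by
    funext u
    rw [Polynomial.eval_eq_sum_range]
    push_cast
    rfl
  rw [h]
  exact Fn_sum _ _ fun i _ => Fn_mul (Fn_const _) (Fn_pow hg i)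

/-- **Tannaka-Krein duality**: every tensor which is fixed by all unitary operators that fix the
tensors of the system belongs to the system. -/
theorem mem_of_fix [μ.IsOpenPosMeasure] {n : ℕ} {x : (Fin n → B) → ℂ} (hperp : 𝒜.Perp n x)
    (hfix : ∀ u ∈ 𝒜.grp, rho n u *ᵥ x = x) : x = 0 := by
  by_contra hx
  set N : ℝ := ∑ I, Complex.normSq (x I) with hN
  have hNx : ip x x = (N : ℂ) := by
    rw [hN, Complex.ofReal_sum]
    refine Finset.sum_congr rfl fun I _ => ?_
    rw [Complex.normSq_eq_conj_mul_self]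
    rfl
  have hNpos : 0 < N := by
    rcases (Finset.sum_nonneg fun I (_ : I ∈ univ) => Complex.normSq_nonneg (x I)).lt_or_eq
      with h | h
    · exact h
    · exfalso
      apply hx
      apply ip_self_eq_zero
      rw [hNx, hN, ← h]
      simp
  set φ : unitary (Matrix B B ℂ) → ℂ := fun u => ip x (rho n u *ᵥ x) with hφ
  have hφc : Continuous φ := ip_cont x x
  have hφre : Continuous fun u => (φ u).re := Complex.continuous_re.comp hφc
  -- the bad set
  set K : Set (unitary (Matrix B B ℂ)) := {u | (φ u).re ≤ N / 2} with hK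
  have hKc : IsCompact K := (isClosed_le hφre continuous_const).isCompact
  have hcov : ∀ u ∈ K, ∃ (p : Σ m, 𝒜.C m), 0 < dist2 (p.2 : (Fin p.1 → B) → ℂ) u := by
    intro u hu
    by_contra hcon
    push Not at hcon
    have hug : u ∈ 𝒜.grp := by
      intro m F hF
      exact dist2_eq_zero (le_antisymm (hcon ⟨m, ⟨F, hF⟩⟩) (dist2_nonneg _ _))
    have h1 : (φ u).re = N := by
      rw [hφ]
      simp only
      rw [hfix u hug, hNx, Complex.ofReal_re]
    have h2 : (φ u).re ≤ N / 2 := hu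
    linarith
  obtain ⟨s, hs⟩ : ∃ s : Finset (Σ m, 𝒜.C m), ∀ u ∈ K, ∃ p ∈ s,
      0 < dist2 (p.2 : (Fin p.1 → B) → ℂ) u := by
    obtain ⟨s, hs⟩ := hKc.elim_finite_subcover
      (fun p : Σ m, 𝒜.C m => {u | 0 < dist2 (p.2 : (Fin p.1 → B) → ℂ) u})
      (fun p => isOpen_lt continuous_const (dist2_cont _)) (by
        intro u hu
        obtain ⟨p, hp⟩ := hcov u hu
        exact Set.mem_iUnion.2 ⟨p, hp⟩)
    refine ⟨s, fun u hu => ?_⟩
    have := hs hu
    simp only [Set.mem_iUnion, exists_prop] at this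
    exact this
  set g : unitary (Matrix B B ℂ) → ℝ := fun u => ∑ p ∈ s, dist2 (p.2 : (Fin p.1 → B) → ℂ) u
    with hg
  have hgc : Continuous g := continuous_finsetSum _ fun p _ => dist2_cont _
  have hg0 : ∀ u, 0 ≤ g u := fun u => Finset.sum_nonneg fun p _ => dist2_nonneg _ _
  have hgF : (fun u => (g u : ℂ)) ∈ Fn 𝒜 := by
    have h := Fn_sum s (fun p u => ((dist2 (p.2 : (Fin p.1 → B) → ℂ) u : ℝ) : ℂ))
      fun p _ => dist2_mem p.2.2
    convert h using 1
    funext u
    rw [hg]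
    push_cast
    rfl
  have hgpos : ∀ u ∈ K, 0 < g u := by
    intro u hu
    obtain ⟨p, hp, hpos⟩ := hs u hu
    exact Finset.sum_pos' (fun p _ => dist2_nonneg _ _) ⟨p, hp, hpos⟩
  obtain ⟨δ, hδ, hδK⟩ : ∃ δ : ℝ, 0 < δ ∧ ∀ u ∈ K, δ ≤ g u := by
    rcases K.eq_empty_or_nonempty with h | h
    · exact ⟨1, one_pos, fun u hu => by rw [h] at hu; exact absurd hu (Set.notMem_empty _)⟩
    · obtain ⟨u0, hu0, hmin⟩ := hKc.exists_isMinOn h hgc.continuousOn
      exact ⟨g u0, hgpos u0 hu0, fun u hu => hmin hu⟩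
  obtain ⟨M, hM⟩ : ∃ M : ℝ, ∀ u, g u ≤ M := by
    obtain ⟨u0, _, hmax⟩ := isCompact_univ.exists_isMaxOn ⟨1, Set.mem_univ _⟩ hgc.continuousOn
    exact ⟨g u0, fun u => hmax (Set.mem_univ u)⟩
  -- the bump function
  set b : ℝ → ℝ := fun t => max 0 (1 - t / δ) with hb
  have hbc : Continuous b := continuous_const.max (continuous_const.sub (continuous_id.div_const _))
  have hφint : Integrable φ μ := cont_int μ hφc
  have hbφ : Continuous fun u => ((b (g u) : ℝ) : ℂ) * φ u :=
    (Complex.continuous_ofReal.comp (hbc.comp hgc)).mul hφc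
  have hzero : ∫ u, ((b (g u) : ℝ) : ℂ) * φ u ∂μ = 0 := by
    rw [← norm_eq_zero]
    refine le_antisymm (le_of_forall_pos_le_add fun ε hε => ?_) (norm_nonneg _)
    rw [zero_add]
    set I0 : ℝ := ∫ u, ‖φ u‖ ∂μ with hI0
    have hI0n : 0 ≤ I0 := integral_nonneg fun u => norm_nonneg _
    obtain ⟨p, hp⟩ := exists_polynomial_near_of_continuousOn 0 M b hbc.continuousOn
      (ε / (I0 + 1)) (by positivity)
    have h1 := Fn_int μ (Fn_poly hgF p) hperp x
    have h2 : ∫ u, ((b (g u) : ℝ) : ℂ) * φ u ∂μ =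
        ∫ u, (((b (g u) : ℝ) : ℂ) - ((p.eval (g u) : ℝ) : ℂ)) * φ u ∂μ := by
      simp only [sub_mul]
      have e := integral_sub (μ := μ) (f := fun u => ((b (g u) : ℝ) : ℂ) * φ u)
        (g := fun u => ((p.eval (g u) : ℝ) : ℂ) * φ u) (cont_int μ hbφ)
        (cont_int μ ((Fn_cont (Fn_poly hgF p)).mul hφc))
      rw [e]
      have h3 : ∫ u, ((p.eval (g u) : ℝ) : ℂ) * φ u ∂μ = 0 := h1
      rw [h3, sub_zero]
    rw [h2]
    calc ‖∫ u, (((b (g u) : ℝ) : ℂ) - ((p.eval (g u) : ℝ) : ℂ)) * φ u ∂μ‖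
        ≤ ∫ u, ‖(((b (g u) : ℝ) : ℂ) - ((p.eval (g u) : ℝ) : ℂ)) * φ u‖ ∂μ :=
          norm_integral_le_integral_norm _
      _ ≤ ∫ u, (ε / (I0 + 1)) * ‖φ u‖ ∂μ := by
          refine integral_mono_of_nonneg (Filter.Eventually.of_forall fun u => norm_nonneg _)
            (hφint.norm.const_mul _) (Filter.Eventually.of_forall fun u => ?_)
          simp only
          rw [norm_mul]
          refine mul_le_mul_of_nonneg_right ?_ (norm_nonneg _)
          rw [← Complex.ofReal_sub, Complex.norm_real, Real.norm_eq_abs, abs_sub_comm]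
          exact (hp (g u) ⟨hg0 u, hM u⟩).le
      _ = (ε / (I0 + 1)) * I0 := integral_const_mul _ _
      _ ≤ ε := by
          rw [div_mul_eq_mul_div, div_le_iff₀ (by positivity)]
          nlinarith
  -- positivity
  set ψ : unitary (Matrix B B ℂ) → ℝ := fun u => b (g u) * (φ u).re with hψ
  have hψc : Continuous ψ := (hbc.comp hgc).mul hφre
  have hψ0 : ∀ u, 0 ≤ ψ u := by
    intro u
    by_cases hu : u ∈ K
    · have h1 : b (g u) = 0 := by
        rw [hb]
        simp only
        rw [max_eq_left]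
        rw [sub_nonpos, le_div_iff₀ hδ, one_mul]
        exact hδK u hu
      rw [hψ]
      simp only
      rw [h1, zero_mul]
    · have h1 : N / 2 < (φ u).re := not_le.1 hu
      exact mul_nonneg (le_max_left _ _) (by linarith)
  have hψ1 : ψ 1 ≠ 0 := by
    have h1 : g 1 = 0 := by
      rw [hg]
      refine Finset.sum_eq_zero fun p _ => ?_
      unfold dist2
      refine Finset.sum_eq_zero fun I _ => ?_
      rw [map_one, Matrix.one_mulVec, sub_self, map_zero]
    have h2 : (φ 1).re = N := by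
      rw [hφ]
      simp only
      rw [map_one, Matrix.one_mulVec, hNx, Complex.ofReal_re]
    rw [hψ]
    simp only
    rw [h1, h2, hb]
    simp only
    rw [zero_div, sub_zero, max_eq_right zero_le_one, one_mul]
    exact hNpos.ne'
  have hpos : 0 < ∫ u, ψ u ∂μ :=
    hψc.integral_pos_of_hasCompactSupport_nonneg_nonzero (HasCompactSupport.of_compactSpace _)
      hψ0 hψ1
  have hre : ∫ u, ψ u ∂μ = (∫ u, ((b (g u) : ℝ) : ℂ) * φ u ∂μ).re := by
    have h1 := integral_re (𝕜 := ℂ) (cont_int μ hbφ)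
    have h2 : (∫ u, RCLike.re (((b (g u) : ℝ) : ℂ) * φ u) ∂μ) = ∫ u, ψ u ∂μ := by
      congr 1
      funext u
      change (((b (g u) : ℝ) : ℂ) * φ u).re = _
      rw [Complex.re_ofReal_mul]
    rw [← h2, h1]
    rfl
  rw [hre, hzero, Complex.zero_re] at hpos
  exact lt_irrefl _ hpos

end TSys

end Pool.Agent.Q67.TK
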